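import Pool.Agent.P.MP_db4732_co.Deg

/-! Corner-free supports of short sums `∑ f_j(x) g_j(y) h_j(x,y)` with translation invariant
`h_j`. -/

namespace Pool.Agent.P.MP_db4732_co.Deg

open Finset Module Real

lemma tail (m : ℕ) (m' a ε : ℝ) (hm' : 0 < m') (hm : (m : ℝ) ≤ m') (ha : 0 ≤ a)
    (hε : ε = 1 ∨ ε = -1) (F : Finset (Finset (Fin m)))
    (hF : ∀ S ∈ F, a ≤ ε * ((S.card : ℝ) - m / 2)) :
    (F.card : ℝ) ≤ 2 ^ m * exp (- (2 * a ^ 2 / m')) := by
  set t := 4 * a / m' with ht
  have ht0 : 0 ≤ t := by positivity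
  have h1 := Fintype.sum_pow_mul_eq_add_pow (Fin m) (exp (ε * t / 2)) (exp (- (ε * t / 2)))
  rw [Fintype.card_fin] at h1
  have h2 : ∀ S : Finset (Fin m), exp (ε * t / 2) ^ S.card * exp (- (ε * t / 2)) ^ (m - S.card)
      = exp (t * (ε * ((S.card : ℝ) - m / 2))) := by
    intro S
    have : S.card ≤ m := by simpa using card_le_univ S
    rw [← exp_nat_mul, ← exp_nat_mul, ← exp_add, Nat.cast_sub this]
    congr 1; ring
  simp_rw [h2] at h1
  have h3 : exp (ε * t / 2) + exp (- (ε * t / 2)) ≤ 2 * exp (t ^ 2 / 8) := by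
    have := cosh_le_exp_half_sq (ε * t / 2)
    rw [cosh_eq] at this
    have e : (ε * t / 2) ^ 2 / 2 = t ^ 2 / 8 := by rcases hε with rfl | rfl <;> ring
    rw [e] at this
    linarith
  have h4 : (F.card : ℝ) * exp (t * a) ≤ (2 * exp (t ^ 2 / 8)) ^ m := by
    calc (F.card : ℝ) * exp (t * a) = ∑ _S ∈ F, exp (t * a) := by simp
      _ ≤ ∑ S ∈ F, exp (t * (ε * ((S.card : ℝ) - m / 2))) :=
          sum_le_sum fun S hS => exp_le_exp.2 (mul_le_mul_of_nonneg_left (hF S hS) ht0)
      _ ≤ ∑ S : Finset (Fin m), exp (t * (ε * ((S.card : ℝ) - m / 2))) :=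
          sum_le_sum_of_subset_of_nonneg (subset_univ _) fun _ _ _ => (exp_pos _).le
      _ = _ := h1
      _ ≤ _ := pow_le_pow_left₀ (by positivity) h3 m
  rw [mul_pow, ← exp_nat_mul] at h4
  have h5 : (F.card : ℝ) ≤ 2 ^ m * exp (m * (t ^ 2 / 8) - t * a) := by
    rw [exp_sub, ← mul_div_assoc, le_div_iff₀ (exp_pos _)]; exact h4
  refine h5.trans (mul_le_mul_of_nonneg_left (exp_le_exp.2 ?_) (by positivity))
  have h6 : (m : ℝ) * (t ^ 2 / 8) ≤ m' * (t ^ 2 / 8) :=
    mul_le_mul_of_nonneg_right hm (by positivity)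
  have h7 : m' * (t ^ 2 / 8) - t * a = - (2 * a ^ 2 / m') := by
    rw [ht]; field_simp; ring
  linarith

variable {K : Type*} [Field K] [CharP K 2]

lemma bound_nat {n m : ℕ} {J : Type*} [Fintype J] (d r : ℕ)
    (L : ((Fin n → ZMod 2) × (Fin n → ZMod 2)) →ₗ[ZMod 2] (Fin m → ZMod 2))
    (hL : ∀ v, (univ.filter fun P => L P = v).card ≤ r)
    (f g : J → (Fin n → ZMod 2) → K) (h : J → (Fin m → ZMod 2) → K)
    (A : Finset ((Fin n → ZMod 2) × (Fin n → ZMod 2)))
    (hA : ∀ P, P ∈ A ↔ ∑ j, f j P.1 * g j P.2 * h j (L P) ≠ 0)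
    (hcf : ∀ x y z, z ≠ 0 → ¬ ((x, y) ∈ A ∧ (x, y + z) ∈ A ∧ (x + z, y) ∈ A)) :
    A.card ≤ Fintype.card J * (univ.filter fun S : Finset (Fin m) => d < S.card).card * r +
      2 ^ n * (Fintype.card J *
        (2 * (univ.filter fun S : Finset (Fin n) => S.card ≤ d / 2).card)) := by
  classical
  obtain ⟨l, T, hT, hTc, hl⟩ := exists_multiplier h d
  have h2 : ∀ v : Fin n → ZMod 2, v + v = 0 := fun v => by
    funext i; exact CharTwo.add_self_eq_zero _
  have hsplit := card_filter_add_card_filter_not (s := A) (fun P => L P ∈ T)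
  have hA1 : (A.filter fun P => L P ∈ T).card ≤ T.card * r := by
    refine card_le_mul_card_image_of_maps_to (f := L) (t := T) (fun P hP => (mem_filter.1 hP).2)
      r (fun v _ => ?_) |>.trans (le_of_eq (mul_comm _ _))
    exact (card_le_card fun P hP => by simp [(mem_filter.1 hP).2]).trans (hL v)
  have hA2 : (A.filter fun P => ¬ L P ∈ T).card ≤ (Fintype.card J *
        (2 * (univ.filter fun S : Finset (Fin n) => S.card ≤ d / 2).card)) * 2 ^ n := by
    have hc : (univ : Finset (Fin n → ZMod 2)).card = 2 ^ n := by simp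
    rw [← hc]
    refine card_le_mul_card_image_of_maps_to (f := fun P => P.1 + P.2) (fun _ _ => mem_univ _) _
      fun t _ => ?_
    set D := univ.filter fun x => (x, x + t) ∈ A ∧ L (x, x + t) ∉ T with hD
    have hD1 : (((A.filter fun P => ¬ L P ∈ T)).filter fun P => P.1 + P.2 = t).card ≤ D.card := by
      refine card_le_card_of_injOn Prod.fst (fun P hP => ?_) (fun P hP Q hQ e => ?_)
      · simp only [coe_filter, mem_filter, Set.mem_ofPred_eq] at hP
        have : P = (P.1, P.1 + t) := by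
          rw [← hP.2, ← add_assoc, h2, zero_add]
        simp only [hD, coe_filter, mem_univ, true_and, Set.mem_ofPred_eq, ← this]
        exact hP.1
      · simp only [coe_filter, mem_filter, Set.mem_ofPred_eq] at hP hQ
        refine Prod.ext e ?_
        have := hP.2.trans hQ.2.symm
        rw [e] at this
        exact add_left_cancel this
    refine hD1.trans ?_
    have hdeg : ∀ j, (fun P => (l * h j) (L P + L (0, t))) ∈ Dg (Sum.elim
        (fun i (P : (Fin n → ZMod 2) × (Fin n → ZMod 2)) => co K (Fin n) i P.1)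
        (fun i P => co K (Fin n) i P.2)) d := by
      intro j
      refine comp_mem ?_ (fun P => L P + L (0, t)) (fun i => ?_) (hl j)
      · rintro (i | i) P <;> exact ph_idem _
      · exact affine_mem ((LinearMap.proj i).comp L) (L (0, t) i)
    choose G F hGF using fun j => split (co K (Fin n)) (co K (Fin n)) d (hdeg j)
    set Sm := {S : Finset (Fin n) // S.card ≤ d / 2}
    have key : ∀ x y, ∑ i : J × (Sm ⊕ Sm),
        (f i.1 x * Sum.elim (fun S : Sm => mono (co K (Fin n)) S x) (fun S : Sm => F i.1 S x) i.2) *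
        (g i.1 (y + t) * Sum.elim (fun S : Sm => G i.1 S y)
          (fun S : Sm => mono (co K (Fin n)) S y) i.2) =
        l (L (x, y + t)) * ∑ j, f j x * g j (y + t) * h j (L (x, y + t)) := by
      intro x y
      rw [Fintype.sum_prod_type, mul_sum]
      refine sum_congr rfl fun j _ => ?_
      have e1 := hGF j x y
      have e2 : L (x, y) + L (0, t) = L (x, y + t) := by rw [← map_add]; simp
      simp only [e2, Pi.mul_apply] at e1
      rw [Fintype.sum_sum_type]
      simp only [Sum.elim_inl, Sum.elim_inr]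
      calc _ = f j x * g j (y + t) * (∑ S : Sm, mono (co K (Fin n)) S x * G j S y +
            ∑ S : Sm, F j S x * mono (co K (Fin n)) S y) := by
            rw [mul_add, mul_sum, mul_sum]
            congr 1 <;> refine sum_congr rfl fun _ _ => by ring
        _ = _ := by rw [← e1]; ring
    have := diag_le (I := J × (Sm ⊕ Sm)) D
      (fun i x => f i.1 x *
        Sum.elim (fun S : Sm => mono (co K (Fin n)) S x) (fun S : Sm => F i.1 S x) i.2)
      (fun i y => g i.1 (y + t) * Sum.elim (fun S : Sm => G i.1 S y)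
          (fun S : Sm => mono (co K (Fin n)) S y) i.2) ?_ ?_
    · refine this.trans (le_of_eq ?_)
      rw [Fintype.card_prod, Fintype.card_sum, Fintype.card_subtype, two_mul]
    · intro x hx y hy hxy
      rw [key]
      simp only [hD, mem_filter, mem_univ, true_and] at hx hy
      have : (x, y + t) ∉ A := by
        intro hmem
        refine hcf x (y + t) (x + y) (fun e => hxy ?_) ⟨hmem, ?_, ?_⟩
        · have := h2 y
          rw [← e] at this
          exact (add_right_cancel this).symm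
        · have : y + t + (x + y) = x + t + (y + y) := by abel
          rw [this, h2, add_zero]; exact hx.1
        · rw [← add_assoc, h2, zero_add]; exact hy.1
      have h0 := (hA (x, y + t)).not.1 this
      push Not at h0
      rw [h0, mul_zero]
    · intro x hx
      rw [key]
      simp only [hD, mem_filter, mem_univ, true_and] at hx
      exact mul_ne_zero (fun e => hx.2 (hT _ e)) ((hA _).1 hx.1)
  have := Nat.mul_le_mul_right r hTc
  rw [mul_comm (2 ^ n)]
  omega

theorem lowRank (n M : ℕ)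
    (W : Submodule (ZMod 2) ((Fin n → ZMod 2) × (Fin n → ZMod 2)))
    (f g : Fin M → (Fin n → ZMod 2) → K)
    (h : Fin M → (Fin n → ZMod 2) × (Fin n → ZMod 2) → K)
    (hW : ∀ j P, ∀ u ∈ W, h j (P + u) = h j P)
    (A : Finset ((Fin n → ZMod 2) × (Fin n → ZMod 2)))
    (hA : ∀ P, P ∈ A ↔ ∑ j, f j P.1 * g j P.2 * h j P ≠ 0)
    (hcf : ∀ x y z, z ≠ 0 → ¬ ((x, y) ∈ A ∧ (x, y + z) ∈ A ∧ (x + z, y) ∈ A)) :
    (A.card : ℝ) ≤ 3 * M * 4 ^ n * exp (- ((finrank (ZMod 2) W : ℝ) ^ 2 / (25 * n))) := by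
  classical
  rcases Nat.eq_zero_or_pos n with rfl | hn
  · rcases A.eq_empty_or_nonempty with rfl | ⟨P, hP⟩
    · simp
    have hM : M ≠ 0 := by
      rintro rfl
      simpa using (hA P).1 hP
    have h1 : A.card ≤ 1 := by simpa using card_le_univ A
    have h2 : (1 : ℝ) ≤ M := by exact_mod_cast Nat.one_le_iff_ne_zero.2 hM
    have h3 : (A.card : ℝ) ≤ 1 := by exact_mod_cast h1
    simp only [CharP.cast_eq_zero, mul_zero, div_zero, neg_zero, exp_zero, pow_zero]
    linarith
  set w := finrank (ZMod 2) W with hw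
  have hfin := Submodule.finrank_quotient_add_finrank W
  have htot : finrank (ZMod 2) ((Fin n → ZMod 2) × (Fin n → ZMod 2)) = 2 * n := by
    simp [two_mul]
  set m := finrank (ZMod 2) (((Fin n → ZMod 2) × (Fin n → ZMod 2)) ⧸ W) with hm
  rw [htot, ← hw] at hfin
  let e : (((Fin n → ZMod 2) × (Fin n → ZMod 2)) ⧸ W) ≃ₗ[ZMod 2] (Fin m → ZMod 2) :=
    LinearEquiv.ofFinrankEq _ _ (by simp [hm])
  let L := e.toLinearMap.comp W.mkQ
  have hLW : ∀ P Q, L P = L Q → P - Q ∈ W := by
    intro P Q hPQ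
    exact (Submodule.Quotient.eq W).1 (e.injective hPQ)
  have hL : ∀ v, (univ.filter fun P => L P = v).card ≤ 2 ^ w := by
    intro v
    rcases (univ.filter fun P => L P = v).eq_empty_or_nonempty with h0 | ⟨Q, hQ⟩
    · simp [h0]
    have hc : Fintype.card W = 2 ^ w := by
      rw [Module.card_eq_pow_finrank (K := ZMod 2), ZMod.card]
    rw [← hc, Fintype.card_subtype]
    refine card_le_card_of_injOn (fun P => P - Q) (fun P hP => ?_) (fun P _ P' _ e => ?_)
    · simp only [coe_filter, mem_univ, true_and, Set.mem_ofPred_eq, mem_filter] at hP hQ ⊢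
      exact hLW _ _ (hP.trans hQ.symm)
    · exact sub_left_injective e
  have hsurj : Function.Surjective L := e.surjective.comp W.mkQ_surjective
  choose s hs using hsurj
  have hh : ∀ j P, h j (s (L P)) = h j P := by
    intro j P
    have := hW j P _ (hLW _ _ (hs (L P)))
    rwa [add_sub_cancel] at this
  set τ := ⌈(3 / 10 : ℝ) * w⌉₊ with hτ
  have hτ1 : (3 / 10 : ℝ) * w ≤ τ := Nat.le_ceil _
  have hτ2 : (τ : ℝ) < 3 / 10 * w + 1 := Nat.ceil_lt_add_one (by positivity)
  have hwn : (m : ℝ) + w = 2 * n := by exact_mod_cast hfin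
  have hn' : (0 : ℝ) < n := by exact_mod_cast hn
  have hm0 : (0 : ℝ) ≤ m := by positivity
  have hw0 : (0 : ℝ) ≤ w := by positivity
  have hτn : τ ≤ n := Nat.ceil_le.2 (by linarith)
  have hb := bound_nat (n - τ) (2 ^ w) L hL f g (fun j v => h j (s v)) A
    (by simpa only [hh] using hA) hcf
  rw [Fintype.card_fin] at hb
  have t1 := tail m (2 * n) (w / 5) 1 (by positivity) (by linarith) (by positivity) (Or.inl rfl)
    (univ.filter fun S : Finset (Fin m) => n - τ < S.card) (by
      intro S hS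
      have h1 : n - τ + 1 ≤ S.card := (mem_filter.1 hS).2
      have h2 : ((n - τ + 1 : ℕ) : ℝ) ≤ S.card := by exact_mod_cast h1
      rw [Nat.cast_add, Nat.cast_sub hτn, Nat.cast_one] at h2
      linarith)
  have t2 := tail n n (3 / 20 * w) (-1) hn' le_rfl (by positivity) (Or.inr rfl)
    (univ.filter fun S : Finset (Fin n) => S.card ≤ (n - τ) / 2) (by
      intro S hS
      have h1 : 2 * S.card ≤ n - τ := by have := (mem_filter.1 hS).2; omega
      have h2 : ((2 * S.card : ℕ) : ℝ) ≤ ((n - τ : ℕ) : ℝ) := by exact_mod_cast h1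
      rw [Nat.cast_mul, Nat.cast_sub hτn] at h2
      push_cast at h2
      linarith)
  set E := exp (- ((w : ℝ) ^ 2 / (25 * n))) with hE
  have e1 : - (2 * ((w : ℝ) / 5) ^ 2 / (2 * n)) = - ((w : ℝ) ^ 2 / (25 * n)) := by
    field_simp; ring
  rw [e1, ← hE] at t1
  have e2 : exp (- (2 * (3 / 20 * (w : ℝ)) ^ 2 / n)) ≤ E := by
    refine exp_le_exp.2 (neg_le_neg ?_)
    rw [div_le_div_iff₀ (by positivity) hn']
    nlinarith [mul_nonneg (sq_nonneg (w : ℝ)) hn'.le]
  have t2' := t2.trans (mul_le_mul_of_nonneg_left e2 (by positivity))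
  have hb' : (A.card : ℝ) ≤ M * (univ.filter fun S : Finset (Fin m) => n - τ < S.card).card *
      2 ^ w + 2 ^ n * (M * (2 *
        (univ.filter fun S : Finset (Fin n) => S.card ≤ (n - τ) / 2).card)) := by
    exact_mod_cast hb
  have p1 : (2 : ℝ) ^ m * 2 ^ w = 4 ^ n := by
    rw [← pow_add, hfin, pow_mul]; norm_num
  have p2 : (2 : ℝ) ^ n * 2 ^ n = 4 ^ n := by rw [← mul_pow]; norm_num
  have hM : (0 : ℝ) ≤ M := by positivity
  calc (A.card : ℝ) ≤ M * (2 ^ m * E) * 2 ^ w + 2 ^ n * (M * (2 * (2 ^ n * E))) := by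
        refine hb'.trans ?_
        gcongr
    _ = M * E * (2 ^ m * 2 ^ w) + 2 * M * E * (2 ^ n * 2 ^ n) := by ring
    _ = _ := by rw [p1, p2]; ring

end Pool.Agent.P.MP_db4732_co.Deg
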