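import Pool.Agent.P.MP_db4732_co.Lift
import Pool.Agent.P.MP_db4732_co.Rank

/-! Corner-free sets obtained by lifting to a group with few square roots are small. -/

namespace Pool.Agent.P.MP_db4732_co

open Finset Module Real Ent

lemma cylinder (n : ℕ) (X Y Z : (Fin n → ZMod 2) → Prop)
    (A : Finset ((Fin n → ZMod 2) × (Fin n → ZMod 2)))
    (hA : ∀ P, P ∈ A ↔ X P.1 ∧ Y P.2 ∧ Z (P.1 + P.2))
    (hcf : ∀ x y z, z ≠ 0 → ¬ ((x, y) ∈ A ∧ (x, y + z) ∈ A ∧ (x + z, y) ∈ A)) :
    (A.card : ℝ) ≤ 3 * 4 ^ n * exp (- ((n : ℝ) / 25)) := by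
  classical
  let d : (Fin n → ZMod 2) →ₗ[ZMod 2] (Fin n → ZMod 2) × (Fin n → ZMod 2) :=
    LinearMap.prod LinearMap.id LinearMap.id
  have hd : Function.Injective d := fun u v e => congrArg Prod.fst e
  have hW : finrank (ZMod 2) (LinearMap.range d) = n := by
    rw [LinearMap.finrank_range_of_inj hd]; simp
  have := Deg.lowRank (K := ZMod 2) n 1 (LinearMap.range d) (fun _ x => if X x then 1 else 0)
    (fun _ y => if Y y then 1 else 0) (fun _ P => if Z (P.1 + P.2) then 1 else 0) ?_ A ?_ hcf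
  · rw [hW] at this
    have e : (n : ℝ) ^ 2 / (25 * n) = n / 25 := by
      rcases Nat.eq_zero_or_pos n with rfl | hn
      · simp
      · field_simp
    rw [e] at this
    simpa using this
  · rintro j P _ ⟨u, rfl⟩
    have : (P + d u).1 + (P + d u).2 = P.1 + P.2 := by
      have h2 : u + u = 0 := by funext i; exact CharTwo.add_self_eq_zero _
      show P.1 + u + (P.2 + u) = _
      rw [add_add_add_comm, h2, add_zero]
    simp only [this]
  · intro P
    rw [hA]
    by_cases h1 : X P.1 <;> by_cases h2 : Y P.2 <;> by_cases h3 : Z (P.1 + P.2) <;>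
      simp [h1, h2, h3]

theorem lifts (n τ : ℕ) {H : Type*} [Group H]
    (hτ : ∀ h : H, ∃ T : Finset H, T.card ≤ τ ∧ ∀ g, g * g = h → g ∈ T)
    (a b c : (Fin n → ZMod 2) → H) (E : Set (H × H))
    (A : Finset ((Fin n → ZMod 2) × (Fin n → ZMod 2)))
    (hA : ∀ x y, (x, y) ∈ A ↔ a x * b y = c (x + y) ∧ (a x, b y) ∈ E)
    (hcf : ∀ x y z, z ≠ 0 → ¬ ((x, y) ∈ A ∧ (x, y + z) ∈ A ∧ (x + z, y) ∈ A)) :
    ((A.card : ℝ) / 4 ^ n) ^ 81 ≤ 3 * τ ^ 2 * exp (- ((n : ℝ) / 25)) := by
  classical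
  rcases A.eq_empty_or_nonempty with rfl | hne
  · simp only [card_empty, Nat.cast_zero, zero_div]
    rw [zero_pow (by norm_num)]
    positivity
  have hτ0 : 0 < τ := by
    obtain ⟨T, hT, hT'⟩ := hτ 1
    exact lt_of_lt_of_le (card_pos.2 ⟨1, hT' 1 (one_mul 1)⟩) hT
  have hτ' : (0 : ℝ) < τ := by exact_mod_cast hτ0
  have hN : (0 : ℝ) < A.card := by exact_mod_cast hne.card_pos
  have h2 : ∀ v : Fin n → ZMod 2, v + v = 0 := fun v => by
    funext i; exact CharTwo.add_self_eq_zero _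
  set p : (Fin n → ZMod 2) × (Fin n → ZMod 2) → ℝ :=
    fun P => if P ∈ A then 1 / (A.card : ℝ) else 0 with hp
  have hpA : ∀ P, p P ≠ 0 → P ∈ A := by
    intro P hP
    by_contra h
    exact hP (by simp [hp, h])
  have hP : IsP p := by
    refine ⟨fun P => ?_, ?_⟩
    · simp only [hp]; split_ifs <;> positivity
    · simp only [hp]
      rw [sum_ite_mem, univ_inter, sum_const, nsmul_eq_mul]
      field_simp
  have hent : ent p id = log A.card := by
    unfold ent
    simp only [law_id, id]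
    have : ∀ P, p P * log (p P) = p P * (- log A.card) := by
      intro P
      by_cases h : P ∈ A
      · simp [hp, h]
      · simp [hp, h]
    simp_rw [this]
    rw [← sum_mul, hP.2]; ring
  set k := 2 * log (Fintype.card (Fin n → ZMod 2)) - log A.card with hk
  have ea := ent_label_le h2 τ hτ0 hτ a b c hP Prod.fst Prod.snd k
    (fun _ _ e1 e2 => Prod.ext e1 e2) (by rw [hent, hk]; linarith)
    (fun P h => ((hA P.1 P.2).1 (hpA P h)).1)
  have eb := ent_label_le (H := Hᵐᵒᵖ) h2 τ hτ0 (by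
      intro h
      obtain ⟨T, hT, hT'⟩ := hτ h.unop
      refine ⟨T.image MulOpposite.op, card_image_le.trans hT, fun g hg => ?_⟩
      exact mem_image.2 ⟨g.unop, hT' _ (by rw [← hg]; rfl), rfl⟩)
    (fun y => MulOpposite.op (b y)) (fun x => MulOpposite.op (a x))
    (fun s => MulOpposite.op (c s)) hP Prod.snd Prod.fst k
    (fun _ _ e1 e2 => Prod.ext e2 e1) (by rw [hent, hk]; linarith)
    (fun P h => by
      rw [← MulOpposite.op_mul, ((hA P.1 P.2).1 (hpA P h)).1, add_comm])
  have eab := subadd hP (P := fun P => a P.1) (Q := fun P => MulOpposite.op (b P.2))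
    (R := fun P => (a P.1, b P.2)) (by
      intro P Q _ _ e
      simp only [Prod.mk.injEq, MulOpposite.op_inj] at e ⊢
      exact e)
  obtain ⟨P0, hP0, hheavy⟩ := exists_heavy hP (fun P => (a P.1, b P.2))
  have hP0A := (hA P0.1 P0.2).1 (hpA P0 hP0)
  set F := A.filter fun P => (a P.1, b P.2) = (a P0.1, b P0.2) with hF
  have hlaw : law p (fun P => (a P.1, b P.2)) (a P0.1, b P0.2) = F.card / A.card := by
    unfold law
    have : ∀ P : (Fin n → ZMod 2) × (Fin n → ZMod 2),
        (if (a P.1, b P.2) = (a P0.1, b P0.2) then p P else 0) =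
        if P ∈ F then 1 / (A.card : ℝ) else 0 := by
      intro P
      simp only [hp, hF, mem_filter]
      by_cases h1 : (a P.1, b P.2) = (a P0.1, b P0.2) <;> by_cases h2 : P ∈ A <;>
        simp only [h1, h2, if_true, if_false, and_self, and_true, and_false]
    refine (sum_congr rfl fun P _ => ?_).trans
      (show ∑ P, (if P ∈ F then 1 / (A.card : ℝ) else 0) = _ from ?_)
    · rw [← this P]
      split_ifs <;> rfl
    · rw [sum_ite_mem, univ_inter, sum_const, nsmul_eq_mul]
      field_simp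
  have hcyl := cylinder n (fun x => a x = a P0.1) (fun y => b y = b P0.2)
    (fun s => c s = a P0.1 * b P0.2) F (by
      rintro ⟨x, y⟩
      simp only [hF, mem_filter, hA, Prod.mk.injEq]
      constructor
      · rintro ⟨⟨e1, -⟩, e2, e3⟩
        exact ⟨e2, e3, by rw [← e1, e2, e3]⟩
      · rintro ⟨e1, e2, e3⟩
        exact ⟨⟨by rw [e1, e2, e3], by rw [e1, e2]; exact hP0A.2⟩, e1, e2⟩)
    (fun x y z hz h => hcf x y z hz
      ⟨(mem_filter.1 h.1).1, (mem_filter.1 h.2.1).1, (mem_filter.1 h.2.2).1⟩)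
  rw [hlaw, le_div_iff₀ hN] at hheavy
  have hδ : (A.card : ℝ) / 4 ^ n = exp (- k) := by
    have : (Fintype.card (Fin n → ZMod 2) : ℝ) = 2 ^ n := by simp
    rw [hk, this, neg_sub, exp_sub, exp_log hN, two_mul, exp_add, exp_log (by positivity),
      ← mul_pow]
    norm_num
  have hAe : (A.card : ℝ) = exp (- k) * 4 ^ n := by rw [← hδ]; field_simp
  have h5 : exp (- (80 * k + 2 * log τ)) ≤ exp (- ent p fun P => (a P.1, b P.2)) :=
    exp_le_exp.2 (by linarith)
  have h6 : exp (- (80 * k + 2 * log τ)) * A.card ≤ 3 * 4 ^ n * exp (- ((n : ℝ) / 25)) :=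
    ((mul_le_mul_of_nonneg_right h5 hN.le).trans hheavy).trans hcyl
  have h7 : exp (- (80 * k + 2 * log τ)) * A.card = exp (- k) ^ 81 / τ ^ 2 * 4 ^ n := by
    rw [hAe, ← exp_nat_mul, neg_add, exp_add, two_mul (log _), neg_add, exp_add, exp_neg (log _),
      exp_log hτ']
    have : exp ((81 : ℕ) * (- k)) = exp (- (80 * k)) * exp (- k) := by
      rw [← exp_add]; congr 1; push_cast; ring
    rw [this]; field_simp
  rw [h7] at h6
  rw [hδ]
  have h8 : exp (- k) ^ 81 / τ ^ 2 ≤ 3 * exp (- ((n : ℝ) / 25)) := by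
    have : (0 : ℝ) < 4 ^ n := by positivity
    nlinarith
  rw [div_le_iff₀ (by positivity)] at h8
  linarith

end Pool.Agent.P.MP_db4732_co
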