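import Mathlib

/-! Degree filtration of functions on a cube and the rank of low degree kernels. -/

namespace Pool.Agent.P.MP_db4732_co.Deg

open Finset Module

variable {K X ι : Type*} [Field K] [DecidableEq ι]

/-- monomial in the coordinate functions -/
def mono (χ : ι → X → K) (S : Finset ι) : X → K := fun x => ∏ i ∈ S, χ i x

/-- functions of degree at most `d` -/
def Dg (χ : ι → X → K) (d : ℕ) : Submodule K (X → K) :=
  Submodule.span K {f | ∃ S : Finset ι, S.card ≤ d ∧ f = mono χ S}

variable {χ : ι → X → K}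

omit [DecidableEq ι] in
lemma mono_mem {S : Finset ι} {d : ℕ} (h : S.card ≤ d) : mono χ S ∈ Dg χ d :=
  Submodule.subset_span ⟨S, h, rfl⟩

omit [DecidableEq ι] in
lemma Dg_mono {a b : ℕ} (h : a ≤ b) : Dg χ a ≤ Dg χ b :=
  Submodule.span_mono fun _ ⟨S, hS, e⟩ => ⟨S, hS.trans h, e⟩

lemma mono_mul (hχ : ∀ i x, χ i x * χ i x = χ i x) (S T : Finset ι) :
    mono χ S * mono χ T = mono χ (S ∪ T) := by
  funext x
  simp only [mono, Pi.mul_apply]
  rw [← prod_union_inter]
  have : (∏ i ∈ S ∪ T, χ i x) = (∏ i ∈ (S ∪ T) \ (S ∩ T), χ i x) * ∏ i ∈ S ∩ T, χ i x :=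
    (prod_sdiff (inter_subset_union)).symm
  rw [this, mul_assoc, ← prod_mul_distrib]
  simp_rw [hχ]

lemma Dg_mul (hχ : ∀ i x, χ i x * χ i x = χ i x) {a b : ℕ} {f g : X → K} (hf : f ∈ Dg χ a)
    (hg : g ∈ Dg χ b) : f * g ∈ Dg χ (a + b) := by
  induction hf using Submodule.span_induction with
  | zero => simp
  | add x y _ _ hx hy => rw [add_mul]; exact add_mem hx hy
  | smul c x _ hx => rw [smul_mul_assoc]; exact Submodule.smul_mem _ _ hx
  | mem f hf =>
    obtain ⟨S, hS, rfl⟩ := hf
    induction hg using Submodule.span_induction with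
    | zero => simp
    | add x y _ _ hx hy => rw [mul_add]; exact add_mem hx hy
    | smul c x _ hx => rw [mul_smul_comm]; exact Submodule.smul_mem _ _ hx
    | mem g hg =>
      obtain ⟨T, hT, rfl⟩ := hg
      rw [mono_mul hχ]
      exact mono_mem ((card_union_le _ _).trans (add_le_add hS hT))

omit [DecidableEq ι] in
lemma one_mem (d : ℕ) : (1 : X → K) ∈ Dg χ d := by
  have : (1 : X → K) = mono χ ∅ := by funext x; simp [mono]
  rw [this]; exact mono_mem (by simp)

omit [DecidableEq ι] in
lemma const_mem (d : ℕ) (c : K) : (fun _ : X => c) ∈ Dg χ d := by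
  have : (fun _ : X => c) = c • (1 : X → K) := by funext x; simp
  rw [this]; exact Submodule.smul_mem _ _ (one_mem d)

omit [DecidableEq ι] in
lemma coord_mem (i : ι) : χ i ∈ Dg χ 1 := by
  have : χ i = mono χ {i} := by funext x; simp [mono]
  rw [this]; exact mono_mem (by simp)

lemma prod_mem (hχ : ∀ i x, χ i x * χ i x = χ i x) {κ : Type*} (S : Finset κ) (F : κ → X → K)
    (hF : ∀ j ∈ S, F j ∈ Dg χ 1) : (fun x => ∏ j ∈ S, F j x) ∈ Dg χ S.card := by
  classical
  induction S using Finset.induction_on with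
  | empty => simpa using const_mem 0 1
  | insert j S hj ih =>
    have : (fun x => ∏ k ∈ insert j S, F k x) = (fun x => ∏ k ∈ S, F k x) * F j := by
      funext x; simp [prod_insert hj, mul_comm]
    rw [this, card_insert_of_notMem hj]
    exact Dg_mul hχ (ih fun k hk => hF k (mem_insert_of_mem hk)) (hF j (mem_insert_self _ _))

lemma comp_mem (hχ : ∀ i x, χ i x * χ i x = χ i x) {Y κ : Type*} {ψ : κ → Y → K} (T : X → Y)
    (hT : ∀ j, (fun x => ψ j (T x)) ∈ Dg χ 1) {d : ℕ} {u : Y → K} (hu : u ∈ Dg ψ d) :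
    (fun x => u (T x)) ∈ Dg χ d := by
  induction hu using Submodule.span_induction with
  | zero => exact zero_mem _
  | add x y _ _ hx hy => exact add_mem hx hy
  | smul c x _ hx => exact Submodule.smul_mem _ c hx
  | mem f hf =>
    obtain ⟨S, hS, rfl⟩ := hf
    exact Dg_mono hS (prod_mem hχ S (fun j x => ψ j (T x)) fun j _ => hT j)

lemma exists_support [Fintype X] (Λ : Submodule K (X → K)) :
    ∃ l ∈ Λ, ∃ T : Finset X, (∀ x, l x = 0 → x ∈ T) ∧
      finrank K Λ + T.card ≤ Fintype.card X := by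
  classical
  have hex : ∃ l ∈ Λ, ∀ l' ∈ Λ, (univ.filter fun x => l' x ≠ 0).card ≤
      (univ.filter fun x => l x ≠ 0).card := by
    by_contra hn
    push Not at hn
    have : ∀ n : ℕ, ∃ l ∈ Λ, n ≤ (univ.filter fun x => l x ≠ 0).card := by
      intro n
      induction n with
      | zero => exact ⟨0, zero_mem _, Nat.zero_le _⟩
      | succ n ih =>
        obtain ⟨l, hl, h⟩ := ih
        obtain ⟨l', hl', h'⟩ := hn l hl
        exact ⟨l', hl', by omega⟩
    obtain ⟨l, -, h⟩ := this (Fintype.card X + 1)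
    have := card_le_univ (univ.filter fun x => l x ≠ 0)
    omega
  obtain ⟨l, hl, hmax⟩ := hex
  set U := univ.filter fun x => l x ≠ 0 with hU
  refine ⟨l, hl, Uᶜ, fun x hx => by simp [hU, hx], ?_⟩
  let r : Λ →ₗ[K] (U → K) := (LinearMap.funLeft K K Subtype.val).comp Λ.subtype
  have hr : Function.Injective r := by
    rw [← LinearMap.ker_eq_bot, LinearMap.ker_eq_bot']
    intro μ hμ
    by_contra hne
    have h0 : ∀ x ∈ U, μ.1 x = 0 := fun x hx => congrFun hμ ⟨x, hx⟩
    obtain ⟨x0, hx0⟩ : ∃ x, μ.1 x ≠ 0 := by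
      by_contra h
      push Not at h
      exact hne (Subtype.ext (funext h))
    have hx0U : x0 ∉ U := fun h => hx0 (h0 x0 h)
    have hss : U ⊂ univ.filter fun x => (l + μ.1) x ≠ 0 := by
      refine ⟨fun x hx => ?_, fun h => hx0U (h ?_)⟩
      · have := h0 x hx
        simp only [hU, mem_filter, mem_univ, true_and] at hx
        simp [this, hx]
      · have : l x0 = 0 := by simpa [hU] using hx0U
        simp [this, hx0]
    have := card_lt_card hss
    have := hmax _ (add_mem hl μ.2)
    omega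
  have := LinearMap.finrank_le_finrank_of_injective hr
  rw [finrank_fintype_fun_eq_card, Fintype.card_coe] at this
  have := card_add_card_compl U
  omega

lemma diag_le {I α : Type*} [Fintype I] (D : Finset α) (u v : I → α → K)
    (h0 : ∀ x ∈ D, ∀ y ∈ D, x ≠ y → ∑ i, u i x * v i y = 0)
    (h1 : ∀ x ∈ D, ∑ i, u i x * v i x ≠ 0) : D.card ≤ Fintype.card I := by
  classical
  let U : Matrix D I K := fun x i => u i x
  let V : Matrix I D K := fun i y => v i y
  have : U * V = Matrix.diagonal fun x : D => ∑ i, u i x * v i x := by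
    ext x y
    rw [Matrix.mul_apply, Matrix.diagonal_apply]
    split_ifs with h
    · subst h; rfl
    · exact h0 _ x.2 _ y.2 fun e => h (Subtype.ext e)
  have h2 := Matrix.rank_mul_le_left U V
  rw [this, Matrix.rank_diagonal] at h2
  have h3 := Matrix.rank_le_card_width U
  have h4 : Fintype.card {x : D // (∑ i, u i x * v i x) ≠ 0} = D.card := by
    rw [Fintype.card_subtype, filter_true_of_mem fun x _ => h1 _ x.2]
    simp
  omega

/-- a kernel of total degree at most `d` splits through monomials of degree at most `d / 2` -/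
lemma split {A B ι₁ ι₂ : Type*} [Fintype ι₁] [Fintype ι₂] [DecidableEq ι₁] [DecidableEq ι₂]
    (χ₁ : ι₁ → A → K) (χ₂ : ι₂ → B → K) (d : ℕ) {F : A × B → K}
    (hF : F ∈ Dg (Sum.elim (fun i (P : A × B) => χ₁ i P.1) (fun i P => χ₂ i P.2)) d) :
    ∃ (g : Finset ι₁ → B → K) (f : Finset ι₂ → A → K), ∀ x y, F (x, y) =
      ∑ S : {S : Finset ι₁ // S.card ≤ d / 2}, mono χ₁ S x * g S y +
      ∑ S : {S : Finset ι₂ // S.card ≤ d / 2}, f S x * mono χ₂ S y := by
  induction hF using Submodule.span_induction with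
  | zero => exact ⟨0, 0, by simp⟩
  | add F F' _ _ h h' =>
    obtain ⟨g, f, h⟩ := h
    obtain ⟨g', f', h'⟩ := h'
    refine ⟨g + g', f + f', fun x y => ?_⟩
    simp only [Pi.add_apply, h, h', mul_add, add_mul, sum_add_distrib]
    ring
  | smul c F _ h =>
    obtain ⟨g, f, h⟩ := h
    refine ⟨c • g, c • f, fun x y => ?_⟩
    simp only [Pi.smul_apply, h, smul_eq_mul, mul_add, mul_sum]
    congr 1 <;> refine sum_congr rfl fun _ _ => by ring
  | mem F hF =>
    obtain ⟨S, hS, rfl⟩ := hF
    have e : ∀ x y, mono (Sum.elim (fun i (P : A × B) => χ₁ i P.1) (fun i P => χ₂ i P.2)) S (x, y)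
        = mono χ₁ S.toLeft x * mono χ₂ S.toRight y := by
      intro x y
      simp [mono, prod_sum_eq_prod_toLeft_mul_prod_toRight]
    have hc := card_toLeft_add_card_toRight (u := S)
    by_cases h : S.toLeft.card ≤ d / 2
    · refine ⟨fun T y => if T = S.toLeft then mono χ₂ S.toRight y else 0, 0, fun x y => ?_⟩
      rw [e, sum_eq_single (⟨S.toLeft, h⟩ : {S : Finset ι₁ // S.card ≤ d / 2})]
      · simp
      · intro T _ hT
        have : T.1 ≠ S.toLeft := fun e => hT (Subtype.ext e)
        simp [this]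
      · simp
    · have h' : S.toRight.card ≤ d / 2 := by omega
      refine ⟨0, fun T x => if T = S.toRight then mono χ₁ S.toLeft x else 0, fun x y => ?_⟩
      rw [e, sum_eq_single (s := univ) (⟨S.toRight, h'⟩ : {S : Finset ι₂ // S.card ≤ d / 2})]
      · simp
      · intro T _ hT
        have : T.1 ≠ S.toRight := fun e => hT (Subtype.ext e)
        simp [this]
      · simp

section cube

variable [CharP K 2]

/-- the embedding of the prime field -/
def ph (K : Type*) [Field K] [CharP K 2] : ZMod 2 →+* K := ZMod.castHom (dvd_refl 2) K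

/-- coordinates of the cube -/
def co (K : Type*) [Field K] [CharP K 2] (ι : Type*) : ι → (ι → ZMod 2) → K :=
  fun i v => ph K (v i)

lemma ph_idem (z : ZMod 2) : ph K z * ph K z = ph K z := by
  rw [← map_mul]; congr 1; revert z; decide

variable [Fintype ι]

lemma Dg_top (f : (ι → ZMod 2) → K) : f ∈ Dg (co K ι) (Fintype.card ι) := by
  have e : f = ∑ w, f w • fun v => ∏ i, (ph K (v i) + ph K (w i + 1)) := by
    funext v
    simp only [Finset.sum_apply, Pi.smul_apply, smul_eq_mul]
    rw [sum_eq_single v]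
    · have : ∀ z : ZMod 2, z + (z + 1) = 1 := by decide
      simp [← map_add, this]
    · intro w _ hw
      obtain ⟨i, hi⟩ := Function.ne_iff.1 hw
      have : ∀ z y : ZMod 2, z ≠ y → y + (z + 1) = 0 := by decide
      rw [prod_eq_zero (mem_univ i), mul_zero]
      rw [← map_add, this _ _ hi, map_zero]
    · simp
  rw [e]
  refine Submodule.sum_mem _ fun w _ => Submodule.smul_mem _ _ ?_
  exact prod_mem (χ := co K ι) (fun i x => ph_idem _) univ
    (fun i (v : ι → ZMod 2) => ph K (v i) + ph K (w i + 1))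
    fun i _ => add_mem (coord_mem (χ := co K ι) i) (const_mem 1 _)

lemma finrank_quot_le (d : ℕ) : finrank K (((ι → ZMod 2) → K) ⧸ Dg (co K ι) d) ≤
    (univ.filter fun S : Finset ι => d < S.card).card := by
  classical
  set B := (univ.filter fun S : Finset ι => d < S.card).image (mono (co K ι)) with hB
  have htop : (⊤ : Submodule K ((ι → ZMod 2) → K)) = Dg (co K ι) d ⊔ Submodule.span K B := by
    refine le_antisymm (fun f _ => ?_) le_top
    have : Dg (co K ι) (Fintype.card ι) ≤ Dg (co K ι) d ⊔ Submodule.span K B := by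
      refine Submodule.span_le.2 ?_
      rintro _ ⟨S, -, rfl⟩
      by_cases h : S.card ≤ d
      · exact Submodule.mem_sup_left (mono_mem h)
      · refine Submodule.mem_sup_right (Submodule.subset_span ?_)
        simp only [hB, coe_image, coe_filter, mem_univ, true_and]
        exact ⟨S, not_le.1 h, rfl⟩
    exact this (Dg_top f)
  have h1 := Submodule.finrank_add_le_finrank_add_finrank (Dg (co K ι) d) (Submodule.span K B)
  rw [← htop, finrank_top] at h1
  have h2 : finrank K (Submodule.span K (B : Set ((ι → ZMod 2) → K))) ≤ B.card :=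
    finrank_span_finset_le_card B
  have h3 := Submodule.finrank_quotient_add_finrank (Dg (co K ι) d)
  have h4 : B.card ≤ _ := card_image_le
  omega

lemma exists_multiplier {J : Type*} [Fintype J] (h : J → (ι → ZMod 2) → K) (d : ℕ) :
    ∃ (l : (ι → ZMod 2) → K) (T : Finset (ι → ZMod 2)), (∀ v, l v = 0 → v ∈ T) ∧
      T.card ≤ Fintype.card J * (univ.filter fun S : Finset ι => d < S.card).card ∧
      ∀ j, l * h j ∈ Dg (co K ι) d := by
  classical
  let Φ : ((ι → ZMod 2) → K) →ₗ[K] (J → (((ι → ZMod 2) → K) ⧸ Dg (co K ι) d)) :=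
    LinearMap.pi fun j => (Dg (co K ι) d).mkQ.comp (LinearMap.mulRight K (h j))
  obtain ⟨l, hl, T, hT, hc⟩ := exists_support (LinearMap.ker Φ)
  refine ⟨l, T, hT, ?_, fun j => ?_⟩
  · have h1 := LinearMap.finrank_range_add_finrank_ker Φ
    have h2 := Submodule.finrank_le (LinearMap.range Φ)
    rw [Module.finrank_pi_fintype, sum_const, card_univ, smul_eq_mul] at h2
    rw [finrank_fintype_fun_eq_card] at h1
    have h3 := Nat.mul_le_mul_left (Fintype.card J) (finrank_quot_le (K := K) (ι := ι) d)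
    omega
  · have := congrFun (LinearMap.mem_ker.1 hl) j
    simpa [Φ] using this

lemma affine_mem (ℓ : ((ι → ZMod 2) × (ι → ZMod 2)) →ₗ[ZMod 2] ZMod 2) (c : ZMod 2) :
    (fun P => ph K (ℓ P + c)) ∈ Dg (Sum.elim
      (fun i (P : (ι → ZMod 2) × (ι → ZMod 2)) => co K ι i P.1) (fun i P => co K ι i P.2)) 1 := by
  set χ := (Sum.elim
      (fun i (P : (ι → ZMod 2) × (ι → ZMod 2)) => co K ι i P.1) (fun i P => co K ι i P.2)) with hχ
  have e : (fun P => ph K (ℓ P + c)) =
      ∑ i, ph K (ℓ (Pi.single i 1, 0)) • χ (Sum.inl i) +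
      ∑ i, ph K (ℓ (0, Pi.single i 1)) • χ (Sum.inr i) + fun _ => ph K c := by
    funext P
    have : P = ∑ i, P.1 i • ((Pi.single i 1, 0) : (ι → ZMod 2) × (ι → ZMod 2)) +
        ∑ i, P.2 i • ((0, Pi.single i 1) : (ι → ZMod 2) × (ι → ZMod 2)) := by
      refine Prod.ext ?_ ?_
      · funext j
        simp [Prod.fst_sum, Finset.sum_apply, Pi.single_apply]
      · funext j
        simp [Prod.snd_sum, Finset.sum_apply, Pi.single_apply]
    conv_lhs => rw [this]
    simp only [map_add, map_sum, map_smul, smul_eq_mul, map_mul, Pi.add_apply, Finset.sum_apply,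
      Pi.smul_apply, hχ, Sum.elim_inl, Sum.elim_inr, co]
    congr 2 <;> refine sum_congr rfl fun _ _ => by ring
  rw [e]
  refine add_mem (add_mem ?_ ?_) (const_mem 1 _)
  · exact Submodule.sum_mem _ fun i _ => Submodule.smul_mem _ _ (coord_mem _)
  · exact Submodule.sum_mem _ fun i _ => Submodule.smul_mem _ _ (coord_mem _)

end cube

end Pool.Agent.P.MP_db4732_co.Deg
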