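import Mathlib

/-! Shannon entropy of random variables on a finite weighted set. -/

namespace Pool.Agent.P.MP_db4732_co.Ent

open Finset Real

open Classical in
/-- probability that `X` takes the value `v` -/
noncomputable def law {Ω α : Type*} [Fintype Ω] (p : Ω → ℝ) (X : Ω → α) (v : α) : ℝ :=
  ∑ ω, if X ω = v then p ω else 0

/-- Shannon entropy -/
noncomputable def ent {Ω α : Type*} [Fintype Ω] (p : Ω → ℝ) (X : Ω → α) : ℝ :=
  - ∑ ω, p ω * log (law p X (X ω))

/-- probability vector -/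
def IsP {Ω : Type*} [Fintype Ω] (p : Ω → ℝ) : Prop := (∀ ω, 0 ≤ p ω) ∧ ∑ ω, p ω = 1

/-- `X` determines `Y` on the support -/
def Det {Ω α β : Type*} (p : Ω → ℝ) (X : Ω → α) (Y : Ω → β) : Prop :=
  ∀ ω ω', p ω ≠ 0 → p ω' ≠ 0 → X ω = X ω' → Y ω = Y ω'

variable {Ω α β γ δ : Type*} [Fintype Ω] {p : Ω → ℝ}

lemma law_nonneg (hp : IsP p) (X : Ω → α) (v : α) : 0 ≤ law p X v := by
  classical
  unfold law
  refine sum_nonneg fun ω _ => ?_
  split_ifs
  · exact hp.1 ω
  · exact le_rfl

lemma le_law (hp : IsP p) (X : Ω → α) (ω : Ω) : p ω ≤ law p X (X ω) := by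
  classical
  unfold law
  have := single_le_sum (f := fun ω' => if X ω' = X ω then p ω' else 0) (s := univ)
    (fun ω' _ => by split_ifs; exacts [hp.1 ω', le_rfl]) (mem_univ ω)
  simpa using this

lemma law_pos (hp : IsP p) (X : Ω → α) {ω : Ω} (h : p ω ≠ 0) : 0 < law p X (X ω) :=
  lt_of_lt_of_le (lt_of_le_of_ne (hp.1 ω) (Ne.symm h)) (le_law hp X ω)

lemma law_le_of_det (hp : IsP p) {X : Ω → α} {Y : Ω → β} (h : Det p X Y) {ω : Ω}
    (hω : p ω ≠ 0) : law p X (X ω) ≤ law p Y (Y ω) := by
  classical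
  unfold law
  refine sum_le_sum fun ω' _ => ?_
  by_cases h0 : p ω' = 0
  · simp [h0]
  by_cases h1 : X ω' = X ω
  · simp [h1, h ω' ω h0 hω h1]
  · simp only [h1, if_false]
    split_ifs
    exacts [hp.1 ω', le_rfl]

lemma ent_mono (hp : IsP p) {X : Ω → α} {Y : Ω → β} (h : Det p X Y) : ent p Y ≤ ent p X := by
  unfold ent
  refine neg_le_neg (sum_le_sum fun ω _ => ?_)
  by_cases h0 : p ω = 0
  · simp [h0]
  exact mul_le_mul_of_nonneg_left (log_le_log (law_pos hp X h0) (law_le_of_det hp h h0)) (hp.1 ω)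

lemma gibbs (hp : IsP p) (r : Ω → ℝ) (hr : ∀ ω, p ω ≠ 0 → 0 < r ω)
    (hs : ∑ ω, p ω * r ω ≤ 1) : ∑ ω, p ω * log (r ω) ≤ 0 := by
  have : ∑ ω, p ω * log (r ω) ≤ ∑ ω, (p ω * r ω - p ω) := by
    refine sum_le_sum fun ω _ => ?_
    by_cases h0 : p ω = 0
    · simp [h0]
    have := log_le_sub_one_of_pos (hr ω h0)
    nlinarith [hp.1 ω]
  rw [sum_sub_distrib, hp.2] at this
  linarith

open Classical in
/-- the normalised mass of a set of outcomes is at most the number of values taken on it -/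
lemma sum_div_law_le (hp : IsP p) (R : Ω → α) (S : Ω → Prop) (T : Finset α)
    (hT : ∀ ω, p ω ≠ 0 → S ω → R ω ∈ T) :
    ∑ ω, (if S ω then p ω / law p R (R ω) else 0) ≤ T.card := by
  have h1 : ∀ ω, (if S ω then p ω / law p R (R ω) else 0) ≤
      ∑ v ∈ T, if R ω = v then p ω / law p R v else 0 := by
    intro ω
    have hnn : ∀ v ∈ T, 0 ≤ if R ω = v then p ω / law p R v else 0 := by
      intro v _
      split_ifs
      · exact div_nonneg (hp.1 ω) (law_nonneg hp R v)
      · exact le_rfl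
    by_cases h0 : p ω = 0
    · simp [h0]
    by_cases hS : S ω
    · have := single_le_sum hnn (hT ω h0 hS)
      simpa [hS] using this
    · simpa [hS] using sum_nonneg hnn
  refine (sum_le_sum fun ω _ => h1 ω).trans ?_
  rw [sum_comm]
  have h2 : ∀ v ∈ T, ∑ ω, (if R ω = v then p ω / law p R v else 0) ≤ 1 := by
    intro v _
    have : ∑ ω, (if R ω = v then p ω / law p R v else 0) = law p R v / law p R v := by
      conv_rhs => rw [div_eq_mul_inv]; enter [1]; unfold law
      rw [sum_mul]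
      refine sum_congr rfl fun ω _ => ?_
      split_ifs <;> simp [div_eq_mul_inv]
    rw [this]
    exact div_self_le_one _
  simpa using sum_le_sum h2

lemma submod (hp : IsP p) {P : Ω → α} {Q : Ω → β} {Z : Ω → γ} {R : Ω → δ}
    (hPZ : Det p P Z) (hQZ : Det p Q Z) (hR : Det p (fun ω => (P ω, Q ω)) R) :
    ent p R + ent p Z ≤ ent p P + ent p Q := by
  classical
  have hRle := ent_mono hp hR
  suffices ent p (fun ω => (P ω, Q ω)) + ent p Z ≤ ent p P + ent p Q by linarith
  set PQ : Ω → α × β := fun ω => (P ω, Q ω) with hPQ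
  have hg := gibbs hp (fun ω => law p P (P ω) * law p Q (Q ω) / (law p PQ (PQ ω) * law p Z (Z ω)))
    (fun ω h => div_pos (mul_pos (law_pos hp P h) (law_pos hp Q h))
      (mul_pos (law_pos hp PQ h) (law_pos hp Z h))) ?_
  · have : ∑ ω, p ω * log (law p P (P ω) * law p Q (Q ω) / (law p PQ (PQ ω) * law p Z (Z ω))) =
        ∑ ω, (p ω * log (law p P (P ω)) + p ω * log (law p Q (Q ω)) -
          p ω * log (law p PQ (PQ ω)) - p ω * log (law p Z (Z ω))) := by
      refine sum_congr rfl fun ω _ => ?_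
      by_cases h0 : p ω = 0
      · simp [h0]
      have h1 := (law_pos hp P h0).ne'
      have h2 := (law_pos hp Q h0).ne'
      have h3 := (law_pos hp PQ h0).ne'
      have h4 := (law_pos hp Z h0).ne'
      rw [log_div (mul_ne_zero h1 h2) (mul_ne_zero h3 h4), log_mul h1 h2, log_mul h3 h4]
      ring
    rw [this, sum_sub_distrib, sum_sub_distrib, sum_add_distrib] at hg
    unfold ent
    linarith
  · have e1 : ∀ ω, p ω * (law p P (P ω) * law p Q (Q ω) / (law p PQ (PQ ω) * law p Z (Z ω))) =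
        ∑ ω1, ∑ ω2, p ω1 * p ω2 * (if P ω = P ω1 ∧ Q ω = Q ω2 then
          p ω / law p PQ (PQ ω) / law p Z (Z ω) else 0) := by
      intro ω
      have : law p P (P ω) * law p Q (Q ω) = ∑ ω1, ∑ ω2,
          (if P ω = P ω1 ∧ Q ω = Q ω2 then p ω1 * p ω2 else 0) := by
        unfold law
        rw [sum_mul_sum]
        refine sum_congr rfl fun ω1 _ => sum_congr rfl fun ω2 _ => ?_
        by_cases h1 : P ω = P ω1 <;> by_cases h2 : Q ω = Q ω2 <;>
          simp [h1, h2, eq_comm]
      rw [this, sum_div, mul_sum]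
      refine sum_congr rfl fun ω1 _ => ?_
      rw [sum_div, mul_sum]
      refine sum_congr rfl fun ω2 _ => ?_
      split_ifs
      · rw [div_div]; ring
      · simp
    simp_rw [e1]
    rw [sum_comm]
    have e2 : ∀ ω1, ∑ ω, ∑ ω2, p ω1 * p ω2 * (if P ω = P ω1 ∧ Q ω = Q ω2 then
          p ω / law p PQ (PQ ω) / law p Z (Z ω) else 0) ≤ p ω1 := by
      intro ω1
      by_cases h1 : p ω1 = 0
      · simp [h1]
      rw [sum_comm]
      have hz := law_pos hp Z h1
      have e3 : ∀ ω2, ∑ ω, p ω1 * p ω2 * (if P ω = P ω1 ∧ Q ω = Q ω2 then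
          p ω / law p PQ (PQ ω) / law p Z (Z ω) else 0) ≤
          p ω1 / law p Z (Z ω1) * (if Z ω2 = Z ω1 then p ω2 else 0) := by
        intro ω2
        by_cases h2 : p ω2 = 0
        · simp [h2]
        rw [← mul_sum]
        have e4 : ∑ ω, (if P ω = P ω1 ∧ Q ω = Q ω2 then
            p ω / law p PQ (PQ ω) / law p Z (Z ω) else 0) =
            (∑ ω, (if (P ω = P ω1 ∧ Q ω = Q ω2) ∧ p ω ≠ 0 then
            p ω / law p PQ (PQ ω) else 0)) / law p Z (Z ω1) := by
          rw [sum_div]
          refine sum_congr rfl fun ω _ => ?_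
          by_cases h0 : p ω = 0
          · simp [h0]
          by_cases hc : P ω = P ω1 ∧ Q ω = Q ω2
          · rw [if_pos hc, if_pos ⟨hc, h0⟩, hPZ ω ω1 h0 h1 hc.1]
          · rw [if_neg hc, if_neg (fun h => hc h.1), zero_div]
        rw [e4]
        by_cases hzz : Z ω2 = Z ω1
        · have e5 := sum_div_law_le hp PQ (fun ω => (P ω = P ω1 ∧ Q ω = Q ω2) ∧ p ω ≠ 0)
            {(P ω1, Q ω2)} (fun ω _ h => by simp [hPQ, h.1.1, h.1.2])
          rw [if_pos hzz]
          simp only [card_singleton, Nat.cast_one] at e5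
          have hpp : 0 ≤ p ω1 * p ω2 := mul_nonneg (hp.1 _) (hp.1 _)
          calc _ ≤ p ω1 * p ω2 * (1 / law p Z (Z ω1)) := by
                refine mul_le_mul_of_nonneg_left (div_le_div_of_nonneg_right ?_ hz.le) hpp
                refine le_trans (le_of_eq (sum_congr rfl fun ω _ => ?_)) e5
                split_ifs <;> rfl
            _ = _ := by ring
        · rw [if_neg hzz, mul_zero]
          have : ∑ ω, (if (P ω = P ω1 ∧ Q ω = Q ω2) ∧ p ω ≠ 0 then
              p ω / law p PQ (PQ ω) else 0) = 0 := by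
            refine sum_eq_zero fun ω _ => if_neg fun h => hzz ?_
            rw [← hQZ ω ω2 h.2 h2 h.1.2, hPZ ω ω1 h.2 h1 h.1.1]
          rw [this]; simp
      refine (sum_le_sum fun ω2 _ => e3 ω2).trans ?_
      rw [← mul_sum]
      have : ∑ ω2, (if Z ω2 = Z ω1 then p ω2 else 0) = law p Z (Z ω1) := by
        unfold law; congr
      rw [this, div_mul_cancel₀ _ hz.ne']
    exact (sum_le_sum fun ω1 _ => e2 ω1).trans hp.2.le

lemma ent_const (hp : IsP p) : ent p (fun _ => ()) = 0 := by
  unfold ent law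
  simp [hp.2]

lemma subadd (hp : IsP p) {P : Ω → α} {Q : Ω → β} {R : Ω → δ}
    (hR : Det p (fun ω => (P ω, Q ω)) R) : ent p R ≤ ent p P + ent p Q := by
  have := submod hp (P := P) (Q := Q) (Z := fun _ => ()) (fun _ _ _ _ _ => rfl)
    (fun _ _ _ _ _ => rfl) hR
  rwa [ent_const hp, add_zero] at this

/-- if `R` takes at most `τ` values on each fibre of `X` then `H(R) ≤ H(X) + log τ` -/
lemma ent_le_add_log (hp : IsP p) {X : Ω → α} {R : Ω → β} (τ : ℕ) (hτ : 0 < τ)
    (h : ∀ ω1, p ω1 ≠ 0 → ∃ T : Finset β, T.card ≤ τ ∧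
      ∀ ω, p ω ≠ 0 → X ω = X ω1 → R ω ∈ T) : ent p R ≤ ent p X + log τ := by
  classical
  have hτ' : (0 : ℝ) < τ := by exact_mod_cast hτ
  have hg := gibbs hp (fun ω => law p X (X ω) / (τ * law p R (R ω)))
    (fun ω h => div_pos (law_pos hp X h) (mul_pos hτ' (law_pos hp R h))) ?_
  · have : ∑ ω, p ω * log (law p X (X ω) / (τ * law p R (R ω))) =
        ∑ ω, (p ω * log (law p X (X ω)) - p ω * log τ - p ω * log (law p R (R ω))) := by
      refine sum_congr rfl fun ω _ => ?_
      by_cases h0 : p ω = 0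
      · simp [h0]
      have h1 := (law_pos hp X h0).ne'
      have h2 := (law_pos hp R h0).ne'
      rw [log_div h1 (mul_ne_zero hτ'.ne' h2), log_mul hτ'.ne' h2]
      ring
    rw [this, sum_sub_distrib, sum_sub_distrib, ← sum_mul, hp.2] at hg
    unfold ent
    linarith
  · have e1 : ∀ ω, p ω * (law p X (X ω) / (τ * law p R (R ω))) =
        ∑ ω1, p ω1 / τ * (if X ω = X ω1 then p ω / law p R (R ω) else 0) := by
      intro ω
      conv_lhs => enter [2, 1]; unfold law
      rw [sum_div, mul_sum]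
      refine sum_congr rfl fun ω1 _ => ?_
      by_cases hc : X ω = X ω1
      · rw [if_pos hc.symm, if_pos hc]; field_simp
      · rw [if_neg (fun h => hc h.symm), if_neg hc]; simp
    simp_rw [e1]
    rw [sum_comm, ← hp.2]
    refine sum_le_sum fun ω1 _ => ?_
    by_cases h1 : p ω1 = 0
    · simp [h1]
    obtain ⟨T, hT, hT'⟩ := h ω1 h1
    have e5 := sum_div_law_le hp R (fun ω => X ω = X ω1) T hT'
    rw [← mul_sum]
    have : (T.card : ℝ) ≤ τ := by exact_mod_cast hT
    calc _ ≤ p ω1 / τ * τ := by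
          refine mul_le_mul_of_nonneg_left ?_ (div_nonneg (hp.1 _) hτ'.le)
          refine le_trans ?_ this
          convert e5
      _ = p ω1 := by field_simp

lemma ent_le_log_card (hp : IsP p) {G : Type*} [Fintype G] {X : Ω → G} {R : Ω → β}
    (h : Det p X R) : ent p R ≤ log (Fintype.card G) := by
  have hne : Nonempty Ω := by
    by_contra hn
    rw [not_nonempty_iff] at hn
    have := hp.2
    simp at this
  obtain ⟨ω0⟩ := hne
  have : 0 < Fintype.card G := Fintype.card_pos_iff.2 ⟨X ω0⟩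
  have h1 := ent_le_add_log hp (X := fun _ => ()) (R := X) (Fintype.card G) this
    (fun _ _ => ⟨univ, by simp, fun _ _ _ => mem_univ _⟩)
  rw [ent_const hp, zero_add] at h1
  exact (ent_mono hp h).trans h1

lemma exists_heavy (hp : IsP p) (X : Ω → α) :
    ∃ ω, p ω ≠ 0 ∧ exp (- ent p X) ≤ law p X (X ω) := by
  by_contra hn
  push Not at hn
  have hne : ∃ ω, p ω ≠ 0 := by
    by_contra h
    push Not at h
    have := hp.2
    simp [h] at this
  obtain ⟨ω0, h0⟩ := hne
  have : ∑ ω, p ω * log (law p X (X ω)) < ∑ ω, p ω * (- ent p X) := by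
    refine sum_lt_sum (fun ω _ => ?_) ⟨ω0, mem_univ _, ?_⟩
    · by_cases h : p ω = 0
      · simp [h]
      exact mul_le_mul_of_nonneg_left
        ((log_le_iff_le_exp (law_pos hp X h)).2 (hn ω h).le) (hp.1 ω)
    · exact mul_lt_mul_of_pos_left ((log_lt_iff_lt_exp (law_pos hp X h0)).2 (hn ω0 h0))
        (lt_of_le_of_ne (hp.1 _) (Ne.symm h0))
  rw [← sum_mul, hp.2] at this
  unfold ent at this
  linarith

open Classical in
/-- two conditionally independent copies given `X` -/
noncomputable def glue (p : Ω → ℝ) (X : Ω → α) (w : Ω × Ω) : ℝ :=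
  if X w.1 = X w.2 then p w.1 * p w.2 / law p X (X w.1) else 0

lemma glue_ne {X : Ω → α} {w : Ω × Ω} (h : glue p X w ≠ 0) :
    X w.1 = X w.2 ∧ p w.1 ≠ 0 ∧ p w.2 ≠ 0 := by
  unfold glue at h
  by_cases hc : X w.1 = X w.2
  · rw [if_pos hc] at h
    refine ⟨hc, fun h1 => h (by simp [h1]), fun h1 => h (by simp [h1])⟩
  · exact absurd (if_neg hc) h

lemma glue_swap (X : Ω → α) (a b : Ω) : glue p X (a, b) = glue p X (b, a) := by
  unfold glue
  by_cases hc : X a = X b
  · simp [hc, mul_comm]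
  · simp [hc, Ne.symm hc]

lemma glue_row (hp : IsP p) (X : Ω → α) (a : Ω) : ∑ b, glue p X (a, b) = p a := by
  classical
  by_cases h0 : p a = 0
  · simp [glue, h0]
  have : ∑ b, glue p X (a, b) = p a / law p X (X a) * law p X (X a) := by
    conv_rhs => enter [2]; unfold law
    rw [mul_sum]
    refine sum_congr rfl fun b _ => ?_
    unfold glue
    by_cases hc : X a = X b
    · simp only [hc, if_true]; ring
    · simp [hc, Ne.symm hc]
  rw [this, div_mul_cancel₀ _ (law_pos hp X h0).ne']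

lemma glue_fst (hp : IsP p) (X : Ω → α) (g : Ω → ℝ) :
    ∑ w, glue p X w * g w.1 = ∑ a, p a * g a := by
  rw [Fintype.sum_prod_type]
  refine sum_congr rfl fun a _ => ?_
  simp only
  rw [← sum_mul, glue_row hp]

lemma glue_snd (hp : IsP p) (X : Ω → α) (g : Ω → ℝ) :
    ∑ w, glue p X w * g w.2 = ∑ a, p a * g a := by
  rw [Fintype.sum_prod_type_right]
  refine sum_congr rfl fun a _ => ?_
  simp only
  rw [← sum_mul]
  simp_rw [glue_swap X _ a]
  rw [glue_row hp]

lemma glue_isP (hp : IsP p) (X : Ω → α) : IsP (glue p X) := by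
  refine ⟨fun w => ?_, ?_⟩
  · unfold glue
    split_ifs
    · exact div_nonneg (mul_nonneg (hp.1 _) (hp.1 _)) (law_nonneg hp _ _)
    · exact le_rfl
  · have := glue_fst hp X (fun _ => 1)
    simpa [hp.2] using this

lemma law_glue_fst (hp : IsP p) (X : Ω → α) (F : Ω → β) (v : β) :
    law (glue p X) (fun w => F w.1) v = law p F v := by
  classical
  have := glue_fst hp X (fun a => if F a = v then 1 else 0)
  unfold law
  simpa using this

lemma law_glue_snd (hp : IsP p) (X : Ω → α) (F : Ω → β) (v : β) :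
    law (glue p X) (fun w => F w.2) v = law p F v := by
  classical
  have := glue_snd hp X (fun a => if F a = v then 1 else 0)
  unfold law
  simpa using this

lemma ent_glue_fst (hp : IsP p) (X : Ω → α) (F : Ω → β) :
    ent (glue p X) (fun w => F w.1) = ent p F := by
  unfold ent
  simp_rw [law_glue_fst hp]
  rw [glue_fst hp X (fun a => log (law p F (F a)))]

lemma ent_glue_snd (hp : IsP p) (X : Ω → α) (F : Ω → β) :
    ent (glue p X) (fun w => F w.2) = ent p F := by
  unfold ent
  simp_rw [law_glue_snd hp]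
  rw [glue_snd hp X (fun a => log (law p F (F a)))]

lemma law_id (p : Ω → ℝ) (ω : Ω) : law p id ω = p ω := by
  classical
  unfold law
  simp

lemma ent_glue_id (hp : IsP p) (X : Ω → α) :
    ent (glue p X) id = 2 * ent p id - ent p X := by
  unfold ent
  simp only [law_id, id]
  have : ∀ w, glue p X w * log (glue p X w) = glue p X w * log (p w.1) +
      glue p X w * log (p w.2) - glue p X w * log (law p X (X w.1)) := by
    intro w
    by_cases h : glue p X w = 0
    · simp [h]
    obtain ⟨h1, h2, h3⟩ := glue_ne h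
    have : log (glue p X w) = log (p w.1) + log (p w.2) - log (law p X (X w.1)) := by
      unfold glue
      rw [if_pos h1, log_div (mul_ne_zero h2 h3) (law_pos hp X h2).ne', log_mul h2 h3]
    rw [this]; ring
  simp_rw [this]
  rw [sum_sub_distrib, sum_add_distrib, glue_fst hp X (fun a => log (p a)),
    glue_snd hp X (fun a => log (p a)), glue_fst hp X (fun a => log (law p X (X a)))]
  ring

end Pool.Agent.P.MP_db4732_co.Ent
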