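import Mathlib

namespace Pool.Agent.P.MP_db4732_co

open Finset Real Filter Topology

theorem gauss_antitoneOn (t : ℝ) (ht : 0 < t) (R : ℕ) :
    AntitoneOn (fun x : ℝ => exp (-t * x ^ 2)) (Set.Icc (0 : ℝ) (0 + R)) := by
  intro x hx y _ hxy
  apply exp_le_exp.2
  have : x ^ 2 ≤ y ^ 2 := pow_le_pow_left₀ hx.1 hxy 2
  nlinarith

theorem gauss_upper (t : ℝ) (ht : 0 < t) (R : ℕ) :
    ∑ j ∈ range R, exp (-t * ((j : ℝ) + 1) ^ 2) ≤ √(π / t) / 2 := by
  have h := (gauss_antitoneOn t ht R).sum_le_integral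
  simp only [zero_add, Nat.cast_add, Nat.cast_one] at h
  refine h.trans ?_
  rw [← integral_gaussian_Ioi, intervalIntegral.integral_of_le (Nat.cast_nonneg R)]
  refine MeasureTheory.setIntegral_mono_set (integrable_exp_neg_mul_sq ht).integrableOn
    (Eventually.of_forall fun x => (exp_pos _).le) ?_
  exact Set.Ioc_subset_Ioi_self.eventuallyLE

theorem gauss_upper' (t : ℝ) (ht : 0 < t) (R : ℕ) :
    ∑ j ∈ range (R + 1), exp (-t * (j : ℝ) ^ 2) ≤ 1 + √(π / t) / 2 := by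
  rw [sum_range_succ']
  have := gauss_upper t ht R
  simp only [Nat.cast_add, Nat.cast_one, Nat.cast_zero] at this ⊢
  simp only [ne_eq, OfNat.ofNat_ne_zero, not_false_eq_true, zero_pow, mul_zero, exp_zero]
  linarith

theorem gauss_lower (t : ℝ) (ht : 0 < t) :
    ∀ᶠ R : ℕ in atTop, √(π / t) / 2 - 2 ≤ ∑ j ∈ range R, exp (-t * ((j : ℝ) + 1) ^ 2) := by
  have h := MeasureTheory.intervalIntegral_tendsto_integral_Ioi (μ := MeasureTheory.volume)
    (f := fun x : ℝ => exp (-t * x ^ 2)) (b := fun R : ℕ => (R : ℝ)) (l := atTop) 0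
    (integrable_exp_neg_mul_sq ht).integrableOn tendsto_natCast_atTop_atTop
  rw [integral_gaussian_Ioi] at h
  have h2 := h.eventually (lt_mem_nhds (show √(π / t) / 2 - 1 < √(π / t) / 2 by linarith))
  filter_upwards [h2] with R hR
  have h3 := (gauss_antitoneOn t ht R).integral_le_sum
  simp only [zero_add] at h3
  have h4 : ∑ j ∈ range (R + 1), exp (-t * (j : ℝ) ^ 2)
      = ∑ j ∈ range R, exp (-t * ((j : ℝ) + 1) ^ 2) + 1 := by
    rw [sum_range_succ']; simp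
  have h5 : ∑ j ∈ range R, exp (-t * (j : ℝ) ^ 2) ≤ ∑ j ∈ range (R + 1), exp (-t * (j : ℝ) ^ 2) := by
    rw [sum_range_succ]; linarith [exp_pos (-t * (R : ℝ) ^ 2)]
  linarith

theorem half_sum (l : ℝ) (hl : 0 < l) (m B : ℕ) (hm : 0 < m) (S : Finset ℤ)
    (h1 : ∀ x ∈ S, ∀ y ∈ S, x.natAbs / m = y.natAbs / m → x = y) (h2 : ∀ x ∈ S, x.natAbs ≤ B) :
    ∑ x ∈ S, exp (-l * (x : ℝ) ^ 2) ≤ 1 + √(π / (l * m ^ 2)) / 2 := by
  refine le_trans ?_ (gauss_upper' (l * m ^ 2) (by positivity) B)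
  calc ∑ x ∈ S, exp (-l * (x : ℝ) ^ 2)
      ≤ ∑ x ∈ S, exp (-(l * m ^ 2) * ((x.natAbs / m : ℕ) : ℝ) ^ 2) := by
        refine sum_le_sum fun x _ => exp_le_exp.2 ?_
        have e1 : m * (x.natAbs / m) ≤ x.natAbs := Nat.mul_div_le _ _
        have e2 : (m : ℝ) * ((x.natAbs / m : ℕ) : ℝ) ≤ (x.natAbs : ℝ) := by exact_mod_cast e1
        have e3 : ((x.natAbs : ℕ) : ℝ) ^ 2 = (x : ℝ) ^ 2 := by
          rw [Nat.cast_natAbs, Int.cast_abs, sq_abs]
        have e4 := pow_le_pow_left₀ (by positivity) e2 2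
        rw [e3] at e4
        nlinarith
    _ = ∑ j ∈ S.image (fun x => x.natAbs / m), exp (-(l * m ^ 2) * (j : ℝ) ^ 2) := by
        rw [sum_image h1]
    _ ≤ _ := by
        refine sum_le_sum_of_subset_of_nonneg ?_ fun _ _ _ => (exp_pos _).le
        intro j hj
        obtain ⟨x, hx, rfl⟩ := mem_image.1 hj
        have := h2 x hx
        have := Nat.div_le_self x.natAbs m
        rw [mem_range]; omega

theorem class_sum (l : ℝ) (hl : 0 < l) (m B : ℕ) (hm : 0 < m) (e : ZMod m) :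
    ∑ x ∈ (Icc (-(B : ℤ)) B).filter (fun x : ℤ => (x : ZMod m) = e), exp (-l * (x : ℝ) ^ 2)
      ≤ 2 + √(π / (l * m ^ 2)) := by
  set S := (Icc (-(B : ℤ)) B).filter (fun x : ℤ => (x : ZMod m) = e) with hS
  have key : ∀ x ∈ S, ∀ y ∈ S, (0 ≤ x ↔ 0 ≤ y) → x.natAbs / m = y.natAbs / m → x = y := by
    intro x hx y hy hs h
    have hd : (m : ℤ) ∣ y - x := by
      rw [← ZMod.intCast_eq_intCast_iff_dvd_sub, (mem_filter.1 hx).2, (mem_filter.1 hy).2]
    have a1 := Nat.div_add_mod x.natAbs m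
    have a2 := Nat.div_add_mod y.natAbs m
    have a3 := Nat.mod_lt x.natAbs hm
    have a4 := Nat.mod_lt y.natAbs hm
    rw [h] at a1
    have := Int.eq_zero_of_abs_lt_dvd hd (by rw [abs_lt]; constructor <;> omega)
    omega
  have hB : ∀ x ∈ S, x.natAbs ≤ B := by
    intro x hx
    have := mem_Icc.1 (mem_filter.1 hx).1
    omega
  rw [← sum_filter_add_sum_filter_not S (fun x => 0 ≤ x)]
  have b1 := half_sum l hl m B hm (S.filter (fun x => 0 ≤ x))
    (fun x hx y hy => key x (mem_filter.1 hx).1 y (mem_filter.1 hy).1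
      (iff_of_true (mem_filter.1 hx).2 (mem_filter.1 hy).2))
    (fun x hx => hB x (mem_filter.1 hx).1)
  have b2 := half_sum l hl m B hm (S.filter (fun x => ¬ 0 ≤ x))
    (fun x hx y hy => key x (mem_filter.1 hx).1 y (mem_filter.1 hy).1
      (iff_of_false (mem_filter.1 hx).2 (mem_filter.1 hy).2))
    (fun x hx => hB x (mem_filter.1 hx).1)
  linarith

/-- signed index -/
def sg {R : ℕ} (x : Bool × Fin R) : ℤ := if x.1 then (x.2 : ℕ) else -((x.2 : ℕ) + 1)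

theorem sg_inj {R : ℕ} {x y : Bool × Fin R} (h : sg x = sg y) : x = y := by
  obtain ⟨a, i⟩ := x
  obtain ⟨b, j⟩ := y
  cases a <;> cases b <;> simp [sg] at h ⊢ <;> omega

theorem sg_sq {R : ℕ} (x : Bool × Fin R) (e : Bool) :
    (2 * sg x + (if e then 1 else 0)) ^ 2 ≤ 4 * (((x.2 : ℕ) : ℤ) + 1) ^ 2 := by
  obtain ⟨a, i⟩ := x
  have : (0 : ℤ) ≤ (i : ℕ) := Int.natCast_nonneg _
  cases a <;> cases e <;> simp [sg] <;> nlinarith

/-- first coordinate -/
def al {R : ℕ} (x : Bool × (Bool × Fin R) × (Bool × Fin R)) : ℤ := sg x.2.1 - sg x.2.2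

/-- second coordinate -/
def be {R : ℕ} (x : Bool × (Bool × Fin R) × (Bool × Fin R)) : ℤ :=
  2 * sg x.2.2 + (if x.1 then 1 else 0)

theorem albe_inj {R : ℕ} (x y : Bool × (Bool × Fin R) × (Bool × Fin R)) (h1 : al x = al y)
    (h2 : be x = be y) : x = y := by
  obtain ⟨e, u, v⟩ := x
  obtain ⟨e', u', v'⟩ := y
  simp only [al, be] at h1 h2
  have : e = e' ∧ sg v = sg v' := by
    cases e <;> cases e' <;> simp at h2 ⊢ <;> omega
  have h3 : sg u = sg u' := by omega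
  rw [this.1, sg_inj this.2, sg_inj h3]

theorem albe_sq {R : ℕ} (x : Bool × (Bool × Fin R) × (Bool × Fin R)) :
    al x ^ 2 + be x ^ 2 + (al x + be x) ^ 2 ≤
      2 * (((x.2.1.2 : ℕ) : ℤ) + 1) ^ 2 + 6 * (((x.2.2.2 : ℕ) : ℤ) + 1) ^ 2 := by
  have a := sg_sq x.2.1 x.1
  have b := sg_sq x.2.2 x.1
  simp only [al, be]
  nlinarith

theorem albe_bound {R : ℕ} (x : Bool × (Bool × Fin R) × (Bool × Fin R)) :
    al x ^ 2 + be x ^ 2 + (al x + be x) ^ 2 ≤ ((8 * R ^ 2 : ℕ) : ℤ) := by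
  refine (albe_sq x).trans ?_
  have a : ((x.2.1.2 : ℕ) : ℤ) + 1 ≤ R := by have := x.2.1.2.2; omega
  have b : ((x.2.2.2 : ℕ) : ℤ) + 1 ≤ R := by have := x.2.2.2.2; omega
  have a2 := pow_le_pow_left₀ (by positivity) a 2
  have b2 := pow_le_pow_left₀ (by positivity) b 2
  push_cast
  linarith

theorem Y_lower (l : ℝ) (hl : 0 < l) (R : ℕ) :
    8 * ((∑ j ∈ range R, exp (-(4 * l / 3) * ((j : ℝ) + 1) ^ 2)) *
      ∑ j ∈ range R, exp (-(4 * l) * ((j : ℝ) + 1) ^ 2)) ≤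
    ∑ x : Bool × (Bool × Fin R) × (Bool × Fin R),
      exp (-(2 * l / 3) * ((al x : ℝ) ^ 2 + (be x : ℝ) ^ 2 + (al x + be x : ℝ) ^ 2)) := by
  calc _ = ∑ x : Bool × (Bool × Fin R) × (Bool × Fin R),
        exp (-(4 * l / 3) * (((x.2.1.2 : ℕ) : ℝ) + 1) ^ 2) *
          exp (-(4 * l) * (((x.2.2.2 : ℕ) : ℝ) + 1) ^ 2) := by
        rw [← Fin.sum_univ_eq_sum_range (fun j => exp (-(4 * l / 3) * ((j : ℝ) + 1) ^ 2)),
          ← Fin.sum_univ_eq_sum_range (fun j => exp (-(4 * l) * ((j : ℝ) + 1) ^ 2))]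
        simp only [Fintype.sum_prod_type, Fintype.sum_bool, ← mul_sum, ← sum_mul]
        ring
    _ ≤ _ := by
        refine sum_le_sum fun x _ => ?_
        rw [← exp_add]
        apply exp_le_exp.2
        have h : ((al x ^ 2 + be x ^ 2 + (al x + be x) ^ 2 : ℤ) : ℝ) ≤
          ((2 * (((x.2.1.2 : ℕ) : ℤ) + 1) ^ 2 + 6 * (((x.2.2.2 : ℕ) : ℤ) + 1) ^ 2 : ℤ) : ℝ) :=
          Int.cast_le.2 (albe_sq x)
        push_cast at h
        nlinarith

theorem exists_u (m : ℕ) (hm : 0 < m) (c : ℝ) (hc : c < √3 / 2 * m ^ 2) :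
    ∃ u : ℝ, 16 ≤ u ∧ c * (2 + u / m) ^ 2 < 8 * ((u * √3 / 4 - 2) * (u / 4 - 2)) := by
  have hm1 : (1 : ℝ) ≤ m := by exact_mod_cast hm
  have hm0 : (0 : ℝ) < m := by linarith
  set δ : ℝ := √3 / 2 - c / m ^ 2 with hδ
  have hδ0 : 0 < δ := by
    rw [hδ, sub_pos, div_lt_iff₀ (by positivity)]; exact hc
  have h3 : √3 < 2 := by
    rw [sqrt_lt' (by norm_num)]; norm_num
  have hca : 0 ≤ |c| := abs_nonneg c
  refine ⟨16 + (8 * |c| + 12) / δ, by have : 0 ≤ (8 * |c| + 12) / δ := by positivity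
                                      linarith, ?_⟩
  set u : ℝ := 16 + (8 * |c| + 12) / δ with hu
  have hu16 : 16 ≤ u := by
    have : 0 ≤ (8 * |c| + 12) / δ := by positivity
    linarith
  have hδu : 8 * |c| + 12 ≤ δ * u := by
    rw [hu, mul_add, mul_div_cancel₀ _ hδ0.ne']; linarith
  have e1 : c * (2 + u / m) ^ 2 = 4 * c + 4 * (c / m) * u + (c / m ^ 2) * u ^ 2 := by
    field_simp; ring
  have e2 : c / m ≤ |c| := by
    rw [div_le_iff₀ hm0]; nlinarith [le_abs_self c]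
  have e3 : c / m ^ 2 = √3 / 2 - δ := by rw [hδ]; ring
  rw [e1, e3]
  have e4 : (8 * |c| + 12) * u ≤ δ * u * u := mul_le_mul_of_nonneg_right hδu (by linarith)
  have e5 : 4 * (c / m) * u ≤ 4 * |c| * u := by gcongr
  have e6 : √3 * u ≤ 2 * u := by gcongr
  have e7 : |c| ≤ |c| * u := by nlinarith
  nlinarith [le_abs_self c]

theorem exists_params (m : ℕ) (hm : 0 < m) (c : ℝ) (hc : c < √3 / 2 * m ^ 2) :
    ∃ (l K : ℝ) (R : ℕ), 0 < l ∧ 1 ≤ K ∧
      (∀ (B : ℕ) (e : ZMod m), ∑ x ∈ (Icc (-(B : ℤ)) B).filter (fun x : ℤ => (x : ZMod m) = e),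
        exp (-l * (x : ℝ) ^ 2) ≤ K) ∧
      c < (∑ x : Bool × (Bool × Fin R) × (Bool × Fin R),
        exp (-(2 * l / 3) * ((al x : ℝ) ^ 2 + (be x : ℝ) ^ 2 + (al x + be x : ℝ) ^ 2))) / K ^ 2 := by
  obtain ⟨u, hu, hcu⟩ := exists_u m hm c hc
  have hu0 : 0 < u := by linarith
  have hm0 : (0 : ℝ) < m := by exact_mod_cast hm
  have hl : 0 < π / u ^ 2 := by positivity
  have s1 : √(π / (π / u ^ 2 * m ^ 2)) = u / m := by
    rw [sqrt_eq_iff_mul_self_eq (by positivity) (by positivity)]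
    field_simp
  have s2 : √(π / (4 * (π / u ^ 2))) = u / 2 := by
    rw [sqrt_eq_iff_mul_self_eq (by positivity) (by positivity)]
    field_simp; norm_num
  have s3 : √(π / (4 * (π / u ^ 2) / 3)) = u * √3 / 2 := by
    rw [sqrt_eq_iff_mul_self_eq (by positivity) (by positivity)]
    have : √3 * √3 = 3 := mul_self_sqrt (by norm_num)
    field_simp
    nlinarith
  obtain ⟨R, h1, h2⟩ := ((gauss_lower (4 * (π / u ^ 2) / 3) (by positivity)).and
    (gauss_lower (4 * (π / u ^ 2)) (by positivity))).exists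
  rw [s3] at h1
  rw [s2] at h2
  have hK : 1 ≤ 2 + u / m := by
    have : 0 ≤ u / m := by positivity
    linarith
  refine ⟨π / u ^ 2, 2 + u / m, R, hl, hK, fun B e => ?_, ?_⟩
  · rw [← s1]; exact class_sum _ hl m B hm e
  · rw [lt_div_iff₀ (by positivity)]
    refine hcu.trans_le (le_trans ?_ (Y_lower _ hl R))
    have h3 : 1 < √3 := by
      rw [lt_sqrt (by norm_num)]; norm_num
    have p1 : 0 ≤ u * √3 / 4 - 2 := by nlinarith
    have p2 : 0 ≤ u / 4 - 2 := by linarith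
    refine mul_le_mul_of_nonneg_left (mul_le_mul ?_ ?_ p2 ?_) (by norm_num)
    · linarith
    · linarith
    · linarith

end Pool.Agent.P.MP_db4732_co
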