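import Mathlib

namespace Pool.Agent.P.MP_db4732_co

open Finset

variable {ι : Type*} [Fintype ι] [DecidableEq ι]

/-- squared euclidean norm of an integer vector -/
def nsq (a : ι → ℤ) : ℤ := ∑ i, a i ^ 2

/-- reduction of an integer vector -/
def red (m : ℕ) (a : ι → ℤ) : ι → ZMod m := fun i => (a i : ZMod m)

/-- linear hash -/
def hsh {p : ℕ} (θ : ι → ZMod p) (a : ι → ℤ) : ZMod p := ∑ i, θ i * (a i : ZMod p)

/-- corner-freeness -/
def CF {G : Type*} [AddCommGroup G] (A : Finset (G × G)) : Prop :=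
  ∀ x y z : G, z ≠ 0 → ¬ ((x, y) ∈ A ∧ (x, y + z) ∈ A ∧ (x + z, y) ∈ A)

omit [Fintype ι] [DecidableEq ι] in
theorem red_add (m : ℕ) (a b : ι → ℤ) : red m (a + b) = red m a + red m b := by
  ext i; simp [red]

omit [Fintype ι] [DecidableEq ι] in
theorem red_neg (m : ℕ) (a : ι → ℤ) : red m (-a) = -red m a := by
  ext i; simp [red]

omit [DecidableEq ι] in
theorem hsh_add {p : ℕ} (θ : ι → ZMod p) (a b : ι → ℤ) : hsh θ (a + b) = hsh θ a + hsh θ b := by
  simp [hsh, mul_add, sum_add_distrib]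

omit [DecidableEq ι] in
theorem hsh_neg {p : ℕ} (θ : ι → ZMod p) (a : ι → ℤ) : hsh θ (-a) = -hsh θ a := by
  simp [hsh]

omit [DecidableEq ι] in
theorem nsq_neg (a : ι → ℤ) : nsq (-a) = nsq a := by
  simp [nsq]

omit [DecidableEq ι] in
theorem nsq_identity (a b z : ι → ℤ) :
    nsq (a + b + z) + nsq a + nsq b + nsq z = nsq (a + b) + nsq (a + z) + nsq (b + z) := by
  simp only [nsq, ← sum_add_distrib, Pi.add_apply]
  exact sum_congr rfl fun i _ => by ring

omit [DecidableEq ι] in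
theorem nsq_eq_zero {z : ι → ℤ} (h : nsq z = 0) : z = 0 := by
  ext i
  have := (sum_eq_zero_iff_of_nonneg (fun i _ => sq_nonneg (z i))).1 h i (mem_univ i)
  simpa using this

theorem card_zero_fiber {p : ℕ} [Fact p.Prime] (v : ι → ZMod p) (hv : v ≠ 0) :
    #{θ : ι → ZMod p | ∑ i, θ i * v i = 0} * p = p ^ Fintype.card ι := by
  obtain ⟨j, hj⟩ : ∃ j, v j ≠ 0 := by
    by_contra h
    push Not at h
    exact hv (funext h)
  let f : (ι → ZMod p) →+ ZMod p :=
    { toFun := fun θ => ∑ i, θ i * v i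
      map_zero' := by simp
      map_add' := by intro x y; simp [add_mul, sum_add_distrib] }
  have hsurj : ∀ y, y ∈ Set.range f := by
    intro y
    refine ⟨Pi.single j (y / v j), ?_⟩
    show ∑ i, (Pi.single j (y / v j) : ι → ZMod p) i * v i = y
    rw [sum_eq_single j]
    · simp [hj]
    · intro b _ hb; simp [hb]
    · simp
  have h1 : (univ : Finset (ι → ZMod p)).card = ∑ y : ZMod p, #{θ : ι → ZMod p | f θ = y} :=
    card_eq_sum_card_fiberwise (fun _ _ => mem_univ _)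
  have h2 : ∀ y : ZMod p, #{θ : ι → ZMod p | f θ = y} = #{θ : ι → ZMod p | f θ = 0} :=
    fun y => AddMonoidHom.card_fiber_eq_of_mem_range f (hsurj y) (hsurj 0)
  simp only [h2, sum_const, card_univ, ZMod.card, Fintype.card_fun, smul_eq_mul] at h1
  rw [h1, mul_comm]
  rfl

/-- `a` is isolated in its residue class among the points of `D` with the same hash -/
def Iso {p : ℕ} (m : ℕ) (D : Finset (ι → ℤ)) (θ : ι → ZMod p) (a : ι → ℤ) : Prop :=
  ∀ a' ∈ D, red m a' = red m a → hsh θ a' = hsh θ a → a' = a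

open Classical in
theorem card_not_iso {p : ℕ} [Fact p.Prime] (m N : ℕ) (D : Finset (ι → ℤ))
    (hN : ∀ a ∈ D, #{a' ∈ D | red m a' = red m a} ≤ N)
    (hp : ∀ a ∈ D, ∀ a' ∈ D, red p a = red p a' → a = a') (a : ι → ℤ) (ha : a ∈ D) :
    #{θ : ι → ZMod p | ¬ Iso m D θ a} * p ≤ N * p ^ Fintype.card ι := by
  have hsub : ({θ : ι → ZMod p | ¬ Iso m D θ a} : Finset _) ⊆
      (({a' ∈ D | red m a' = red m a} : Finset _).erase a).biUnion
        (fun a' => ({θ : ι → ZMod p | ∑ i, θ i * (red p a' - red p a) i = 0} : Finset _)) := by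
    intro θ hθ
    replace hθ := (mem_filter.1 hθ).2
    unfold Iso at hθ
    push Not at hθ
    obtain ⟨a', h1, h2, h3, h4⟩ := hθ
    simp only [mem_biUnion, mem_erase, mem_filter, mem_univ, true_and]
    refine ⟨a', ⟨h4, h1, h2⟩, ?_⟩
    simp only [Pi.sub_apply, red, mul_sub, sum_sub_distrib]
    exact sub_eq_zero.2 h3
  calc _ ≤ (∑ a' ∈ ({a' ∈ D | red m a' = red m a} : Finset _).erase a,
          #{θ : ι → ZMod p | ∑ i, θ i * (red p a' - red p a) i = 0}) * p :=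
        Nat.mul_le_mul_right _ ((card_le_card hsub).trans card_biUnion_le)
    _ = ∑ a' ∈ ({a' ∈ D | red m a' = red m a} : Finset _).erase a, p ^ Fintype.card ι := by
        rw [sum_mul]
        refine sum_congr rfl fun a' ha' => card_zero_fiber _ ?_
        simp only [mem_erase, mem_filter] at ha'
        exact fun h => ha'.1 (hp _ ha'.2.1 _ ha (sub_eq_zero.1 h))
    _ ≤ N * p ^ Fintype.card ι := by
        rw [sum_const, smul_eq_mul]
        exact Nat.mul_le_mul_right _ ((card_erase_le).trans (hN a ha))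

theorem exists_big_fiber {α β : Type*} [Fintype β] [Nonempty β] [DecidableEq β] (s : Finset α)
    (f : α → β) : ∃ b, #s ≤ Fintype.card β * #{x ∈ s | f x = b} := by
  obtain ⟨b, -, hb⟩ := exists_max_image univ (fun b => #{x ∈ s | f x = b}) univ_nonempty
  refine ⟨b, ?_⟩
  rw [card_eq_sum_card_fiberwise (f := f) (t := univ) (fun _ _ => mem_univ _)]
  calc _ ≤ ∑ _y : β, #{x ∈ s | f x = b} := sum_le_sum fun y _ => hb y (mem_univ y)
    _ = _ := by simp

open Classical in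
theorem hash_main {p : ℕ} [Fact p.Prime] (m N : ℕ) (ρ : ℤ) (D : Finset (ι → ℤ))
    (hN : ∀ a ∈ D, #{a' ∈ D | red m a' = red m a} ≤ N)
    (hp : ∀ a ∈ D, ∀ a' ∈ D, red p a = red p a' → a = a') (hρ : ∀ a ∈ D, nsq a = ρ)
    (hNp : 6 * N ≤ p) (T : Finset ((ι → ℤ) × (ι → ℤ)))
    (hT : ∀ t ∈ T, t.1 ∈ D ∧ t.2 ∈ D ∧ -(t.1 + t.2) ∈ D) :
    ∃ A : Finset ((ι → ZMod m) × (ι → ZMod m)), CF A ∧ #T ≤ 2 * p ^ 2 * #A := by
  have hp0 : 0 < p := (Fact.out : p.Prime).pos
  let good : (ι → ZMod p) → (ι → ℤ) × (ι → ℤ) → Prop := fun θ t =>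
    Iso m D θ t.1 ∧ Iso m D θ t.2 ∧ Iso m D θ (-(t.1 + t.2))
  have hbad : ∀ t ∈ T, 2 * #{θ : ι → ZMod p | ¬ good θ t} ≤ p ^ Fintype.card ι := by
    intro t ht
    obtain ⟨h1, h2, h3⟩ := hT t ht
    have e1 := card_not_iso m N D hN hp _ h1
    have e2 := card_not_iso m N D hN hp _ h2
    have e3 := card_not_iso m N D hN hp _ h3
    have hsub : ({θ : ι → ZMod p | ¬ good θ t} : Finset _) ⊆
        ({θ : ι → ZMod p | ¬ Iso m D θ t.1} : Finset _) ∪
        ({θ : ι → ZMod p | ¬ Iso m D θ t.2} : Finset _) ∪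
        ({θ : ι → ZMod p | ¬ Iso m D θ (-(t.1 + t.2))} : Finset _) := by
      intro θ hθ
      simp only [mem_filter, mem_univ, true_and, mem_union, good] at hθ ⊢
      tauto
    have hc := (card_le_card hsub).trans ((card_union_le _ _).trans
      (Nat.add_le_add_right (card_union_le _ _) _))
    refine Nat.le_of_mul_le_mul_right ?_ hp0
    calc 2 * #{θ : ι → ZMod p | ¬ good θ t} * p
        ≤ 2 * (N * p ^ Fintype.card ι + N * p ^ Fintype.card ι + N * p ^ Fintype.card ι) := by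
          rw [mul_assoc]
          refine Nat.mul_le_mul_left _ ((Nat.mul_le_mul_right p hc).trans ?_)
          rw [add_mul, add_mul]
          exact Nat.add_le_add (Nat.add_le_add e1 e2) e3
      _ = p ^ Fintype.card ι * (6 * N) := by ring
      _ ≤ p ^ Fintype.card ι * p := Nat.mul_le_mul_left _ hNp
  obtain ⟨θ, -, hθ⟩ : ∃ θ ∈ (univ : Finset (ι → ZMod p)), 2 * #{t ∈ T | ¬ good θ t} ≤ #T := by
    refine exists_le_of_sum_le univ_nonempty ?_
    have : ∑ θ : ι → ZMod p, #{t ∈ T | ¬ good θ t} = ∑ t ∈ T, #{θ : ι → ZMod p | ¬ good θ t} := by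
      simp only [card_filter]
      exact sum_comm
    rw [← mul_sum, this, mul_sum]
    calc _ ≤ ∑ _t ∈ T, p ^ Fintype.card ι := sum_le_sum hbad
      _ = _ := by simp [mul_comm]
  have hgood : #T ≤ 2 * #{t ∈ T | good θ t} := by
    have := card_filter_add_card_filter_not (s := T) (fun t => good θ t)
    omega
  obtain ⟨uv, huv⟩ := exists_big_fiber ({t ∈ T | good θ t} : Finset _)
    (fun t => (hsh θ t.1, hsh θ t.2))
  set T' : Finset ((ι → ℤ) × (ι → ℤ)) :=
    {x ∈ ({t ∈ T | good θ t} : Finset _) | (hsh θ x.1, hsh θ x.2) = uv} with hT'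
  have hmem : ∀ t ∈ T', t ∈ T ∧ good θ t ∧ hsh θ t.1 = uv.1 ∧ hsh θ t.2 = uv.2 := by
    intro t ht
    simp only [hT', mem_filter] at ht
    exact ⟨ht.1.1, ht.1.2, by rw [← ht.2], by rw [← ht.2]⟩
  have k1 : ∀ t ∈ T', ∀ s ∈ T', red m t.1 = red m s.1 → t.1 = s.1 := by
    intro t ht s hs h
    obtain ⟨a1, -, a3, -⟩ := hmem t ht
    obtain ⟨-, b2, b3, -⟩ := hmem s hs
    exact b2.1 _ (hT t a1).1 h (by rw [a3, b3])
  have k2 : ∀ t ∈ T', ∀ s ∈ T', red m t.2 = red m s.2 → t.2 = s.2 := by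
    intro t ht s hs h
    obtain ⟨a1, -, -, a4⟩ := hmem t ht
    obtain ⟨-, b2, -, b4⟩ := hmem s hs
    exact b2.2.1 _ (hT t a1).2.1 h (by rw [a4, b4])
  have k3 : ∀ t ∈ T', ∀ s ∈ T', red m t.1 + red m t.2 = red m s.1 + red m s.2 →
      t.1 + t.2 = s.1 + s.2 := by
    intro t ht s hs h
    obtain ⟨a1, -, a3, a4⟩ := hmem t ht
    obtain ⟨-, b2, b3, b4⟩ := hmem s hs
    have := b2.2.2 _ (hT t a1).2.2 (by rw [red_neg, red_neg, red_add, red_add, h])
      (by rw [hsh_neg, hsh_neg, hsh_add, hsh_add, a3, a4, b3, b4])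
    exact neg_injective this
  refine ⟨T'.image (fun t => (red m t.1, red m t.2)), ?_, ?_⟩
  · rintro x y z hz ⟨h1, h2, h3⟩
    obtain ⟨t1, ht1, e1⟩ := mem_image.1 h1
    obtain ⟨t3, ht3, e3⟩ := mem_image.1 h2
    obtain ⟨t2, ht2, e2⟩ := mem_image.1 h3
    simp only [Prod.mk.injEq] at e1 e2 e3
    have a13 : t3.1 = t1.1 := k1 _ ht3 _ ht1 (by rw [e1.1, e3.1])
    have b12 : t2.2 = t1.2 := k2 _ ht2 _ ht1 (by rw [e1.2, e2.2])
    have c23 : t2.1 + t2.2 = t3.1 + t3.2 :=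
      k3 _ ht2 _ ht3 (by rw [e2.1, e2.2, e3.1, e3.2]; abel)
    have n1 := hT t1 (hmem t1 ht1).1
    have n2 := hT t2 (hmem t2 ht2).1
    have n3 := hT t3 (hmem t3 ht3).1
    set ζ := t2.1 - t1.1 with hζ
    have q1 : t2.1 = t1.1 + ζ := by rw [hζ]; abel
    have q2 : t3.2 = t1.2 + ζ := by
      rw [hζ, ← b12, ← a13]; linear_combination -c23
    have q3 : t2.1 + t2.2 = t1.1 + t1.2 + ζ := by rw [q1, b12]; abel
    have id := nsq_identity t1.1 t1.2 ζ
    rw [← q3, ← q1, ← q2, ← nsq_neg (t2.1 + t2.2), ← nsq_neg (t1.1 + t1.2), hρ _ n1.1, hρ _ n1.2.1,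
      hρ _ n1.2.2, hρ _ n2.1, hρ _ n2.2.2, hρ _ n3.2.1] at id
    have hζ0 : ζ = 0 := nsq_eq_zero (by linarith)
    rw [hζ0, add_zero] at q1
    apply hz
    have : x + z = x := by rw [← e2.1, q1, e1.1]
    simpa using this
  · rw [card_image_of_injOn]
    · calc #T ≤ 2 * #{t ∈ T | good θ t} := hgood
        _ ≤ 2 * (Fintype.card (ZMod p × ZMod p) * #T') := Nat.mul_le_mul_left _ huv
        _ = _ := by simp [ZMod.card]; ring
    · intro t ht s hs h
      simp only [Prod.mk.injEq] at h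
      exact Prod.ext (k1 _ ht _ hs h.1) (k2 _ ht _ hs h.2)

end Pool.Agent.P.MP_db4732_co
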