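import Pool.Agent.P.MP_db4732_co.Ent

/-! A homotopy on a dense set from an elementary abelian 2-group into a group with few square roots
has labels of small entropy. -/

namespace Pool.Agent.P.MP_db4732_co.Ent

open Finset Real

variable {G H Ω : Type*} [Fintype G] [AddCommGroup G] [Group H] [Fintype Ω] {q : Ω → ℝ}

omit [AddCommGroup G] in
lemma ent_pair_le (hq : IsP q) (A B : Ω → G) :
    ent q (fun ω => (A ω, B ω)) ≤ 2 * log (Fintype.card G) := by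
  have h1 := subadd hq (P := A) (Q := B) (R := fun ω => (A ω, B ω)) (fun _ _ _ _ h => h)
  have h2 := ent_le_log_card hq (X := A) (R := A) (fun _ _ _ _ h => h)
  have h3 := ent_le_log_card hq (X := B) (R := B) (fun _ _ _ _ h => h)
  linarith

omit [AddCommGroup G] in
lemma ent_triple_ge (hq : IsP q) (A B C D E F : Ω → G)
    (h : Det q (fun ω => ((A ω, B ω, C ω), (D ω, E ω, F ω))) id) :
    ent q id - 3 * log (Fintype.card G) ≤ ent q (fun ω => (A ω, B ω, C ω)) := by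
  have h1 := subadd hq (P := fun ω => (A ω, B ω, C ω)) (Q := fun ω => (D ω, E ω, F ω)) h
  have h2 := subadd hq (P := D) (Q := fun ω => (E ω, F ω)) (R := fun ω => (D ω, E ω, F ω))
    (fun _ _ _ _ h => h)
  have h3 := ent_le_log_card hq (X := D) (R := D) (fun _ _ _ _ h => h)
  have h4 := ent_pair_le hq E F
  linarith

omit [Group H] in
lemma ent_diff_le (h2 : ∀ g : G, g + g = 0) (hq : IsP q) (A B Y : Ω → G) (u : Ω → H)
    (φ ψ : G → G → H) (hφ : ∀ ω, q ω ≠ 0 → u ω = φ (A ω) (B ω))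
    (hψ : ∀ ω, q ω ≠ 0 → u ω = ψ (A ω + Y ω) (B ω + Y ω)) :
    ent q (fun ω => (A ω, B ω, Y ω)) + ent q (fun ω => (A ω + B ω, u ω)) ≤
      4 * log (Fintype.card G) := by
  have h := submod hq (P := fun ω => (A ω, B ω)) (Q := fun ω => (A ω + Y ω, B ω + Y ω))
    (Z := fun ω => (A ω + B ω, u ω)) (R := fun ω => (A ω, B ω, Y ω)) ?_ ?_ ?_
  · have := ent_pair_le hq A B
    have := ent_pair_le hq (fun ω => A ω + Y ω) (fun ω => B ω + Y ω)
    linarith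
  · intro ω ω' h h' e
    simp only [Prod.mk.injEq] at e ⊢
    rw [hφ ω h, hφ ω' h', e.1, e.2]
    exact ⟨rfl, rfl⟩
  · intro ω ω' h h' e
    simp only [Prod.mk.injEq] at e ⊢
    rw [hψ ω h, hψ ω' h', e.1, e.2]
    refine ⟨?_, rfl⟩
    have e1 : A ω + B ω = (A ω + Y ω) + (B ω + Y ω) := by
      rw [add_add_add_comm, h2, add_zero]
    have e2 : A ω' + B ω' = (A ω' + Y ω') + (B ω' + Y ω') := by
      rw [add_add_add_comm, h2, add_zero]
    rw [e1, e2, e.1, e.2]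
  · intro ω ω' _ _ e
    simp only [Prod.mk.injEq] at e ⊢
    obtain ⟨⟨e1, e2⟩, e3, -⟩ := e
    refine ⟨e1, e2, ?_⟩
    rw [e1] at e3
    exact add_left_cancel e3

lemma four_copies (h2 : ∀ g : G, g + g = 0) (τ : ℕ) (hτ0 : 0 < τ)
    (hτ : ∀ h : H, ∃ T : Finset H, T.card ≤ τ ∧ ∀ g, g * g = h → g ∈ T)
    (a b c : G → H) (hq : IsP q) (X0 X1 X2 X3 Y S : Ω → G) (k : ℝ)
    (hid : ∀ ω ω', q ω ≠ 0 → q ω' ≠ 0 → X0 ω = X0 ω' → X1 ω = X1 ω' → X2 ω = X2 ω' →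
      X3 ω = X3 ω' → Y ω = Y ω' → S ω = S ω' → ω = ω')
    (hk : 6 * log (Fintype.card G) - 8 * k ≤ ent q id)
    (r0 : ∀ ω, q ω ≠ 0 → a (X0 ω) * b (Y ω) = c (X0 ω + Y ω))
    (r1 : ∀ ω, q ω ≠ 0 → a (X1 ω) * b (Y ω) = c (X1 ω + Y ω))
    (s0 : ∀ ω, q ω ≠ 0 → a (X0 ω) * b (X0 ω + S ω) = c (S ω))
    (s1 : ∀ ω, q ω ≠ 0 → a (X1 ω) * b (X1 ω + S ω) = c (S ω))
    (s2 : ∀ ω, q ω ≠ 0 → a (X2 ω) * b (X2 ω + S ω) = c (S ω)) :
    ent q (fun ω => a (X1 ω)) ≤ 40 * k + log τ := by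
  classical
  set n0 := log (Fintype.card G) with hn0
  have t1 := ent_triple_ge hq X0 X1 X2 X3 Y S (fun ω ω' h h' e => by
    simp only [Prod.mk.injEq] at e
    exact hid ω ω' h h' e.1.1 e.1.2.1 e.1.2.2 e.2.1 e.2.2.1 e.2.2.2)
  have t2 := ent_triple_ge hq X0 X1 Y X2 X3 S (fun ω ω' h h' e => by
    simp only [Prod.mk.injEq] at e
    exact hid ω ω' h h' e.1.1 e.1.2.1 e.2.1 e.2.2.1 e.1.2.2 e.2.2.2)
  have t3 := ent_triple_ge hq X2 X0 S X1 X3 Y (fun ω ω' h h' e => by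
    simp only [Prod.mk.injEq] at e
    exact hid ω ω' h h' e.1.2.1 e.2.1 e.1.1 e.2.2.1 e.2.2.2 e.1.2.2)
  have t4 := ent_triple_ge hq X1 X2 S X0 X3 Y (fun ω ω' h h' e => by
    simp only [Prod.mk.injEq] at e
    exact hid ω ω' h h' e.2.1 e.1.1 e.1.2.1 e.2.2.1 e.2.2.2 e.1.2.2)
  have d01 := ent_diff_le h2 hq X0 X1 Y (fun ω => a (X0 ω) * (a (X1 ω))⁻¹)
    (fun u v => a u * (a v)⁻¹) (fun u v => c u * (c v)⁻¹) (fun _ _ => rfl)
    (fun ω h => by rw [← r0 ω h, ← r1 ω h]; group)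
  have key : ∀ u v s : G, a u * b (u + s) = c s → a v * b (v + s) = c s →
      (a u)⁻¹ * a v = b (u + s) * (b (v + s))⁻¹ := by
    intro u v s e1 e2
    have : a v = a u * b (u + s) * (b (v + s))⁻¹ := by rw [e1, ← e2]; group
    rw [this]; group
  have d20 := ent_diff_le h2 hq X2 X0 S (fun ω => (a (X2 ω))⁻¹ * a (X0 ω))
    (fun u v => (a u)⁻¹ * a v) (fun u v => b u * (b v)⁻¹) (fun _ _ => rfl)
    (fun ω h => key _ _ _ (s2 ω h) (s0 ω h))
  have d12 := ent_diff_le h2 hq X1 X2 S (fun ω => (a (X1 ω))⁻¹ * a (X2 ω))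
    (fun u v => (a u)⁻¹ * a v) (fun u v => b u * (b v)⁻¹) (fun _ _ => rfl)
    (fun ω h => key _ _ _ (s1 ω h) (s2 ω h))
  set D01 : Ω → G × H := fun ω => (X0 ω + X1 ω, a (X0 ω) * (a (X1 ω))⁻¹) with hD01
  set D20 : Ω → G × H := fun ω => (X2 ω + X0 ω, (a (X2 ω))⁻¹ * a (X0 ω)) with hD20
  set D12 : Ω → G × H := fun ω => (X1 ω + X2 ω, (a (X1 ω))⁻¹ * a (X2 ω)) with hD12
  set Z' : Ω → G × H := fun ω => (X2 ω + X0 ω + X1 ω, (a (X2 ω))⁻¹ * a (X0 ω) * (a (X1 ω))⁻¹)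
    with hZ'
  set Z : Ω → G × H := fun ω => (X0 ω, (a (X1 ω))⁻¹ * a (X0 ω) * (a (X1 ω))⁻¹) with hZ
  have hX1 := ent_le_log_card hq (X := X1) (R := X1) (fun _ _ _ _ h => h)
  have hX2 := ent_le_log_card hq (X := X2) (R := X2) (fun _ _ _ _ h => h)
  have s5 := submod hq (P := fun ω => (D20 ω, X1 ω)) (Q := fun ω => (X2 ω, D01 ω)) (Z := Z')
    (R := fun ω => (X0 ω, X1 ω, X2 ω)) (by
      intro ω ω' _ _ e
      simp only [hD20, hZ', Prod.mk.injEq] at e ⊢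
      rw [e.1.1, e.1.2, e.2]; exact ⟨rfl, rfl⟩) (by
      intro ω ω' _ _ e
      simp only [hD01, hZ', Prod.mk.injEq] at e ⊢
      rw [add_assoc, add_assoc, mul_assoc, mul_assoc, e.1, e.2.1, e.2.2]; exact ⟨rfl, rfl⟩) (by
      intro ω ω' _ _ e
      simp only [hD01, hD20, Prod.mk.injEq] at e ⊢
      obtain ⟨⟨⟨e1, -⟩, e2⟩, e3, -⟩ := e
      refine ⟨?_, e2, e3⟩
      rw [e3] at e1
      exact add_left_cancel e1)
  have s5a := subadd hq (P := D20) (Q := X1) (R := fun ω => (D20 ω, X1 ω)) (fun _ _ _ _ h => h)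
  have s5b := subadd hq (P := X2) (Q := D01) (R := fun ω => (X2 ω, D01 ω)) (fun _ _ _ _ h => h)
  have s6 := submod hq (P := fun ω => (X0 ω, X1 ω)) (Q := fun ω => (D12 ω, Z' ω)) (Z := Z)
    (R := fun ω => (X0 ω, X1 ω, X2 ω)) (by
      intro ω ω' _ _ e
      simp only [hZ, Prod.mk.injEq] at e ⊢
      rw [e.1, e.2]; exact ⟨rfl, rfl⟩) (by
      intro ω ω' _ _ e
      simp only [hD12, hZ', hZ, Prod.mk.injEq] at e ⊢
      obtain ⟨⟨e1, e2⟩, e3, e4⟩ := e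
      have f1 : ∀ u v w : G, u = (v + w) + (w + u + v) := by
        intro u v w
        have : (v + w) + (w + u + v) = u + (v + v) + (w + w) := by abel
        rw [this, h2, h2]; simp
      have f2 : ∀ u v w : H, v⁻¹ * u * v⁻¹ = (v⁻¹ * w) * (w⁻¹ * u * v⁻¹) := by
        intro u v w; group
      constructor
      · rw [f1 (X0 ω) (X1 ω) (X2 ω), f1 (X0 ω') (X1 ω') (X2 ω'), e1, e3]
      · rw [f2 _ _ (a (X2 ω)), f2 _ _ (a (X2 ω')), e2, e4]) (by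
      intro ω ω' _ _ e
      simp only [hD12, Prod.mk.injEq] at e ⊢
      obtain ⟨⟨e1, e2⟩, ⟨e3, -⟩, -⟩ := e
      refine ⟨e1, e2, ?_⟩
      rw [e2] at e3
      exact add_left_cancel e3)
  have s6a := subadd hq (P := D12) (Q := Z') (R := fun ω => (D12 ω, Z' ω)) (fun _ _ _ _ h => h)
  have s7 := ent_le_add_log hq (X := Z) (R := fun ω => (X0 ω, a (X1 ω))) τ hτ0 (by
    intro ω1 _
    obtain ⟨T, hT, hT'⟩ := hτ ((Z ω1).2 * a (X0 ω1))
    refine ⟨T.image fun g => (X0 ω1, a (X0 ω1) * g⁻¹), card_image_le.trans hT, ?_⟩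
    intro ω _ e
    have e1 : X0 ω = X0 ω1 := congrArg Prod.fst e
    refine mem_image.2 ⟨(a (X1 ω))⁻¹ * a (X0 ω), hT' _ ?_, ?_⟩
    · rw [← e, ← e1]; simp only [hZ]; group
    · rw [← e1]; simp)
  have s8 := submod hq (P := fun ω => (X0 ω, a (X1 ω))) (Q := X1) (Z := fun ω => a (X1 ω))
    (R := fun ω => (X0 ω, X1 ω)) (fun _ _ _ _ e => congrArg Prod.snd e)
    (fun _ _ _ _ e => by simp only [e]) (by
      intro ω ω' _ _ e
      simp only [Prod.mk.injEq] at e ⊢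
      exact ⟨e.1.1, e.2⟩)
  linarith

lemma ent_label_le (h2 : ∀ g : G, g + g = 0) (τ : ℕ) (hτ0 : 0 < τ)
    (hτ : ∀ h : H, ∃ T : Finset H, T.card ≤ τ ∧ ∀ g, g * g = h → g ∈ T)
    (a b c : G → H) {p : Ω → ℝ} (hp : IsP p) (x y : Ω → G) (k : ℝ)
    (hid : ∀ ω ω', x ω = x ω' → y ω = y ω' → ω = ω')
    (hk : 2 * log (Fintype.card G) - k ≤ ent p id)
    (hr : ∀ ω, p ω ≠ 0 → a (x ω) * b (y ω) = c (x ω + y ω)) :
    ent p (fun ω => a (x ω)) ≤ 40 * k + log τ := by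
  set p1 := glue p x with hp1
  have i1 : IsP p1 := glue_isP hp x
  set κ : Ω × Ω → G × G := fun w => (y w.1, x w.2 + y w.2) with hκ
  set p2 := glue p1 κ with hp2
  have i2 : IsP p2 := glue_isP i1 κ
  set p3 := glue p2 (fun t => κ t.1) with hp3
  have i3 : IsP p3 := glue_isP i2 _
  have e1 := ent_glue_id hp x
  have e2 := ent_glue_id i1 κ
  have e3 := ent_glue_id i2 (fun t => κ t.1)
  have b1 := ent_le_log_card hp (X := x) (R := x) (fun _ _ _ _ h => h)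
  have b2 := ent_pair_le i1 (fun w => y w.1) (fun w => x w.2 + y w.2)
  have b3 := ent_pair_le i2 (fun t => y t.1.1) (fun t => x t.1.2 + y t.1.2)
  have hs : ∀ t : ((Ω × Ω) × (Ω × Ω)) × ((Ω × Ω) × (Ω × Ω)), p3 t ≠ 0 →
      ∀ w : Ω × Ω, (w = t.1.1 ∨ w = t.1.2 ∨ w = t.2.1 ∨ w = t.2.2) →
        κ w = κ t.1.1 ∧ x w.1 = x w.2 ∧ p w.1 ≠ 0 ∧ p w.2 ≠ 0 := by
    intro t ht w hw
    obtain ⟨k1, k2, k3⟩ := glue_ne ht
    obtain ⟨l1, l2, l3⟩ := glue_ne k2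
    obtain ⟨m1, m2, m3⟩ := glue_ne k3
    rcases hw with rfl | rfl | rfl | rfl
    · exact ⟨rfl, glue_ne l2⟩
    · exact ⟨l1.symm, glue_ne l3⟩
    · exact ⟨k1.symm, glue_ne m2⟩
    · exact ⟨m1.symm.trans k1.symm, glue_ne m3⟩
  have hrY : ∀ t, p3 t ≠ 0 → ∀ w : Ω × Ω, (w = t.1.1 ∨ w = t.1.2 ∨ w = t.2.1 ∨ w = t.2.2) →
      a (x w.1) * b (y t.1.1.1) = c (x w.1 + y t.1.1.1) := by
    intro t ht w hw
    obtain ⟨k1, -, k3, -⟩ := hs t ht w hw
    have : y w.1 = y t.1.1.1 := congrArg Prod.fst k1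
    rw [← this]; exact hr _ k3
  have hrS : ∀ t, p3 t ≠ 0 → ∀ w : Ω × Ω, (w = t.1.1 ∨ w = t.1.2 ∨ w = t.2.1 ∨ w = t.2.2) →
      a (x w.1) * b (x w.1 + (x t.1.1.2 + y t.1.1.2)) = c (x t.1.1.2 + y t.1.1.2) := by
    intro t ht w hw
    obtain ⟨k1, k2, -, k4⟩ := hs t ht w hw
    have : x w.2 + y w.2 = x t.1.1.2 + y t.1.1.2 := congrArg Prod.snd k1
    rw [← this, k2, ← add_assoc, h2, zero_add]; exact hr _ k4
  have hw : ∀ w w' : Ω × Ω, x w.1 = x w.2 → x w'.1 = x w'.2 → x w.1 = x w'.1 → κ w = κ w' →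
      w = w' := by
    intro w w' f1 f2 f3 f4
    have g1 : y w.1 = y w'.1 := congrArg Prod.fst f4
    have g2 : x w.2 + y w.2 = x w'.2 + y w'.2 := congrArg Prod.snd f4
    have g3 : x w.2 = x w'.2 := by rw [← f1, ← f2, f3]
    rw [g3] at g2
    exact Prod.ext (hid _ _ f3 g1) (hid _ _ g3 (add_left_cancel g2))
  have main := four_copies h2 τ hτ0 hτ a b c i3 (fun t => x t.1.1.1) (fun t => x t.1.2.1)
    (fun t => x t.2.1.1) (fun t => x t.2.2.1) (fun t => y t.1.1.1)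
    (fun t => x t.1.1.2 + y t.1.1.2) k (by
      intro t t' h h' f0 f1 f2 f3 f4 f5
      have fk : κ t.1.1 = κ t'.1.1 := Prod.ext f4 f5
      have g := hs t h
      have g' := hs t' h'
      refine Prod.ext (Prod.ext ?_ ?_) (Prod.ext ?_ ?_)
      · exact hw _ _ (g _ (by simp)).2.1 (g' _ (by simp)).2.1 f0 fk
      · exact hw _ _ (g _ (by simp)).2.1 (g' _ (by simp)).2.1 f1
          (by rw [(g _ (by simp)).1, (g' t'.1.2 (by simp)).1, fk])
      · exact hw _ _ (g _ (by simp)).2.1 (g' _ (by simp)).2.1 f2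
          (by rw [(g _ (by simp)).1, (g' t'.2.1 (by simp)).1, fk])
      · exact hw _ _ (g _ (by simp)).2.1 (g' _ (by simp)).2.1 f3
          (by rw [(g _ (by simp)).1, (g' t'.2.2 (by simp)).1, fk]))
    (by linarith) (fun t h => hrY t h _ (by simp)) (fun t h => hrY t h _ (by simp))
    (fun t h => hrS t h _ (by simp)) (fun t h => hrS t h _ (by simp))
    (fun t h => hrS t h _ (by simp))
  have m1 := ent_glue_fst i2 (fun t => κ t.1) (fun t => a (x t.2.1))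
  have m2 := ent_glue_snd i1 κ (fun w => a (x w.1))
  have m3 := ent_glue_fst hp x (fun ω => a (x ω))
  linarith

end Pool.Agent.P.MP_db4732_co.Ent
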