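import Pool.Agent.P.MP_db4732_co.Sym
import Pool.Agent.P.MP_db4732_co.Gauss

namespace Pool.Agent.P.MP_db4732_co

open Finset Real Filter Topology

theorem CF.map {G H : Type*} [AddCommGroup G] [AddCommGroup H] [DecidableEq H] (f : G →+ H)
    (hf : Function.Injective f) {A : Finset (G × G)} (hA : CF A) :
    ∃ A' : Finset (H × H), CF A' ∧ #A' = #A := by
  refine ⟨A.image (fun t => (f t.1, f t.2)), ?_, card_image_of_injective _ ?_⟩
  · rintro x y z hz ⟨h1, h2, h3⟩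
    obtain ⟨⟨a1, b1⟩, ht1, e1⟩ := mem_image.1 h1
    obtain ⟨⟨a2, b2⟩, ht2, e2⟩ := mem_image.1 h2
    obtain ⟨⟨a3, b3⟩, ht3, e3⟩ := mem_image.1 h3
    simp only [Prod.mk.injEq] at e1 e2 e3
    have q1 : a2 = a1 := hf (by rw [e1.1, e2.1])
    have q2 : b3 = b1 := hf (by rw [e1.2, e3.2])
    have q3 : f (b2 - b1) = z := by rw [map_sub, e2.2, e1.2]; abel
    have q4 : a3 = a1 + (b2 - b1) := hf (by rw [map_add, q3, e3.1, e1.1])
    refine hA a1 b1 (b2 - b1) (fun h => hz (by rw [← q3, h, map_zero])) ⟨ht1, ?_, ?_⟩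
    · rw [add_sub_cancel, ← q1]; exact ht2
    · rw [← q4, ← q2]; exact ht3
  · intro s t h
    simp only [Prod.mk.injEq] at h
    exact Prod.ext (hf h.1) (hf h.2)

theorem CF.pad {m : ℕ} {ι : Type*} [Fintype ι] {n : ℕ} (h : Fintype.card ι ≤ n)
    {A : Finset ((ι → ZMod m) × (ι → ZMod m))} (hA : CF A) :
    ∃ A' : Finset ((Fin n → ZMod m) × (Fin n → ZMod m)), CF A' ∧ #A' = #A := by
  obtain ⟨e⟩ : Nonempty (ι ↪ Fin n) := Function.Embedding.nonempty_of_card_le (by simpa using h)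
  refine CF.map (Function.ExtendByZero.hom (ZMod m) e) ?_ hA
  intro x y hxy
  exact Function.extend_injective e.injective _ hxy

theorem main (m : ℕ) (hm : 0 < m) (c : ℝ) (hc0 : 0 ≤ c) (hc : c < √3 / 2 * m ^ 2) :
    ∃ n₀ : ℕ, ∀ n ≥ n₀, ∃ A : Finset ((Fin n → ZMod m) × (Fin n → ZMod m)),
      (∀ x y z : Fin n → ZMod m, z ≠ 0 → ¬ ((x, y) ∈ A ∧ (x, y + z) ∈ A ∧ (x + z, y) ∈ A)) ∧
      c ^ n ≤ (A.card : ℝ) := by
  obtain ⟨l, K, R, hl, hK1, hK, hy⟩ := exists_params m hm c hc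
  set y := (∑ x : Bool × (Bool × Fin R) × (Bool × Fin R),
    exp (-(2 * l / 3) * ((al x : ℝ) ^ 2 + (be x : ℝ) ^ 2 + (al x + be x : ℝ) ^ 2))) / K ^ 2 with hyd
  set B : ℕ := 8 * R ^ 2 with hB
  have hy0 : 0 < y := hc0.trans_lt hy
  have key : ∀ k : ℕ, ∃ A : Finset ((Fin 3 × Fin k → ZMod m) × (Fin 3 × Fin k → ZMod m)), CF A ∧
      y ^ (3 * k) ≤ 8 * (2 * B + 7) ^ 2 * (k * B + 1) ^ 9 * #A := fun k =>
    sym_main al be albe_inj m B
      (fun x => by nlinarith [albe_bound x, sq_nonneg (be x), sq_nonneg (al x + be x)])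
      (fun x => by nlinarith [albe_bound x, sq_nonneg (al x), sq_nonneg (al x + be x)])
      (fun x => by nlinarith [albe_bound x, sq_nonneg (al x), sq_nonneg (be x)])
      l K hl.le hK1 (hK B) k
  have hr : |(c / y) ^ 3| < 1 := by
    rw [abs_of_nonneg (by positivity)]
    exact pow_lt_one₀ (by positivity) ((div_lt_one hy0).2 hy) (by norm_num)
  set M : ℝ := (1 + c) ^ 2 * (8 * (2 * B + 7) ^ 2 * (B + 1) ^ 9) with hM
  have hM0 : 0 < M := by positivity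
  have ht := (tendsto_pow_const_mul_const_pow_of_abs_lt_one 9 hr).eventually
    (gt_mem_nhds (show (0 : ℝ) < 1 / M by positivity))
  obtain ⟨k₀, hk₀⟩ := eventually_atTop.1 ht
  refine ⟨3 * (k₀ + 1), fun n hn => ?_⟩
  obtain ⟨A, hA, hA2⟩ := key (n / 3)
  obtain ⟨A', hA', hc'⟩ := CF.pad (n := n) (by simp; omega) hA
  refine ⟨A', hA', ?_⟩
  rw [hc']
  set k := n / 3 with hk
  have hk1 : (1 : ℝ) ≤ k := by exact_mod_cast (show 1 ≤ k by omega)
  have h1 := hk₀ k (by omega)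
  rw [lt_div_iff₀ hM0, ← pow_mul, div_pow] at h1
  have h2 : c ^ n ≤ c ^ (3 * k) * (1 + c) ^ 2 := by
    have : n = 3 * k + n % 3 := by omega
    rw [this, pow_add]
    refine mul_le_mul_of_nonneg_left ?_ (by positivity)
    calc c ^ (n % 3) ≤ (1 + c) ^ (n % 3) := pow_le_pow_left₀ hc0 (by linarith) _
      _ ≤ (1 + c) ^ 2 := pow_le_pow_right₀ (by linarith) (by omega)
  have h3 : ((k : ℝ) * B + 1) ^ 9 ≤ k ^ 9 * (B + 1) ^ 9 := by
    rw [← mul_pow]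
    refine pow_le_pow_left₀ (by positivity) ?_ 9
    nlinarith
  have hQ : (0 : ℝ) < 8 * (2 * B + 7) ^ 2 * (k * B + 1) ^ 9 := by positivity
  have hyk : 0 < y ^ (3 * k) := by positivity
  have h4 : (k : ℝ) ^ 9 * c ^ (3 * k) * M < y ^ (3 * k) := by
    have := mul_lt_mul_of_pos_right h1 hyk
    rw [one_mul] at this
    refine lt_of_eq_of_lt ?_ this
    field_simp
  refine le_of_mul_le_mul_left (le_trans ?_ hA2) hQ
  refine le_trans ?_ h4.le
  calc 8 * (2 * B + 7) ^ 2 * ((k : ℝ) * B + 1) ^ 9 * c ^ n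
      ≤ 8 * (2 * B + 7) ^ 2 * (k ^ 9 * (B + 1) ^ 9) * (c ^ (3 * k) * (1 + c) ^ 2) := by gcongr
    _ = _ := by rw [hM]; ring

end Pool.Agent.P.MP_db4732_co
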