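import Mathlib

namespace Pool.Agent.P.MP_db4732_co.Peel

open Finset Filter Topology

/-- corner-freeness -/
def CFree {G : Type*} [AddCommGroup G] (A : Finset (G × G)) : Prop :=
  ∀ x y z : G, z ≠ 0 → ¬ ((x, y) ∈ A ∧ (x, y + z) ∈ A ∧ (x + z, y) ∈ A)

section Hash

variable {G : Type} [AddCommGroup G] [Module (ZMod 2) G] [Fintype G] [DecidableEq G]

omit [DecidableEq G] in
open Classical in
theorem card_ker_fiber (m : ℕ) [Fintype (G →ₗ[ZMod 2] (Fin m → ZMod 2))] (v : G) (hv : v ≠ 0) :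
    #{h : G →ₗ[ZMod 2] (Fin m → ZMod 2) | h v = 0} * 2 ^ m
      = Fintype.card (G →ₗ[ZMod 2] (Fin m → ZMod 2)) := by
  let f : (G →ₗ[ZMod 2] (Fin m → ZMod 2)) →+ (Fin m → ZMod 2) :=
    { toFun := fun h => h v
      map_zero' := by simp
      map_add' := by intro x y; simp }
  have hsurj : ∀ y, y ∈ Set.range f := by
    intro y
    obtain ⟨φ, hφ⟩ := Module.Projective.exists_dual_eq_one (ZMod 2) hv
    refine ⟨φ.smulRight y, ?_⟩
    show (φ.smulRight y) v = y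
    simp [hφ]
  have h1 : (univ : Finset (G →ₗ[ZMod 2] (Fin m → ZMod 2))).card
      = ∑ y : Fin m → ZMod 2, #{θ : G →ₗ[ZMod 2] (Fin m → ZMod 2) | f θ = y} :=
    card_eq_sum_card_fiberwise (fun _ _ => mem_univ _)
  have h2 : ∀ y : Fin m → ZMod 2, #{θ : G →ₗ[ZMod 2] (Fin m → ZMod 2) | f θ = y}
      = #{θ : G →ₗ[ZMod 2] (Fin m → ZMod 2) | f θ = 0} :=
    fun y => AddMonoidHom.card_fiber_eq_of_mem_range f (hsurj y) (hsurj 0)
  simp only [h2, sum_const, card_univ, ZMod.card, Fintype.card_fun, Fintype.card_fin,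
    smul_eq_mul] at h1
  rw [h1, mul_comm]
  rfl

open Classical in
theorem card_not_iso (m : ℕ) [Fintype (G →ₗ[ZMod 2] (Fin m → ZMod 2))] (D : Finset G) (a : G) :
    #{h : G →ₗ[ZMod 2] (Fin m → ZMod 2) | ¬ ∀ a' ∈ D, h a' = h a → a' = a} * 2 ^ m
      ≤ #D * Fintype.card (G →ₗ[ZMod 2] (Fin m → ZMod 2)) := by
  have hsub : ({h : G →ₗ[ZMod 2] (Fin m → ZMod 2) | ¬ ∀ a' ∈ D, h a' = h a → a' = a} : Finset _) ⊆
      (D.erase a).biUnion
        (fun a' => ({h : G →ₗ[ZMod 2] (Fin m → ZMod 2) | h (a' - a) = 0} : Finset _)) := by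
    intro θ hθ
    replace hθ := (mem_filter.1 hθ).2
    push Not at hθ
    obtain ⟨a', h1, h2, h3⟩ := hθ
    simp only [mem_biUnion, mem_erase, mem_filter, mem_univ, true_and]
    exact ⟨a', ⟨h3, h1⟩, by rw [map_sub, h2, sub_self]⟩
  calc _ ≤ (∑ a' ∈ D.erase a, #{h : G →ₗ[ZMod 2] (Fin m → ZMod 2) | h (a' - a) = 0}) * 2 ^ m :=
        Nat.mul_le_mul_right _ ((card_le_card hsub).trans card_biUnion_le)
    _ = ∑ a' ∈ D.erase a, Fintype.card (G →ₗ[ZMod 2] (Fin m → ZMod 2)) := by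
        rw [sum_mul]
        refine sum_congr rfl fun a' ha' => card_ker_fiber m _ ?_
        exact sub_ne_zero.2 (mem_erase.1 ha').1
    _ ≤ _ := by
        rw [sum_const, smul_eq_mul]
        exact Nat.mul_le_mul_right _ card_erase_le

theorem hash (m : ℕ) (T : Finset (G × G)) (hT : CFree T) (D1 D2 D3 : Finset G)
    (hD : ∀ t ∈ T, t.1 ∈ D1 ∧ t.2 ∈ D2 ∧ t.1 + t.2 ∈ D3)
    (h1 : 6 * #D1 ≤ 2 ^ m) (h2 : 6 * #D2 ≤ 2 ^ m) (h3 : 6 * #D3 ≤ 2 ^ m) :
    ∃ A : Finset ((Fin m → ZMod 2) × (Fin m → ZMod 2)), CFree A ∧ #T ≤ 2 * #A := by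
  classical
  have : Finite (G →ₗ[ZMod 2] (Fin m → ZMod 2)) := DFunLike.finite _
  let _ : Fintype (G →ₗ[ZMod 2] (Fin m → ZMod 2)) := Fintype.ofFinite _
  set L := Fintype.card (G →ₗ[ZMod 2] (Fin m → ZMod 2)) with hL
  let good : (G →ₗ[ZMod 2] (Fin m → ZMod 2)) → G × G → Prop := fun h t =>
    (∀ a' ∈ D1, h a' = h t.1 → a' = t.1) ∧ (∀ a' ∈ D2, h a' = h t.2 → a' = t.2) ∧
      (∀ a' ∈ D3, h a' = h (t.1 + t.2) → a' = t.1 + t.2)
  have hbad : ∀ t ∈ T, 2 * #{θ | ¬ good θ t} ≤ L := by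
    intro t _
    have e1 := card_not_iso m D1 t.1
    have e2 := card_not_iso m D2 t.2
    have e3 := card_not_iso m D3 (t.1 + t.2)
    have hsub : ({θ | ¬ good θ t} : Finset _) ⊆
        ({h : G →ₗ[ZMod 2] (Fin m → ZMod 2) | ¬ ∀ a' ∈ D1, h a' = h t.1 → a' = t.1} : Finset _) ∪
        ({h : G →ₗ[ZMod 2] (Fin m → ZMod 2) | ¬ ∀ a' ∈ D2, h a' = h t.2 → a' = t.2} : Finset _) ∪
        ({h : G →ₗ[ZMod 2] (Fin m → ZMod 2) |
          ¬ ∀ a' ∈ D3, h a' = h (t.1 + t.2) → a' = t.1 + t.2} : Finset _) := by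
      intro θ hθ
      simp only [mem_filter, mem_univ, true_and, mem_union, good] at hθ ⊢
      tauto
    have hc := (card_le_card hsub).trans ((card_union_le _ _).trans
      (Nat.add_le_add_right (card_union_le _ _) _))
    refine Nat.le_of_mul_le_mul_right ?_ (Nat.two_pow_pos m)
    have hc' := Nat.mul_le_mul_right (2 ^ m) hc
    rw [add_mul, add_mul] at hc'
    have k1 := Nat.mul_le_mul_right L h1
    have k2 := Nat.mul_le_mul_right L h2
    have k3 := Nat.mul_le_mul_right L h3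
    rw [← hL] at e1 e2 e3
    nlinarith
  obtain ⟨θ, -, hθ⟩ : ∃ θ ∈ (univ : Finset (G →ₗ[ZMod 2] (Fin m → ZMod 2))),
      2 * #{t ∈ T | ¬ good θ t} ≤ #T := by
    refine exists_le_of_sum_le univ_nonempty ?_
    have : ∑ θ : G →ₗ[ZMod 2] (Fin m → ZMod 2), #{t ∈ T | ¬ good θ t}
        = ∑ t ∈ T, #{θ | ¬ good θ t} := by
      simp only [card_filter]
      exact sum_comm
    rw [← mul_sum, this, mul_sum]
    calc _ ≤ ∑ _t ∈ T, L := sum_le_sum hbad
      _ = _ := by simp [mul_comm, hL]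
  have hgood : #T ≤ 2 * #{t ∈ T | good θ t} := by
    have := card_filter_add_card_filter_not (s := T) (fun t => good θ t)
    omega
  refine ⟨({t ∈ T | good θ t} : Finset _).image (fun t => (θ t.1, θ t.2)), ?_, ?_⟩
  · rintro x y z hz ⟨g1, g2, g3⟩
    obtain ⟨⟨x1, y1⟩, ht1, e1⟩ := mem_image.1 g1
    obtain ⟨⟨x2, y2⟩, ht2, e2⟩ := mem_image.1 g2
    obtain ⟨⟨x3, y3⟩, ht3, e3⟩ := mem_image.1 g3
    simp only [Prod.mk.injEq] at e1 e2 e3
    rw [mem_filter] at ht1 ht2 ht3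
    have q1 : x2 = x1 := ht1.2.1 _ (hD _ ht2.1).1 (by rw [e1.1, e2.1])
    have q2 : y3 = y1 := ht1.2.2.1 _ (hD _ ht3.1).2.1 (by rw [e1.2, e3.2])
    have q3 : x3 + y3 = x2 + y2 := ht2.2.2.2 _ (hD _ ht3.1).2.2
      (by simp only [map_add]; rw [e2.1, e2.2, e3.1, e3.2]; abel)
    subst q1 q2
    refine hT x2 y3 (y2 - y3) (fun h => hz ?_) ⟨ht1.1, ?_, ?_⟩
    · have : y2 = y3 := sub_eq_zero.1 h
      have h' : y + z = y := by rw [← e2.2, this, e1.2]
      simpa using h'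
    · rw [add_sub_cancel]; exact ht2.1
    · have : x2 + (y2 - y3) = x3 := by rw [← add_sub_assoc, ← q3, add_sub_cancel_right]
      rw [this]; exact ht3.1
  · rw [card_image_of_injOn]
    · exact hgood
    · intro s hs t ht h
      simp only [coe_filter, Set.mem_ofPred_eq] at hs ht
      simp only [Prod.mk.injEq] at h
      exact Prod.ext (ht.2.1 _ (hD _ hs.1).1 h.1) (ht.2.2.1 _ (hD _ hs.1).2.1 h.2)

end Hash

theorem prod_eq_of_cnt {C M : Type*} [Fintype C] [DecidableEq C] [CommMonoid M] {N : ℕ}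
    (p p' : Fin N → C) (h : (fun s => #{i | p i = s}) = fun s => #{i | p' i = s}) (g : C → M) :
    ∏ i, g (p i) = ∏ i, g (p' i) := by
  have key : ∀ u : Fin N → C, ∏ i, g (u i) = ∏ s, g s ^ #{i | u i = s} := by
    intro u
    rw [← prod_fiberwise (s := univ) (g := u)]
    refine prod_congr rfl fun s _ => ?_
    rw [prod_congr rfl (g := fun _ => g s), prod_const]
    intro i hi
    rw [(mem_filter.1 hi).2]
  rw [key p, key p']
  exact prod_congr rfl fun s _ => by rw [congrFun h s]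

theorem sum_eq_of_cnt {C : Type*} [Fintype C] [DecidableEq C] {N : ℕ}
    (p p' : Fin N → C) (h : (fun s => #{i | p i = s}) = fun s => #{i | p' i = s}) (g : C → ℤ) :
    ∑ i, g (p i) = ∑ i, g (p' i) :=
  prod_eq_of_cnt (M := Multiplicative ℤ) p p' h (fun s => Multiplicative.ofAdd (g s))

theorem card_level {V : Type*} [Fintype V] [DecidableEq V] (α : V → ℝ) (h0 : ∀ x, 0 ≤ α x)
    (h1 : ∑ x, α x ≤ 1) (N : ℕ) (t : ℝ) :
    (#{x : Fin N → V | ∏ i, α (x i) = t} : ℝ) * t ≤ 1 := by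
  classical
  calc (#{x : Fin N → V | ∏ i, α (x i) = t} : ℝ) * t
      = ∑ x ∈ ({x : Fin N → V | ∏ i, α (x i) = t} : Finset _), ∏ i, α (x i) := by
        rw [sum_congr rfl (g := fun _ => t) (fun x hx => (mem_filter.1 hx).2), sum_const,
          nsmul_eq_mul]
    _ ≤ ∑ x : Fin N → V, ∏ i, α (x i) :=
        sum_le_sum_of_subset_of_nonneg (filter_subset _ _)
          (fun x _ _ => prod_nonneg fun i _ => h0 _)
    _ = (∑ x, α x) ^ N := by
        rw [← Fintype.piFinset_univ, ← prod_univ_sum (fun _ : Fin N => (univ : Finset V))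
          (fun _ x => α x)]
        simp
    _ ≤ 1 := pow_le_one₀ (sum_nonneg fun x _ => h0 x) h1

section Types

variable {V : Type} [AddCommGroup V] [Fintype V] [DecidableEq V]

/-- one type class of sequences of cells of `S` is corner-free and heavy -/
theorem type_class (S : Finset (V × V)) (f0 f1 f2 : V × V → ℤ)
    (hsum : ∀ p, f0 p + f1 p + f2 p = 0)
    (htri : ∀ x y z, z ≠ 0 → (x, y) ∈ S → (x, y + z) ∈ S → (x + z, y) ∈ S →
      0 < f0 (x, y) + f1 (x, y + z) + f2 (x + z, y))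
    (w : V × V → ℝ) (hw : 0 < ∑ p ∈ S, w p) (N : ℕ) :
    ∃ (T : Finset ((Fin N → V) × (Fin N → V))) (p0 : Fin N → V × V), CFree T ∧
      (∀ t ∈ T, ∀ g : V × V → ℝ, ∏ i, g (t.1 i, t.2 i) = ∏ i, g (p0 i)) ∧
      (∑ p ∈ S, w p) ^ N ≤ (N + 1) ^ Fintype.card (V × V) * (#T * ∏ i, w (p0 i)) := by
  classical
  set U : Finset (Fin N → V × V) := Fintype.piFinset (fun _ => S) with hU
  set K : Finset (V × V → ℕ) := Fintype.piFinset (fun _ => range (N + 1)) with hK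
  let key : (Fin N → V × V) → (V × V → ℕ) := fun p s => #{i | p i = s}
  have hmaps : ∀ p ∈ U, key p ∈ K := by
    intro p _
    rw [hK, Fintype.mem_piFinset]
    intro s
    rw [mem_range, Nat.lt_succ_iff]
    exact (card_filter_le _ _).trans (by simp)
  have hKc : (#K : ℝ) = (N + 1) ^ Fintype.card (V × V) := by
    rw [hK, Fintype.card_piFinset]
    simp
  have hKpos : (0 : ℝ) < #K := by rw [hKc]; positivity
  have hKne : K.Nonempty := card_pos.1 (by exact_mod_cast hKpos)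
  have htot : ∑ p ∈ U, ∏ i, w (p i) = (∑ p ∈ S, w p) ^ N := by
    rw [hU, ← prod_univ_sum (fun _ : Fin N => S) (fun _ x => w x)]
    simp
  obtain ⟨τ, -, hτ⟩ := exists_le_sum_fiber_of_maps_to_of_nsmul_le_sum (s := U) (t := K)
    (f := key) (w := fun p => ∏ i, w (p i)) (b := (∑ p ∈ S, w p) ^ N / #K) hmaps hKne
    (by rw [htot, nsmul_eq_mul, mul_div_cancel₀ _ hKpos.ne'])
  have hne : ({p ∈ U | key p = τ} : Finset _).Nonempty := by
    by_contra h
    rw [not_nonempty_iff_eq_empty] at h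
    rw [h, sum_empty] at hτ
    exact absurd hτ (not_le.2 (by positivity))
  obtain ⟨p0, hp0⟩ := hne
  have hsame : ∀ p ∈ ({p ∈ U | key p = τ} : Finset _), key p = key p0 := fun p hp => by
    rw [(mem_filter.1 hp).2, (mem_filter.1 hp0).2]
  let e : (Fin N → V × V) → (Fin N → V) × (Fin N → V) :=
    fun p => (fun i => (p i).1, fun i => (p i).2)
  have he : Function.Injective e := by
    intro p p' h
    simp only [e, Prod.mk.injEq] at h
    funext i
    exact Prod.ext (congrFun h.1 i) (congrFun h.2 i)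
  have hmem : ∀ x y : Fin N → V, (x, y) ∈ ({p ∈ U | key p = τ} : Finset _).image e →
      (fun i => (x i, y i)) ∈ ({p ∈ U | key p = τ} : Finset _) := by
    intro x y h
    obtain ⟨p, hp, hpe⟩ := mem_image.1 h
    simp only [e, Prod.mk.injEq] at hpe
    have : (fun i => (x i, y i)) = p := by
      funext i
      rw [← hpe.1, ← hpe.2]
    rw [this]; exact hp
  refine ⟨({p ∈ U | key p = τ} : Finset _).image e, p0, ?_, ?_, ?_⟩
  · rintro x y z hz ⟨h1, h2, h3⟩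
    have g1 := hmem _ _ h1
    have g2 := hmem _ _ h2
    have g3 := hmem _ _ h3
    have s0 := sum_eq_of_cnt _ _ (hsame _ g1) f0
    have s1 := sum_eq_of_cnt _ _ (hsame _ g2) f1
    have s2 := sum_eq_of_cnt _ _ (hsame _ g3) f2
    have m1 := Fintype.mem_piFinset.1 (mem_filter.1 g1).1
    have m2 := Fintype.mem_piFinset.1 (mem_filter.1 g2).1
    have m3 := Fintype.mem_piFinset.1 (mem_filter.1 g3).1
    obtain ⟨j, hj⟩ : ∃ j, z j ≠ 0 := by
      by_contra h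
      push Not at h
      exact hz (funext h)
    have hpos : 0 < ∑ i, (f0 (x i, y i) + f1 (x i, y i + z i) + f2 (x i + z i, y i)) := by
      refine sum_pos' (fun i _ => ?_) ⟨j, mem_univ j, htri _ _ _ hj (m1 j) (m2 j) (m3 j)⟩
      by_cases hi : z i = 0
      · simp only [hi, add_zero]
        exact (hsum _).ge
      · exact (htri _ _ _ hi (m1 i) (m2 i) (m3 i)).le
    rw [sum_add_distrib, sum_add_distrib] at hpos
    simp only [Pi.add_apply] at s0 s1 s2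
    rw [s0, s1, s2, ← sum_add_distrib, ← sum_add_distrib] at hpos
    simp [hsum] at hpos
  · rintro ⟨x, y⟩ ht g
    exact prod_eq_of_cnt _ _ (hsame _ (hmem _ _ ht)) g
  · rw [card_image_of_injective _ he, ← hKc]
    rw [div_le_iff₀ hKpos] at hτ
    rw [mul_comm]
    refine hτ.trans (le_of_eq ?_)
    congr 1
    rw [sum_congr rfl (g := fun _ => ∏ i, w (p0 i))
      (fun p hp => prod_eq_of_cnt _ _ (hsame p hp) w), sum_const, nsmul_eq_mul]

end Types

section Rot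

variable {G : Type} [AddCommGroup G] [Fintype G] [DecidableEq G]

/-- the product of the three cyclic rotations -/
theorem rotate (h2 : ∀ x : G, x + x = 0) (T : Finset (G × G)) (hT : CFree T) :
    ∃ T3 : Finset ((G × G × G) × (G × G × G)), CFree T3 ∧ #T ^ 3 ≤ #T3 ∧
      ∀ t ∈ T3, (t.1.1, t.2.1) ∈ T ∧ (t.1.2.1 + t.2.2.1, t.1.2.1) ∈ T ∧
        (t.2.2.2, t.1.2.2 + t.2.2.2) ∈ T := by
  classical
  have c1 : ∀ a b : G, a + b + a = b := fun a b => by
    rw [add_comm a b, add_assoc, h2, add_zero]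
  have c2 : ∀ a b : G, a + b + b = a := fun a b => by rw [add_assoc, h2, add_zero]
  refine ⟨univ.filter (fun t : (G × G × G) × (G × G × G) => (t.1.1, t.2.1) ∈ T ∧
        (t.1.2.1 + t.2.2.1, t.1.2.1) ∈ T ∧ (t.2.2.2, t.1.2.2 + t.2.2.2) ∈ T), ?_, ?_, fun t ht => (mem_filter.1 ht).2⟩
  · rintro ⟨x1, x2, x3⟩ ⟨y1, y2, y3⟩ ⟨z1, z2, z3⟩ hz ⟨g1, g2, g3⟩
    simp only [mem_filter, mem_univ, true_and, Prod.mk_add_mk] at g1 g2 g3
    have k1 : z1 = 0 := by
      by_contra h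
      exact hT x1 y1 z1 h ⟨g1.1, g2.1, g3.1⟩
    have k2 : z2 = 0 := by
      by_contra h
      refine hT (x2 + (y2 + z2)) x2 z2 h ⟨g2.2.1, ?_, ?_⟩
      · have : x2 + (y2 + z2) = x2 + z2 + y2 := by abel
        rw [this]; exact g3.2.1
      · rw [add_assoc, c2]; exact g1.2.1
    have k3 : z3 = 0 := by
      by_contra h
      refine hT y3 (x3 + z3 + y3) z3 h ⟨g3.2.2, ?_, ?_⟩
      · have : x3 + z3 + y3 + z3 = x3 + y3 := by
          rw [add_assoc x3 z3 y3, add_assoc, c1]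
        rw [this]; exact g1.2.2
      · have : x3 + z3 + y3 = x3 + (y3 + z3) := by abel
        rw [this]; exact g2.2.2
    exact hz (by rw [k1, k2, k3]; rfl)
  · have : #T ^ 3 = #(T ×ˢ T ×ˢ T) := by rw [card_product, card_product]; ring
    rw [this]
    refine card_le_card_of_injOn
      (fun u => ((u.1.1, u.2.1.2, u.2.2.1 + u.2.2.2), (u.1.2, u.2.1.1 + u.2.1.2, u.2.2.1))) ?_ ?_
    · rintro ⟨⟨a1, b1⟩, ⟨a2, b2⟩, ⟨a3, b3⟩⟩ hu
      simp only [coe_product, Set.mem_prod, mem_coe] at hu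
      simp only [coe_filter, mem_univ, true_and, Set.mem_ofPred_eq]
      refine ⟨hu.1, ?_, ?_⟩
      · rw [← add_assoc, add_comm b2 a2, c2]; exact hu.2.1
      · rw [c1]; exact hu.2.2
    · rintro ⟨⟨a1, b1⟩, ⟨a2, b2⟩, ⟨a3, b3⟩⟩ - ⟨⟨a4, b4⟩, ⟨a5, b5⟩, ⟨a6, b6⟩⟩ - h
      simp only [Prod.mk.injEq] at h ⊢
      obtain ⟨⟨e1, e2, e3⟩, e4, e5, e6⟩ := h
      subst e1 e2 e4 e6
      exact ⟨⟨rfl, rfl⟩, ⟨add_right_cancel e5, rfl⟩, rfl, add_left_cancel e3⟩

end Rot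

theorem pad {ι : Type*} [Fintype ι] {n : ℕ} (h : Fintype.card ι ≤ n)
    {A : Finset ((ι → ZMod 2) × (ι → ZMod 2))} (hA : CFree A) :
    ∃ A' : Finset ((Fin n → ZMod 2) × (Fin n → ZMod 2)), CFree A' ∧ #A' = #A := by
  classical
  obtain ⟨e⟩ : Nonempty (ι ↪ Fin n) := Function.Embedding.nonempty_of_card_le (by simpa using h)
  let f := Function.ExtendByZero.hom (ZMod 2) e
  have hf : Function.Injective f := fun x y hxy => Function.extend_injective e.injective _ hxy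
  refine ⟨A.image (fun t => (f t.1, f t.2)), ?_, card_image_of_injective _ ?_⟩
  · rintro x y z hz ⟨h1, h2, h3⟩
    obtain ⟨⟨a1, b1⟩, ht1, e1⟩ := mem_image.1 h1
    obtain ⟨⟨a2, b2⟩, ht2, e2⟩ := mem_image.1 h2
    obtain ⟨⟨a3, b3⟩, ht3, e3⟩ := mem_image.1 h3
    simp only [Prod.mk.injEq] at e1 e2 e3
    have q1 : a2 = a1 := hf (by rw [e1.1, e2.1])
    have q2 : b3 = b1 := hf (by rw [e1.2, e3.2])
    have q3 : f (b2 - b1) = z := by rw [map_sub, e2.2, e1.2]; abel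
    have q4 : a3 = a1 + (b2 - b1) := hf (by rw [map_add, q3, e3.1, e1.1])
    refine hA a1 b1 (b2 - b1) (fun h => hz (by rw [← q3, h, map_zero])) ⟨ht1, ?_, ?_⟩
    · rw [add_sub_cancel, ← q1]; exact ht2
    · rw [← q4, ← q2]; exact ht3
  · intro s t h
    simp only [Prod.mk.injEq] at h
    exact Prod.ext (hf h.1) (hf h.2)

theorem power {m : ℕ} (A : Finset ((Fin m → ZMod 2) × (Fin m → ZMod 2))) (hA : CFree A) (k : ℕ) :
    ∃ B : Finset ((Fin k × Fin m → ZMod 2) × (Fin k × Fin m → ZMod 2)), CFree B ∧ #A ^ k ≤ #B := by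
  classical
  refine ⟨univ.filter (fun t : (Fin k × Fin m → ZMod 2) × (Fin k × Fin m → ZMod 2) =>
    ∀ j, (fun i => t.1 (j, i), fun i => t.2 (j, i)) ∈ A), ?_, ?_⟩
  · rintro x y z hz ⟨g1, g2, g3⟩
    simp only [mem_filter, mem_univ, true_and] at g1 g2 g3
    apply hz
    funext ⟨j, i⟩
    have : (fun i => z (j, i)) = 0 := by
      by_contra h
      exact hA _ _ _ h ⟨g1 j, g2 j, g3 j⟩
    exact congrFun this i
  · have : #A ^ k = #(Fintype.piFinset (fun _ : Fin k => A)) := by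
      rw [Fintype.card_piFinset]; simp
    rw [this]
    refine card_le_card_of_injOn
      (fun u => (fun a => (u a.1).1 a.2, fun a => (u a.1).2 a.2)) ?_ ?_
    · intro u hu
      simp only [coe_filter, mem_univ, true_and, Set.mem_ofPred_eq]
      intro j
      exact Fintype.mem_piFinset.1 hu j
    · intro u _ u' _ h
      simp only [Prod.mk.injEq] at h
      funext j
      exact Prod.ext (funext fun i => congrFun h.1 (j, i)) (funext fun i => congrFun h.2 (j, i))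

theorem all_dim {m : ℕ} (hm : 0 < m) (A : Finset ((Fin m → ZMod 2) × (Fin m → ZMod 2)))
    (hA : CFree A) (c : ℝ) (hc : 1 ≤ c) (h : c ^ m ≤ #A) :
    ∃ C : ℝ, 0 < C ∧ ∀ n : ℕ, ∃ B : Finset ((Fin n → ZMod 2) × (Fin n → ZMod 2)),
      CFree B ∧ C * c ^ n ≤ #B := by
  have hc0 : 0 < c := by linarith
  refine ⟨1 / c ^ m, by positivity, fun n => ?_⟩
  obtain ⟨B, hB, hB2⟩ := power A hA (n / m)
  obtain ⟨B', hB', e⟩ := pad (n := n) (by simpa using Nat.div_mul_le_self n m) hB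
  refine ⟨B', hB', ?_⟩
  rw [e]
  have h1 : c ^ n ≤ c ^ (m * (n / m) + m) :=
    pow_le_pow_right₀ hc (by have := Nat.div_add_mod n m; have := Nat.mod_lt n hm; omega)
  calc 1 / c ^ m * c ^ n ≤ 1 / c ^ m * c ^ (m * (n / m) + m) := by gcongr
    _ = (c ^ m) ^ (n / m) := by rw [pow_add, pow_mul]; field_simp
    _ ≤ (#A : ℝ) ^ (n / m) := pow_le_pow_left₀ (by positivity) h _
    _ ≤ #B := by exact_mod_cast hB2

theorem exists_N (Z : ℝ) (hZ : 1 < Z) (d : ℕ) (M : ℝ) (hM : 0 < M) :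
    ∃ N : ℕ, M * ((N : ℝ) + 1) ^ d ≤ Z ^ N := by
  have ht := (tendsto_pow_const_div_const_pow_of_one_lt d hZ).eventually
    (gt_mem_nhds (show (0 : ℝ) < 1 / (M * Z) by positivity))
  obtain ⟨k, hk⟩ := eventually_atTop.1 ht
  refine ⟨k, ?_⟩
  have h := hk (k + 1) (by omega)
  have hZ0 : 0 < Z := by linarith
  rw [div_lt_div_iff₀ (by positivity) (by positivity), pow_succ Z k] at h
  push_cast at h
  have : M * ((k : ℝ) + 1) ^ d * Z < Z ^ k * Z := by nlinarith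
  exact (lt_of_mul_lt_mul_right this hZ0.le).le

theorem peel_main {V : Type} [AddCommGroup V] [Module (ZMod 2) V] [Fintype V] [DecidableEq V]
    (S : Finset (V × V)) (f0 f1 f2 : V × V → ℤ)
    (hsum : ∀ p, f0 p + f1 p + f2 p = 0)
    (htri : ∀ x y z, z ≠ 0 → (x, y) ∈ S → (x, y + z) ∈ S → (x + z, y) ∈ S →
      0 < f0 (x, y) + f1 (x, y + z) + f2 (x + z, y))
    (a b c α β γ : V → ℝ) (ha0 : ∀ x, 0 ≤ a x) (hb0 : ∀ x, 0 ≤ b x) (hc0 : ∀ x, 0 ≤ c x)
    (hα0 : ∀ x, 0 < α x) (hβ0 : ∀ x, 0 < β x) (hγ0 : ∀ x, 0 < γ x)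
    (hα : ∑ x, α x ≤ 1) (hβ : ∑ x, β x ≤ 1) (hγ : ∑ x, γ x ≤ 1) (q r : ℕ) (hq : 0 < q)
    (ha : ∀ x, a x ^ (3 * q) ≤ α x ^ r) (hb : ∀ x, b x ^ (3 * q) ≤ β x ^ r)
    (hc : ∀ x, c x ^ (3 * q) ≤ γ x ^ r)
    (hZ : 1 < ∑ p ∈ S, a p.1 * b p.2 * c (p.1 + p.2)) :
    ∃ m : ℕ, 0 < m ∧ ∃ A : Finset ((Fin m → ZMod 2) × (Fin m → ZMod 2)),
      CFree A ∧ (2 : ℝ) ^ (m * r) ≤ (#A : ℝ) ^ q := by
  classical
  set Z := ∑ p ∈ S, a p.1 * b p.2 * c (p.1 + p.2) with hZd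
  obtain ⟨N, hN⟩ := exists_N Z hZ (Fintype.card (V × V)) (2 * 12 ^ r) (by positivity)
  obtain ⟨T, p0, hT, hsame, hbig⟩ := type_class S f0 f1 f2 hsum htri
    (fun p => a p.1 * b p.2 * c (p.1 + p.2)) (by linarith) N
  have h2 : ∀ x : Fin N → V, x + x = 0 := fun x => by
    rw [← two_smul (ZMod 2) x, show (2 : ZMod 2) = 0 from rfl, zero_smul]
  have c1 : ∀ u v : Fin N → V, u + v + u = v := fun u v => by
    rw [add_comm u v, add_assoc, h2, add_zero]
  have c2 : ∀ u v : Fin N → V, u + v + v = u := fun u v => by rw [add_assoc, h2, add_zero]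
  obtain ⟨T3, hT3, hcard3, hmem3⟩ := rotate h2 T hT
  set tα := ∏ i, α (p0 i).1 with htα
  set tβ := ∏ i, β (p0 i).2 with htβ
  set tγ := ∏ i, γ ((p0 i).1 + (p0 i).2) with htγ
  set w0 := ∏ i, a (p0 i).1 * b (p0 i).2 * c ((p0 i).1 + (p0 i).2) with hw0
  have pα : 0 < tα := prod_pos fun i _ => hα0 _
  have pβ : 0 < tβ := prod_pos fun i _ => hβ0 _
  have pγ : 0 < tγ := prod_pos fun i _ => hγ0 _
  have le1 : ∀ (δ : V → ℝ), (∀ x, 0 < δ x) → ∑ x, δ x ≤ 1 → ∀ u : Fin N → V, ∏ i, δ (u i) ≤ 1 :=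
    fun δ h0 h1 u => prod_le_one (fun i _ => (h0 _).le) (fun i _ =>
      (single_le_sum (f := δ) (fun x _ => (h0 x).le) (mem_univ _)).trans h1)
  set X : Finset (Fin N → V) := {x | ∏ i, α (x i) = tα} with hX
  set Y : Finset (Fin N → V) := {x | ∏ i, β (x i) = tβ} with hY
  set W : Finset (Fin N → V) := {x | ∏ i, γ (x i) = tγ} with hW
  have cX : (#X : ℝ) * tα ≤ 1 := card_level α (fun x => (hα0 x).le) hα N tα
  have cY : (#Y : ℝ) * tβ ≤ 1 := card_level β (fun x => (hβ0 x).le) hβ N tβ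
  have cW : (#W : ℝ) * tγ ≤ 1 := card_level γ (fun x => (hγ0 x).le) hγ N tγ
  have hXYW : ∀ t ∈ T, t.1 ∈ X ∧ t.2 ∈ Y ∧ t.1 + t.2 ∈ W := fun t ht =>
    ⟨mem_filter.2 ⟨mem_univ _, hsame t ht (fun p => α p.1)⟩,
     mem_filter.2 ⟨mem_univ _, hsame t ht (fun p => β p.2)⟩,
     mem_filter.2 ⟨mem_univ _, hsame t ht (fun p => γ (p.1 + p.2))⟩⟩
  set t := tα * tβ * tγ with ht
  have pt : 0 < t := by positivity
  have t1 : t ≤ 1 := by
    have e1 := le1 α hα0 hα (fun i => (p0 i).1)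
    have e2 := le1 β hβ0 hβ (fun i => (p0 i).2)
    have e3 := le1 γ hγ0 hγ (fun i => (p0 i).1 + (p0 i).2)
    exact mul_le_one₀ (mul_le_one₀ e1 pβ.le e2) pγ.le e3
  have cP : (#X : ℝ) * #Y * #W * t ≤ 1 := by
    have : (#X : ℝ) * #Y * #W * t = (#X * tα) * (#Y * tβ) * (#W * tγ) := by rw [ht]; ring
    rw [this]
    exact mul_le_one₀ (mul_le_one₀ cX (by positivity) cY) (by positivity) cW
  obtain ⟨n, hn1, hn2⟩ := exists_nat_pow_near (x := 6 / t) (y := (2 : ℝ))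
    (by rw [le_div_iff₀ pt]; linarith) (by norm_num)
  have hsz : 6 * (#X * #Y * #W) ≤ 2 ^ (n + 1) := by
    have : (6 : ℝ) * (#X * #Y * #W) ≤ 2 ^ (n + 1) := by
      refine le_trans ?_ hn2.le
      rw [le_div_iff₀ pt]; linarith
    exact_mod_cast this
  obtain ⟨A, hA, hAc⟩ := hash (n + 1) T3 hT3 (X ×ˢ Y ×ˢ W) (Y ×ˢ W ×ˢ X) (W ×ˢ X ×ˢ Y)
    (fun u hu => by
      obtain ⟨e1, e2, e3⟩ := hmem3 u hu
      have g1 := hXYW _ e1
      have g2 := hXYW _ e2
      have g3 := hXYW _ e3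
      simp only at g1 g2 g3
      rw [c1] at g2
      rw [← add_assoc, add_comm u.2.2.2, c2] at g3
      simp only [mem_product, Prod.fst_add, Prod.snd_add]
      exact ⟨⟨g1.1, g2.2.1, g3.2.2⟩, ⟨g1.2.1, g2.2.2, g3.1⟩, g1.2.2, g2.1, g3.2.1⟩)
    (by rw [card_product, card_product]; linarith)
    (by rw [card_product, card_product]; linarith)
    (by rw [card_product, card_product]; linarith)
  refine ⟨n + 1, Nat.succ_pos n, A, hA, ?_⟩
  have hw : w0 ^ (3 * q) ≤ t ^ r := by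
    rw [hw0, ht, htα, htβ, htγ, ← prod_mul_distrib, ← prod_mul_distrib, ← prod_pow, ← prod_pow]
    refine prod_le_prod (fun i _ => ?_) (fun i _ => ?_)
    · have := ha0 (p0 i).1
      have := hb0 (p0 i).2
      have := hc0 ((p0 i).1 + (p0 i).2)
      positivity
    · rw [mul_pow, mul_pow, mul_pow, mul_pow]
      refine mul_le_mul (mul_le_mul (ha _) (hb _) (pow_nonneg (hb0 _) _)
        (pow_nonneg (hα0 _).le _)) (hc _) (pow_nonneg (hc0 _) _) ?_
      exact mul_nonneg (pow_nonneg (hα0 _).le _) (pow_nonneg (hβ0 _).le _)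
  have hTw : (2 : ℝ) * 12 ^ r ≤ #T * w0 := by
    have hp : (0 : ℝ) < ((N : ℝ) + 1) ^ Fintype.card (V × V) := by positivity
    have := hN.trans hbig
    rw [mul_comm] at this
    exact le_of_mul_le_mul_left this hp
  have hA2 : (#T : ℝ) ^ 3 ≤ 2 * #A := by exact_mod_cast hcard3.trans hAc
  have h12 : (2 : ℝ) ^ (n + 1) * t ≤ 12 := by
    rw [le_div_iff₀ pt] at hn1
    rw [pow_succ]; linarith
  have s1 : (2 : ℝ) ^ q * 12 ^ r ≤ (2 * 12 ^ r) ^ (3 * q) := by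
    have u1 : (1 : ℝ) ≤ 12 ^ r := one_le_pow₀ (by norm_num)
    calc (2 : ℝ) ^ q * 12 ^ r ≤ 2 ^ q * (12 ^ r) ^ q :=
          mul_le_mul_of_nonneg_left (le_self_pow₀ u1 hq.ne') (by positivity)
      _ = (2 * 12 ^ r) ^ q := (mul_pow _ _ _).symm
      _ ≤ _ := pow_le_pow_right₀ (by linarith) (by omega)
  have s2 : ((2 : ℝ) * 12 ^ r) ^ (3 * q) ≤ 2 ^ q * (#A : ℝ) ^ q * t ^ r := by
    calc ((2 : ℝ) * 12 ^ r) ^ (3 * q) ≤ (#T * w0) ^ (3 * q) :=
          pow_le_pow_left₀ (by positivity) hTw _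
      _ = ((#T : ℝ) ^ 3) ^ q * w0 ^ (3 * q) := by rw [mul_pow, pow_mul]
      _ ≤ (2 * (#A : ℝ)) ^ q * t ^ r := by
          refine mul_le_mul (pow_le_pow_left₀ (by positivity) hA2 _) hw ?_ (by positivity)
          refine pow_nonneg (prod_nonneg fun i _ => ?_) _
          have := ha0 (p0 i).1
          have := hb0 (p0 i).2
          have := hc0 ((p0 i).1 + (p0 i).2)
          positivity
      _ = _ := by rw [mul_pow]
  have s3 : (2 : ℝ) ^ ((n + 1) * r) * t ^ r ≤ 12 ^ r := by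
    rw [pow_mul, ← mul_pow]
    exact pow_le_pow_left₀ (by positivity) h12 _
  have s4 : (12 : ℝ) ^ r ≤ (#A : ℝ) ^ q * t ^ r := by
    have := s1.trans s2
    rw [mul_assoc] at this
    exact le_of_mul_le_mul_left this (by positivity)
  exact le_of_mul_le_mul_right (s3.trans s4) (by positivity)

end Pool.Agent.P.MP_db4732_co.Peel
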