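import Pool.Agent.P.MP_db4732_co.Peel

namespace Pool.Agent.P.MP_db4732_co.Peel

open Finset Filter Topology

/-- every slice is corner-free -/
def SFree {G Ω : Type*} [AddCommGroup G] (I : Finset (Ω × G × G)) : Prop :=
  ∀ (t : Ω) (x y z : G), z ≠ 0 → ¬ ((t, x, y) ∈ I ∧ (t, x, y + z) ∈ I ∧ (t, x + z, y) ∈ I)

section Label

variable {G Ω : Type} [AddCommGroup G] [Fintype G] [DecidableEq G]
  [AddCommGroup Ω] [Fintype Ω] [DecidableEq Ω]

theorem card_pair_sum {n : ℕ} (i j : Fin n) (hij : i ≠ j) (F : Finset Ω) :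
    #{a : Fin n → Ω | a i + a j ∈ F} * Fintype.card Ω = #F * Fintype.card (Fin n → Ω) := by
  classical
  let f : (Fin n → Ω) →+ Ω :=
    { toFun := fun a => a i + a j
      map_zero' := by simp
      map_add' := by intro x y; simp only [Pi.add_apply]; abel }
  have hsurj : ∀ y, y ∈ Set.range f := by
    intro y
    refine ⟨Pi.single i y, ?_⟩
    show (Pi.single i y : Fin n → Ω) i + (Pi.single i y : Fin n → Ω) j = y
    simp [hij.symm]
  have h2 : ∀ y : Ω, #{a : Fin n → Ω | f a = y} = #{a : Fin n → Ω | f a = 0} :=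
    fun y => AddMonoidHom.card_fiber_eq_of_mem_range f (hsurj y) (hsurj 0)
  have h1 : (univ : Finset (Fin n → Ω)).card = ∑ y : Ω, #{a : Fin n → Ω | f a = y} :=
    card_eq_sum_card_fiberwise (fun _ _ => mem_univ _)
  have h3 : #{a : Fin n → Ω | a i + a j ∈ F} = ∑ y ∈ F, #{a : Fin n → Ω | f a = y} := by
    rw [card_eq_sum_card_fiberwise (s := ({a : Fin n → Ω | a i + a j ∈ F} : Finset _)) (f := f)
      (t := F) (fun a ha => (mem_filter.1 (mem_coe.1 ha)).2)]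
    refine sum_congr rfl fun y hy => ?_
    congr 1
    ext a
    simp only [mem_filter, mem_univ, true_and]
    exact ⟨fun h => h.2, fun h => ⟨by rw [show a i + a j = y from h]; exact hy, h⟩⟩
  simp only [h2, sum_const, card_univ, smul_eq_mul] at h1 h3
  rw [h3, h1]
  ring

/-- no other label claims the point -/
def Own (ι : Ω →+ G) {n : ℕ} (D : Finset G) (a : Fin n → Ω) (i : Fin n) (x : G) : Prop :=
  ∀ i', i' ≠ i → x + ι (a i + a i') ∉ D

omit [Fintype G] in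
open Classical in
theorem card_not_own (ι : Ω →+ G) {n : ℕ} (D : Finset G) (i : Fin n) (x : G) (t : ℝ)
    (ht : 0 ≤ t) (hk : (#{ω : Ω | x + ι ω ∈ D} : ℝ) * t ≤ 1) :
    (#{a : Fin n → Ω | ¬ Own ι D a i x} : ℝ) * (Fintype.card Ω * t)
      ≤ (n - 1 : ℕ) * Fintype.card (Fin n → Ω) := by
  have hsub : ({a : Fin n → Ω | ¬ Own ι D a i x} : Finset _) ⊆ (univ.erase i).biUnion
      (fun i' => ({a : Fin n → Ω | a i + a i' ∈ ({ω : Ω | x + ι ω ∈ D} : Finset Ω)} : Finset _)) := by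
    intro a ha
    replace ha := (mem_filter.1 ha).2
    unfold Own at ha
    push Not at ha
    obtain ⟨i', h1, h2⟩ := ha
    simp only [mem_biUnion, mem_erase, mem_filter, mem_univ, true_and, and_true]
    exact ⟨i', h1, h2⟩
  have h1 : #{a : Fin n → Ω | ¬ Own ι D a i x} * Fintype.card Ω
      ≤ (n - 1) * (#{ω : Ω | x + ι ω ∈ D} * Fintype.card (Fin n → Ω)) := by
    refine (Nat.mul_le_mul_right _ ((card_le_card hsub).trans card_biUnion_le)).trans ?_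
    rw [sum_mul, sum_congr rfl (fun i' hi' => card_pair_sum i i' (mem_erase.1 hi').1.symm _),
      sum_const, smul_eq_mul, card_erase_of_mem (mem_univ _), card_univ, Fintype.card_fin]
  have h2 : (#{a : Fin n → Ω | ¬ Own ι D a i x} : ℝ) * Fintype.card Ω
      ≤ (n - 1 : ℕ) * (#{ω : Ω | x + ι ω ∈ D} * Fintype.card (Fin n → Ω)) := by
    exact_mod_cast h1
  calc _ = (#{a : Fin n → Ω | ¬ Own ι D a i x} : ℝ) * Fintype.card Ω * t := by ring
    _ ≤ (n - 1 : ℕ) * (#{ω : Ω | x + ι ω ∈ D} * Fintype.card (Fin n → Ω)) * t :=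
        mul_le_mul_of_nonneg_right h2 ht
    _ = (n - 1 : ℕ) * Fintype.card (Fin n → Ω) * (#{ω : Ω | x + ι ω ∈ D} * t) := by ring
    _ ≤ (n - 1 : ℕ) * Fintype.card (Fin n → Ω) * 1 :=
        mul_le_mul_of_nonneg_left hk (by positivity)
    _ = _ := mul_one _

omit [Fintype G] in
theorem label (h2 : ∀ x : G, x + x = 0) (ι : Ω →+ G)
    (I : Finset (Ω × G × G)) (hI : SFree I)
    (D1 D2 D3 : Finset G)
    (hD : ∀ e ∈ I, e.2.1 ∈ D1 ∧ e.2.2 ∈ D2 ∧ e.2.1 + e.2.2 + ι e.1 ∈ D3)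
    (t : ℝ) (ht : 0 < t)
    (k1 : ∀ x, (#{ω : Ω | x + ι ω ∈ D1} : ℝ) * t ≤ 1)
    (k2 : ∀ x, (#{ω : Ω | x + ι ω ∈ D2} : ℝ) * t ≤ 1)
    (k3 : ∀ x, (#{ω : Ω | x + ι ω ∈ D3} : ℝ) * t ≤ 1)
    (l : ℕ) (hl : (18 * l : ℝ) ≤ Fintype.card Ω * t)
    (B : Finset ℕ) (hB : B ⊆ range (l + 1)) (hB3 : ThreeAPFree (B : Set ℕ)) :
    ∃ (A : Finset (G × G)) (E1 E2 E3 : Finset G), CFree A ∧
      (∀ s ∈ A, s.1 ∈ E1 ∧ s.2 ∈ E2 ∧ s.1 + s.2 ∈ E3) ∧
      #E1 ≤ (3 * l + 1) * #D1 ∧ #E2 ≤ (3 * l + 1) * #D2 ∧ #E3 ≤ (3 * l + 1) * #D3 ∧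
      (l + 1) * #B * #I ≤ 2 * Fintype.card Ω * #A := by
  classical
  have c2 : ∀ u v : G, u + v + v = u := fun u v => by rw [add_assoc, h2, add_zero]
  let lab : ℕ → Fin (3 * l + 1) := fun u => Fin.ofNat (3 * l + 1) u
  have lab_inj : ∀ u v, u ≤ 3 * l → v ≤ 3 * l → lab u = lab v → u = v := by
    intro u v hu hv h
    have := congrArg Fin.val h
    simp only [lab, Fin.val_ofNat] at this
    rwa [Nat.mod_eq_of_lt (by omega), Nat.mod_eq_of_lt (by omega)] at this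
  set J : Finset ((ℕ × ℕ) × (Ω × G × G)) := (range (l + 1) ×ˢ B) ×ˢ I with hJ
  have hJm : ∀ e ∈ J, e.1.1 ≤ l ∧ e.1.2 ≤ l ∧ e.1.2 ∈ B ∧ e.2 ∈ I := by
    intro e he
    simp only [hJ, mem_product, mem_range] at he
    have := mem_range.1 (hB he.1.2)
    exact ⟨by omega, by omega, he.1.2, he.2⟩
  let good : (Fin (3 * l + 1) → Ω) → (ℕ × ℕ) × (Ω × G × G) → Prop := fun a e =>
    Own ι D1 a (lab e.1.1) e.2.2.1 ∧ Own ι D2 a (lab (e.1.1 + e.1.2)) e.2.2.2 ∧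
      Own ι D3 a (lab (e.1.1 + 2 * e.1.2)) (e.2.2.1 + e.2.2.2 + ι e.2.1)
  set R := Fintype.card (Fin (3 * l + 1) → Ω) with hR
  have hO : (0 : ℝ) < Fintype.card Ω * t := by
    have : (0 : ℝ) < Fintype.card Ω := by exact_mod_cast Fintype.card_pos
    positivity
  have hbad : ∀ e ∈ J, 2 * #{a | ¬ good a e} ≤ R := by
    intro e _
    have e1 := card_not_own ι D1 (lab e.1.1) e.2.2.1 t ht.le (k1 _)
    have e2 := card_not_own ι D2 (lab (e.1.1 + e.1.2)) e.2.2.2 t ht.le (k2 _)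
    have e3 := card_not_own ι D3 (lab (e.1.1 + 2 * e.1.2)) (e.2.2.1 + e.2.2.2 + ι e.2.1) t
      ht.le (k3 _)
    have hsub : ({a | ¬ good a e} : Finset _) ⊆
        ({a : Fin (3 * l + 1) → Ω | ¬ Own ι D1 a (lab e.1.1) e.2.2.1} : Finset _) ∪
        ({a : Fin (3 * l + 1) → Ω | ¬ Own ι D2 a (lab (e.1.1 + e.1.2)) e.2.2.2} : Finset _) ∪
        ({a : Fin (3 * l + 1) → Ω | ¬ Own ι D3 a (lab (e.1.1 + 2 * e.1.2))
          (e.2.2.1 + e.2.2.2 + ι e.2.1)} : Finset _) := by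
      intro a ha
      simp only [mem_filter, mem_univ, true_and, mem_union, good] at ha ⊢
      tauto
    have hc := (card_le_card hsub).trans ((card_union_le _ _).trans
      (Nat.add_le_add_right (card_union_le _ _) _))
    have hc' := mul_le_mul_of_nonneg_right (Nat.cast_le (α := ℝ).2 hc) hO.le
    rw [← hR, Nat.add_sub_cancel] at e1 e2 e3
    push_cast at hc' e1 e2 e3
    have hR0 : (0 : ℝ) ≤ R := by positivity
    have k := mul_le_mul_of_nonneg_right hl hR0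
    have : (2 * #{a | ¬ good a e} : ℝ) * (Fintype.card Ω * t) ≤ R * (Fintype.card Ω * t) := by
      nlinarith
    exact_mod_cast le_of_mul_le_mul_right this hO
  obtain ⟨a, -, ha⟩ : ∃ a ∈ (univ : Finset (Fin (3 * l + 1) → Ω)),
      2 * #{e ∈ J | ¬ good a e} ≤ #J := by
    refine exists_le_of_sum_le univ_nonempty ?_
    have : ∑ a : Fin (3 * l + 1) → Ω, #{e ∈ J | ¬ good a e} = ∑ e ∈ J, #{a | ¬ good a e} := by
      simp only [card_filter]
      exact sum_comm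
    rw [← mul_sum, this, mul_sum]
    calc _ ≤ ∑ _e ∈ J, R := sum_le_sum hbad
      _ = _ := by simp [mul_comm, hR]
  have hgood : #J ≤ 2 * #{e ∈ J | good a e} := by
    have := card_filter_add_card_filter_not (s := J) (fun e => good a e)
    omega
  let key : (ℕ × ℕ) × (Ω × G × G) → Ω := fun e =>
    e.2.1 + (a (lab e.1.1) + a (lab (e.1.1 + e.1.2)) + a (lab (e.1.1 + 2 * e.1.2)))
  obtain ⟨τ, -, hτ⟩ := exists_max_image univ
    (fun τ => #{e ∈ ({e ∈ J | good a e} : Finset _) | key e = τ}) univ_nonempty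
  set J' : Finset ((ℕ × ℕ) × (Ω × G × G)) :=
    {e ∈ ({e ∈ J | good a e} : Finset _) | key e = τ} with hJ'
  have hfib : #{e ∈ J | good a e} ≤ Fintype.card Ω * #J' := by
    rw [card_eq_sum_card_fiberwise (f := key) (t := univ) (fun _ _ => mem_univ _)]
    calc _ ≤ ∑ _y : Ω, #J' := sum_le_sum fun y _ => hτ y (mem_univ y)
      _ = _ := by simp
  have hm : ∀ e ∈ J', e ∈ J ∧ good a e ∧ key e = τ := fun e he => by
    simp only [hJ', mem_filter] at he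
    exact ⟨he.1.1, he.1.2, he.2⟩
  have own : ∀ (D : Finset G) (i i' : Fin (3 * l + 1)) (x x' : G), Own ι D a i x → x' ∈ D →
      x + ι (a i) = x' + ι (a i') → i' = i ∧ x' = x := by
    intro D i i' x x' ho hx h
    have hi : i' = i := by
      by_contra hne
      refine ho i' hne ?_
      rw [map_add, ← add_assoc, h, c2]
      exact hx
    subst hi
    exact ⟨rfl, (add_right_cancel h).symm⟩
  let φ : (ℕ × ℕ) × (Ω × G × G) → G × G := fun e =>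
    (e.2.2.1 + ι (a (lab e.1.1)), e.2.2.2 + ι (a (lab (e.1.1 + e.1.2))))
  have hsym : ∀ e ∈ J', (φ e).1 + (φ e).2 = (e.2.2.1 + e.2.2.2 + ι e.2.1)
      + ι (a (lab (e.1.1 + 2 * e.1.2))) + ι τ := by
    intro e he
    rw [← (hm e he).2.2]
    simp only [φ, key, map_add]
    have key2 : ∀ x y A B C T : G, x + A + (y + B) = x + y + T + C + (T + (A + B + C)) := by
      intro x y A B C T
      have : x + y + T + C + (T + (A + B + C)) = x + A + (y + B) + (T + T) + (C + C) := by abel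
      rw [this, h2, h2, add_zero, add_zero]
    exact key2 _ _ _ _ _ _
  have r1 : ∀ e ∈ J', ∀ e' ∈ J', (φ e).1 = (φ e').1 → e'.1.1 = e.1.1 ∧ e'.2.2.1 = e.2.2.1 := by
    intro e he e' he' h
    have g := hJm e (hm e he).1
    have g' := hJm e' (hm e' he').1
    have := own D1 _ _ _ _ (hm e he).2.1.1 (hD _ g'.2.2.2).1 h
    exact ⟨lab_inj _ _ (by omega) (by omega) this.1, this.2⟩
  have r2 : ∀ e ∈ J', ∀ e' ∈ J', (φ e).2 = (φ e').2 →
      e'.1.1 + e'.1.2 = e.1.1 + e.1.2 ∧ e'.2.2.2 = e.2.2.2 := by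
    intro e he e' he' h
    have g := hJm e (hm e he).1
    have g' := hJm e' (hm e' he').1
    have := own D2 _ _ _ _ (hm e he).2.1.2.1 (hD _ g'.2.2.2).2.1 h
    exact ⟨lab_inj _ _ (by omega) (by omega) this.1, this.2⟩
  have r3 : ∀ e ∈ J', ∀ e' ∈ J', (φ e).1 + (φ e).2 = (φ e').1 + (φ e').2 →
      e'.1.1 + 2 * e'.1.2 = e.1.1 + 2 * e.1.2 ∧
        e'.2.2.1 + e'.2.2.2 + ι e'.2.1 = e.2.2.1 + e.2.2.2 + ι e.2.1 := by
    intro e he e' he' h
    have g := hJm e (hm e he).1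
    have g' := hJm e' (hm e' he').1
    rw [hsym e he, hsym e' he'] at h
    have := own D3 _ _ _ _ (hm e he).2.1.2.2 (hD _ g'.2.2.2).2.2 (add_right_cancel h)
    exact ⟨lab_inj _ _ (by omega) (by omega) this.1, this.2⟩
  have r4 : ∀ e ∈ J', ∀ e' ∈ J', e'.1.1 = e.1.1 → e'.1.2 = e.1.2 → e'.2.1 = e.2.1 := by
    intro e he e' he' h1 h2
    have := (hm e' he').2.2.trans (hm e he).2.2.symm
    simp only [key, h1, h2] at this
    exact add_right_cancel this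
  refine ⟨J'.image φ, (univ ×ˢ D1).image (fun u : Fin (3 * l + 1) × G => u.2 + ι (a u.1)),
    (univ ×ˢ D2).image (fun u : Fin (3 * l + 1) × G => u.2 + ι (a u.1)),
    (univ ×ˢ D3).image (fun u : Fin (3 * l + 1) × G => u.2 + ι (a u.1) + ι τ),
    ?_, ?_, ?_, ?_, ?_, ?_⟩
  · rintro x y z hz ⟨g1, g2, g3⟩
    obtain ⟨e1, he1, q1⟩ := mem_image.1 g1
    obtain ⟨e2, he2, q2⟩ := mem_image.1 g2
    obtain ⟨e3, he3, q3⟩ := mem_image.1 g3
    have s1 := r1 e1 he1 e2 he2 (by rw [q1, q2])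
    have s2 := r2 e1 he1 e3 he3 (by rw [q1, q3])
    have s3 := r3 e2 he2 e3 he3 (by rw [q2, q3]; simp only; abel)
    have m1 := hJm e1 (hm e1 he1).1
    have m2 := hJm e2 (hm e2 he2).1
    have m3 := hJm e3 (hm e3 he3).1
    have b12 : e1.1.2 = e2.1.2 :=
      hB3 (mem_coe.2 m1.2.2.1) (mem_coe.2 m2.2.2.1) (mem_coe.2 m3.2.2.1) (by omega)
    have t2 := r4 e1 he1 e2 he2 s1.1 b12.symm
    have t3 := r4 e1 he1 e3 he3 (by omega) (by omega)
    have hy1 : e1.2.2.2 + ι (a (lab (e1.1.1 + e1.1.2))) = y := congrArg Prod.snd q1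
    have hy2 : e2.2.2.2 + ι (a (lab (e2.1.1 + e2.1.2))) = y + z := congrArg Prod.snd q2
    rw [s1.1, ← b12, ← hy1, add_right_comm] at hy2
    have hy3 : e2.2.2.2 = e1.2.2.2 + z := add_right_cancel hy2
    have hx3 : e3.2.2.1 = e1.2.2.1 + z := by
      have := s3.2
      rw [t2, t3, s1.2, s2.2, hy3] at this
      have := add_right_cancel this
      rw [← add_assoc, add_right_comm] at this
      exact add_right_cancel this
    refine hI e1.2.1 e1.2.2.1 e1.2.2.2 z hz ⟨?_, ?_, ?_⟩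
    · exact m1.2.2.2
    · rw [← t2, ← s1.2, ← hy3]
      exact m2.2.2.2
    · rw [← t3, ← s2.2, ← hx3]
      exact m3.2.2.2
  · intro s hs
    obtain ⟨e, he, rfl⟩ := mem_image.1 hs
    have g := hD _ (hJm e (hm e he).1).2.2.2
    refine ⟨mem_image.2 ⟨(_, _), mem_product.2 ⟨mem_univ _, g.1⟩, rfl⟩,
      mem_image.2 ⟨(_, _), mem_product.2 ⟨mem_univ _, g.2.1⟩, rfl⟩,
      mem_image.2 ⟨(_, _), mem_product.2 ⟨mem_univ _, g.2.2⟩, (hsym e he).symm⟩⟩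
  · exact card_image_le.trans (by simp)
  · exact card_image_le.trans (by simp)
  · exact card_image_le.trans (by simp)
  · rw [card_image_of_injOn]
    · have : #J = (l + 1) * #B * #I := by simp [hJ]
      rw [← this, mul_assoc]
      exact hgood.trans (Nat.mul_le_mul_left 2 hfib)
    · intro e he e' he' h
      have s1 := r1 e he e' he' (congrArg Prod.fst h)
      have s2 := r2 e he e' he' (congrArg Prod.snd h)
      have s4 := r4 e he e' he' s1.1 (by omega)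
      exact (Prod.ext (Prod.ext s1.1 (by omega)) (Prod.ext s4 (Prod.ext s1.2 s2.2))).symm

end Label

section Types2

variable {V Ω : Type} [AddCommGroup V] [Fintype V] [DecidableEq V] [Fintype Ω] [DecidableEq Ω]

theorem type_class2 (S : Finset (Ω × V × V)) (f0 f1 f2 : Ω × V × V → ℤ)
    (hsum : ∀ p, f0 p + f1 p + f2 p = 0)
    (htri : ∀ t x y z, z ≠ 0 → (t, x, y) ∈ S → (t, x, y + z) ∈ S → (t, x + z, y) ∈ S →
      0 < f0 (t, x, y) + f1 (t, x, y + z) + f2 (t, x + z, y))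
    (w : Ω × V × V → ℝ) (hw : 0 < ∑ p ∈ S, w p) (N : ℕ) :
    ∃ (T : Finset ((Fin N → Ω) × (Fin N → V) × (Fin N → V))) (p0 : Fin N → Ω × V × V),
      SFree T ∧
      (∀ e ∈ T, ∀ g : Ω × V × V → ℝ, ∏ i, g (e.1 i, e.2.1 i, e.2.2 i) = ∏ i, g (p0 i)) ∧
      (∑ p ∈ S, w p) ^ N ≤ (N + 1) ^ Fintype.card (Ω × V × V) * (#T * ∏ i, w (p0 i)) := by
  classical
  set U : Finset (Fin N → Ω × V × V) := Fintype.piFinset (fun _ => S) with hU
  set K : Finset (Ω × V × V → ℕ) := Fintype.piFinset (fun _ => range (N + 1)) with hK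
  let key : (Fin N → Ω × V × V) → (Ω × V × V → ℕ) := fun p s => #{i | p i = s}
  have hmaps : ∀ p ∈ U, key p ∈ K := by
    intro p _
    rw [hK, Fintype.mem_piFinset]
    intro s
    rw [mem_range, Nat.lt_succ_iff]
    exact (card_filter_le _ _).trans (by simp)
  have hKc : (#K : ℝ) = (N + 1) ^ Fintype.card (Ω × V × V) := by
    rw [hK, Fintype.card_piFinset]
    simp
  have hKpos : (0 : ℝ) < #K := by rw [hKc]; positivity
  have hKne : K.Nonempty := card_pos.1 (by exact_mod_cast hKpos)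
  have htot : ∑ p ∈ U, ∏ i, w (p i) = (∑ p ∈ S, w p) ^ N := by
    rw [hU, ← prod_univ_sum (fun _ : Fin N => S) (fun _ x => w x)]
    simp
  obtain ⟨τ, -, hτ⟩ := exists_le_sum_fiber_of_maps_to_of_nsmul_le_sum (s := U) (t := K)
    (f := key) (w := fun p => ∏ i, w (p i)) (b := (∑ p ∈ S, w p) ^ N / #K) hmaps hKne
    (by rw [htot, nsmul_eq_mul, mul_div_cancel₀ _ hKpos.ne'])
  have hne : ({p ∈ U | key p = τ} : Finset _).Nonempty := by
    by_contra h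
    rw [not_nonempty_iff_eq_empty] at h
    rw [h, sum_empty] at hτ
    exact absurd hτ (not_le.2 (by positivity))
  obtain ⟨p0, hp0⟩ := hne
  have hsame : ∀ p ∈ ({p ∈ U | key p = τ} : Finset _), key p = key p0 := fun p hp => by
    rw [(mem_filter.1 hp).2, (mem_filter.1 hp0).2]
  let e : (Fin N → Ω × V × V) → (Fin N → Ω) × (Fin N → V) × (Fin N → V) :=
    fun p => (fun i => (p i).1, fun i => (p i).2.1, fun i => (p i).2.2)
  have he : Function.Injective e := by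
    intro p p' h
    simp only [e, Prod.mk.injEq] at h
    funext i
    exact Prod.ext (congrFun h.1 i) (Prod.ext (congrFun h.2.1 i) (congrFun h.2.2 i))
  have hmem : ∀ (t : Fin N → Ω) (x y : Fin N → V),
      (t, x, y) ∈ ({p ∈ U | key p = τ} : Finset _).image e →
      (fun i => (t i, x i, y i)) ∈ ({p ∈ U | key p = τ} : Finset _) := by
    intro t x y h
    obtain ⟨p, hp, hpe⟩ := mem_image.1 h
    simp only [e, Prod.mk.injEq] at hpe
    have : (fun i => (t i, x i, y i)) = p := by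
      funext i
      rw [← hpe.1, ← hpe.2.1, ← hpe.2.2]
    rw [this]; exact hp
  refine ⟨({p ∈ U | key p = τ} : Finset _).image e, p0, ?_, ?_, ?_⟩
  · rintro t x y z hz ⟨h1, h2, h3⟩
    have g1 := hmem _ _ _ h1
    have g2 := hmem _ _ _ h2
    have g3 := hmem _ _ _ h3
    have s0 := sum_eq_of_cnt _ _ (hsame _ g1) f0
    have s1 := sum_eq_of_cnt _ _ (hsame _ g2) f1
    have s2 := sum_eq_of_cnt _ _ (hsame _ g3) f2
    have m1 := Fintype.mem_piFinset.1 (mem_filter.1 g1).1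
    have m2 := Fintype.mem_piFinset.1 (mem_filter.1 g2).1
    have m3 := Fintype.mem_piFinset.1 (mem_filter.1 g3).1
    obtain ⟨j, hj⟩ : ∃ j, z j ≠ 0 := by
      by_contra h
      push Not at h
      exact hz (funext h)
    have hpos : 0 < ∑ i, (f0 (t i, x i, y i) + f1 (t i, x i, y i + z i)
        + f2 (t i, x i + z i, y i)) := by
      refine sum_pos' (fun i _ => ?_) ⟨j, mem_univ j, htri _ _ _ _ hj (m1 j) (m2 j) (m3 j)⟩
      by_cases hi : z i = 0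
      · simp only [hi, add_zero]
        exact (hsum _).ge
      · exact (htri _ _ _ _ hi (m1 i) (m2 i) (m3 i)).le
    rw [sum_add_distrib, sum_add_distrib] at hpos
    simp only [Pi.add_apply] at s0 s1 s2
    rw [s0, s1, s2, ← sum_add_distrib, ← sum_add_distrib] at hpos
    simp [hsum] at hpos
  · rintro ⟨t, x, y⟩ ht g
    exact prod_eq_of_cnt _ _ (hsame _ (hmem _ _ _ ht)) g
  · rw [card_image_of_injective _ he, ← hKc]
    rw [div_le_iff₀ hKpos] at hτ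
    rw [mul_comm]
    refine hτ.trans (le_of_eq ?_)
    congr 1
    rw [sum_congr rfl (g := fun _ => ∏ i, w (p0 i))
      (fun p hp => prod_eq_of_cnt _ _ (hsame p hp) w), sum_const, nsmul_eq_mul]

omit [Fintype V] [DecidableEq Ω] in
theorem card_level2 (ι : Ω → V) (α : V → ℝ) (h0 : ∀ x, 0 ≤ α x)
    (h1 : ∀ x, ∑ ω, α (x + ι ω) ≤ 1) (N : ℕ) (t : ℝ) (X : Finset (Fin N → V))
    (hX : ∀ x ∈ X, ∏ i, α (x i) = t) (x : Fin N → V) :
    (#{ω : Fin N → Ω | (x + fun i => ι (ω i)) ∈ X} : ℝ) * t ≤ 1 := by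
  classical
  calc (#{ω : Fin N → Ω | (x + fun i => ι (ω i)) ∈ X} : ℝ) * t
      = ∑ ω ∈ ({ω : Fin N → Ω | (x + fun i => ι (ω i)) ∈ X} : Finset _),
          ∏ i, α (x i + ι (ω i)) := by
        rw [← nsmul_eq_mul, ← sum_const]
        exact sum_congr rfl fun ω hω => (hX _ (mem_filter.1 hω).2).symm
    _ ≤ ∑ ω : Fin N → Ω, ∏ i, α (x i + ι (ω i)) :=
        sum_le_sum_of_subset_of_nonneg (filter_subset _ _)
          (fun x _ _ => prod_nonneg fun i _ => h0 _)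
    _ = ∏ i, ∑ ω, α (x i + ι ω) := by
        rw [← Fintype.piFinset_univ, ← prod_univ_sum (fun _ : Fin N => (univ : Finset Ω))
          (fun i ω => α (x i + ι ω))]
    _ ≤ 1 := prod_le_one (fun i _ => sum_nonneg fun _ _ => h0 _) (fun i _ => h1 _)

end Types2

section Rot2

variable {G Ω : Type} [AddCommGroup G] [Fintype G] [DecidableEq G] [Fintype Ω] [DecidableEq Ω]

theorem rotate2 (h2 : ∀ x : G, x + x = 0) (ι : Ω → G) (T : Finset (Ω × G × G))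
    (hT : SFree T) :
    ∃ I : Finset ((Ω × Ω × Ω) × (G × G × G) × (G × G × G)),
      SFree I ∧
      #T ^ 3 ≤ #I ∧ ∀ e ∈ I, (e.1.1, e.2.1.1, e.2.2.1) ∈ T ∧
        (e.1.2.1, e.2.1.2.1 + e.2.2.2.1 + ι e.1.2.1, e.2.1.2.1) ∈ T ∧
        (e.1.2.2, e.2.2.2.2, e.2.1.2.2 + e.2.2.2.2 + ι e.1.2.2) ∈ T := by
  classical
  have c2 : ∀ a b : G, a + b + b = a := fun a b => by rw [add_assoc, h2, add_zero]
  have hT' : ∀ t x y z, z ≠ 0 → (t, x, y) ∈ T → (t, x, y + z) ∈ T → (t, x + z, y) ∈ T → False :=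
    fun t x y z hz a b c => hT t x y z hz ⟨a, b, c⟩
  refine ⟨univ.filter (fun e : (Ω × Ω × Ω) × (G × G × G) × (G × G × G) =>
      (e.1.1, e.2.1.1, e.2.2.1) ∈ T ∧
        (e.1.2.1, e.2.1.2.1 + e.2.2.2.1 + ι e.1.2.1, e.2.1.2.1) ∈ T ∧
        (e.1.2.2, e.2.2.2.2, e.2.1.2.2 + e.2.2.2.2 + ι e.1.2.2) ∈ T), ?_, ?_,
      fun t ht => (mem_filter.1 ht).2⟩
  · rintro ⟨t1, t2, t3⟩ ⟨x1, x2, x3⟩ ⟨y1, y2, y3⟩ ⟨z1, z2, z3⟩ hz ⟨g1, g2, g3⟩
    simp only [mem_filter, mem_univ, true_and, Prod.mk_add_mk] at g1 g2 g3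
    have k1 : z1 = 0 := by
      by_contra h
      exact hT' t1 x1 y1 z1 h g1.1 g2.1 g3.1
    have k2 : z2 = 0 := by
      by_contra h
      refine hT' t2 (x2 + (y2 + z2) + ι t2) x2 z2 h g2.2.1 ?_ ?_
      · have : x2 + (y2 + z2) + ι t2 = x2 + z2 + y2 + ι t2 := by abel
        rw [this]; exact g3.2.1
      · have : x2 + (y2 + z2) + ι t2 + z2 = x2 + y2 + ι t2 + z2 + z2 := by abel
        rw [this, c2]; exact g1.2.1
    have k3 : z3 = 0 := by
      by_contra h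
      refine hT' t3 y3 (x3 + z3 + y3 + ι t3) z3 h g3.2.2 ?_ ?_
      · have : x3 + z3 + y3 + ι t3 + z3 = x3 + y3 + ι t3 + z3 + z3 := by abel
        rw [this, c2]; exact g1.2.2
      · have : x3 + z3 + y3 + ι t3 = x3 + (y3 + z3) + ι t3 := by abel
        rw [this]; exact g2.2.2
    exact hz (by rw [k1, k2, k3]; rfl)
  · have : #T ^ 3 = #(T ×ˢ T ×ˢ T) := by rw [card_product, card_product]; ring
    rw [this]
    refine card_le_card_of_injOn
      (fun u => ((u.1.1, u.2.1.1, u.2.2.1),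
        (u.1.2.1, u.2.1.2.2, u.2.2.2.1 + u.2.2.2.2 + ι u.2.2.1),
        (u.1.2.2, u.2.1.2.1 + u.2.1.2.2 + ι u.2.1.1, u.2.2.2.1))) ?_ ?_
    · rintro ⟨⟨t1, a1, b1⟩, ⟨t2, a2, b2⟩, ⟨t3, a3, b3⟩⟩ hu
      simp only [coe_product, Set.mem_prod, mem_coe] at hu
      simp only [coe_filter, mem_univ, true_and, Set.mem_ofPred_eq]
      refine ⟨hu.1, ?_, ?_⟩
      · have : b2 + (a2 + b2 + ι t2) + ι t2 = a2 + b2 + b2 + ι t2 + ι t2 := by abel
        rw [this, c2, c2]; exact hu.2.1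
      · have : a3 + b3 + ι t3 + a3 + ι t3 = b3 + a3 + a3 + ι t3 + ι t3 := by abel
        rw [this, c2, c2]; exact hu.2.2
    · rintro ⟨⟨t1, a1, b1⟩, ⟨t2, a2, b2⟩, ⟨t3, a3, b3⟩⟩ -
        ⟨⟨t4, a4, b4⟩, ⟨t5, a5, b5⟩, ⟨t6, a6, b6⟩⟩ - h
      simp only [Prod.mk.injEq] at h ⊢
      obtain ⟨⟨d1, d2, d3⟩, ⟨e1, e2, e3⟩, e4, e5, e6⟩ := h
      subst d1 d2 d3 e1 e2 e4 e6
      exact ⟨⟨rfl, rfl, rfl⟩, ⟨rfl, add_right_cancel (add_right_cancel e5), rfl⟩, rfl, rfl,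
        add_left_cancel (add_right_cancel e3)⟩

omit [Fintype G] [DecidableEq Ω] in
theorem card_fib_prod (ι : Ω → G) (X Y W : Finset G) (s t u : ℝ) (ht : 0 ≤ t)
    (hu : 0 ≤ u) (hX : ∀ x, (#{ω : Ω | x + ι ω ∈ X} : ℝ) * s ≤ 1)
    (hY : ∀ x, (#{ω : Ω | x + ι ω ∈ Y} : ℝ) * t ≤ 1)
    (hW : ∀ x, (#{ω : Ω | x + ι ω ∈ W} : ℝ) * u ≤ 1) (x : G × G × G) :
    (#{ω : Ω × Ω × Ω | x + (ι ω.1, ι ω.2.1, ι ω.2.2) ∈ X ×ˢ Y ×ˢ W} : ℝ) * (s * t * u) ≤ 1 := by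
  have : ({ω : Ω × Ω × Ω | x + (ι ω.1, ι ω.2.1, ι ω.2.2) ∈ X ×ˢ Y ×ˢ W} : Finset _) =
      ({ω : Ω | x.1 + ι ω ∈ X} : Finset _) ×ˢ ({ω : Ω | x.2.1 + ι ω ∈ Y} : Finset _) ×ˢ
        ({ω : Ω | x.2.2 + ι ω ∈ W} : Finset _) := by
    ext ω
    simp [mem_product]
  rw [this, card_product, card_product]
  push_cast
  have e : ∀ a b c : ℝ, a * (b * c) * (s * t * u) = (a * s) * (b * t) * (c * u) := by
    intro a b c; ring
  rw [e]
  exact mul_le_one₀ (mul_le_one₀ (hX _) (by positivity) (hY _)) (by positivity) (hW _)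

end Rot2

theorem exists_N2 (Y : ℝ) (hY : 1 < Y) (d q : ℕ) (κ M : ℝ) (hκ : 0 < κ) (hM : 0 < M) :
    ∃ N : ℕ, M * ((N : ℝ) + 1) ^ d * Real.exp (4 * √(κ * N + 1)) ^ q ≤ Y ^ (3 * N) := by
  have hlog : 0 < Real.log Y := Real.log_pos hY
  set δ : ℝ := Real.log Y / (4 * (q + 1) * κ) with hδ
  have hδ0 : 0 < δ := by positivity
  obtain ⟨N, hN⟩ := exists_N Y hY d (M * Real.exp (q * (4 * δ + 1 / δ))) (by positivity)
  refine ⟨N, ?_⟩
  have h1 : 4 * √(κ * N + 1) ≤ 4 * δ * (κ * N + 1) + 1 / δ := by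
    have hx : (0 : ℝ) ≤ κ * N + 1 := by positivity
    have hs := Real.sq_sqrt hx
    have : 0 ≤ (2 * δ * √(κ * N + 1) - 1) ^ 2 / δ := by positivity
    have e : (2 * δ * √(κ * N + 1) - 1) ^ 2 / δ
        = 4 * δ * √(κ * N + 1) ^ 2 - 4 * √(κ * N + 1) + 1 / δ := by
      field_simp; ring
    rw [e, hs] at this
    linarith
  have h2 : (q : ℝ) * (4 * δ * κ) ≤ Real.log Y := by
    have : (q : ℝ) * (4 * δ * κ) = Real.log Y * (q / (q + 1)) := by
      rw [hδ]; field_simp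
    rw [this]
    exact mul_le_of_le_one_right hlog.le (by rw [div_le_one (by positivity)]; linarith)
  have h3 : Real.exp (4 * √(κ * N + 1)) ^ q ≤ Real.exp (q * (4 * δ + 1 / δ)) * Y ^ N := by
    rw [← Real.exp_nat_mul, ← Real.exp_log (show 0 < Y by linarith), ← Real.exp_nat_mul,
      ← Real.exp_add]
    refine Real.exp_le_exp.2 ?_
    have a1 := mul_le_mul_of_nonneg_left h1 (Nat.cast_nonneg (α := ℝ) q)
    have a2 := mul_le_mul_of_nonneg_left h2 (Nat.cast_nonneg (α := ℝ) N)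
    nlinarith
  calc M * ((N : ℝ) + 1) ^ d * Real.exp (4 * √(κ * N + 1)) ^ q
      ≤ M * ((N : ℝ) + 1) ^ d * (Real.exp (q * (4 * δ + 1 / δ)) * Y ^ N) := by gcongr
    _ = M * Real.exp (q * (4 * δ + 1 / δ)) * ((N : ℝ) + 1) ^ d * Y ^ N := by ring
    _ ≤ Y ^ N * Y ^ N := by gcongr
    _ = Y ^ (2 * N) := by rw [← pow_add]; congr 1; ring
    _ ≤ Y ^ (3 * N) := pow_le_pow_right₀ hY.le (by omega)

theorem final_alg (two A Zp P T t u O L1 L2 c4 c36 c18 E Oq : ℝ) (h1 : 0 ≤ two) (h2 : 0 < P)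
    (h3 : 0 ≤ T) (_h4 : 0 ≤ t) (h5 : 0 ≤ u) (h6 : 0 ≤ O) (h7 : 0 ≤ L1) (h8 : 0 < c4)
    (h9 : 0 < c36) (h10 : 0 < c18) (h11 : 0 < E) (h12 : 0 < Oq)
    (F2 : Zp ≤ P * (T * (t * u))) (F3 : two * t ≤ c36 * L1) (F4 : O * u ≤ c18 * L2)
    (F5 : c4 * c36 * c18 * P * E * Oq ≤ Zp * O) (F6 : L1 * L2 * T ≤ c4 * Oq * E * A) :
    two ≤ A := by
  have K0 : 0 < c4 * c36 * c18 * P * E * Oq := by positivity
  refine le_of_mul_le_mul_right ?_ K0
  calc two * (c4 * c36 * c18 * P * E * Oq) ≤ two * (Zp * O) := by gcongr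
    _ ≤ two * (P * (T * (t * u)) * O) := by gcongr
    _ = P * T * (two * t) * (O * u) := by ring
    _ ≤ P * T * (c36 * L1) * (c18 * L2) := by gcongr
    _ = P * c36 * c18 * (L1 * L2 * T) := by ring
    _ ≤ P * c36 * c18 * (c4 * Oq * E * A) := by gcongr
    _ = _ := by ring

set_option maxHeartbeats 2000000 in
theorem label_main {V Ω : Type} [AddCommGroup V] [Module (ZMod 2) V] [Fintype V] [DecidableEq V]
    [AddCommGroup Ω] [Fintype Ω] [DecidableEq Ω] (ι : Ω →+ V)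
    (S : Finset (Ω × V × V)) (f0 f1 f2 : Ω × V × V → ℤ)
    (hsum : ∀ p, f0 p + f1 p + f2 p = 0)
    (htri : ∀ t x y z, z ≠ 0 → (t, x, y) ∈ S → (t, x, y + z) ∈ S → (t, x + z, y) ∈ S →
      0 < f0 (t, x, y) + f1 (t, x, y + z) + f2 (t, x + z, y))
    (a b c α β γ α' β' γ' : V → ℝ)
    (ha0 : ∀ x, 0 ≤ a x) (hb0 : ∀ x, 0 ≤ b x) (hc0 : ∀ x, 0 ≤ c x)
    (hα0 : ∀ x, 0 < α x) (hβ0 : ∀ x, 0 < β x) (hγ0 : ∀ x, 0 < γ x)
    (hα0' : ∀ x, 0 < α' x) (hβ0' : ∀ x, 0 < β' x) (hγ0' : ∀ x, 0 < γ' x)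
    (hα : ∑ x, α x ≤ 1) (hβ : ∑ x, β x ≤ 1) (hγ : ∑ x, γ x ≤ 1)
    (hα' : ∀ x, ∑ ω, α' (x + ι ω) ≤ 1) (hβ' : ∀ x, ∑ ω, β' (x + ι ω) ≤ 1)
    (hγ' : ∀ x, ∑ ω, γ' (x + ι ω) ≤ 1) (q r s : ℕ) (hq : 0 < q) (hrs : r + s = 2 * q)
    (ha : ∀ x, a x ^ (3 * q) ≤ α x ^ r * α' x ^ s) (hb : ∀ x, b x ^ (3 * q) ≤ β x ^ r * β' x ^ s)
    (hc : ∀ x, c x ^ (3 * q) ≤ γ x ^ r * γ' x ^ s)
    (hZ : (Fintype.card Ω : ℝ) ^ q <
      (∑ p ∈ S, a p.2.1 * b p.2.2 * c (p.2.1 + p.2.2 + ι p.1)) ^ q * Fintype.card Ω ^ s) :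
    ∃ m : ℕ, 0 < m ∧ ∃ A : Finset ((Fin m → ZMod 2) × (Fin m → ZMod 2)),
      CFree A ∧ (2 : ℝ) ^ (m * r) ≤ (#A : ℝ) ^ q := by
  classical
  set Z := ∑ p ∈ S, a p.2.1 * b p.2.2 * c (p.2.1 + p.2.2 + ι p.1) with hZd
  set o : ℝ := (Fintype.card Ω : ℝ) with ho
  have o1 : (1 : ℝ) ≤ o := by rw [ho]; exact_mod_cast Fintype.card_pos
  have o0 : (0 : ℝ) < o := by linarith
  have Z0 : 0 ≤ Z := sum_nonneg fun p _ => mul_nonneg (mul_nonneg (ha0 _) (hb0 _)) (hc0 _)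
  have Zpos : 0 < Z := by
    rcases Z0.lt_or_eq with h | h
    · exact h
    · rw [← h, zero_pow hq.ne', zero_mul] at hZ
      exact absurd hZ (not_lt.2 (by positivity))
  obtain ⟨N, hN⟩ := exists_N2 (Z ^ q * o ^ s / o ^ q) (by rwa [one_lt_div (by positivity)])
    (Fintype.card (Ω × V × V) * (3 * q)) q (3 * o) (4 ^ q * 36 ^ r * 18 ^ s) (by positivity)
    (by positivity)
  obtain ⟨T, p0, hT, hsame, hbig⟩ := type_class2 S f0 f1 f2 hsum htri
    (fun p => a p.2.1 * b p.2.2 * c (p.2.1 + p.2.2 + ι p.1)) Zpos N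
  have h2 : ∀ x : Fin N → V, x + x = 0 := fun x => by
    rw [← two_smul (ZMod 2) x, show (2 : ZMod 2) = 0 from rfl, zero_smul]
  have h3 : ∀ x : (Fin N → V) × (Fin N → V) × (Fin N → V), x + x = 0 := fun x => by
    rw [← two_smul (ZMod 2) x, show (2 : ZMod 2) = 0 from rfl, zero_smul]
  have c2 : ∀ u v : Fin N → V, u + v + v = u := fun u v => by rw [add_assoc, h2, add_zero]
  let ι1 : (Fin N → Ω) →+ (Fin N → V) := ι.compLeft (Fin N)
  let ι3 := ι1.prodMap (ι1.prodMap ι1)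
  obtain ⟨I, hI, hcard3, hmem3⟩ := rotate2 h2 ι1 T hT
  set tα := ∏ i, α (p0 i).2.1 with htα
  set tβ := ∏ i, β (p0 i).2.2 with htβ
  set tγ := ∏ i, γ ((p0 i).2.1 + (p0 i).2.2 + ι (p0 i).1) with htγ
  set uα := ∏ i, α' (p0 i).2.1 with huα
  set uβ := ∏ i, β' (p0 i).2.2 with huβ
  set uγ := ∏ i, γ' ((p0 i).2.1 + (p0 i).2.2 + ι (p0 i).1) with huγ
  set w0 := ∏ i, a (p0 i).2.1 * b (p0 i).2.2 * c ((p0 i).2.1 + (p0 i).2.2 + ι (p0 i).1) with hw0
  have pα : 0 < tα := prod_pos fun i _ => hα0 _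
  have pβ : 0 < tβ := prod_pos fun i _ => hβ0 _
  have pγ : 0 < tγ := prod_pos fun i _ => hγ0 _
  have qα : 0 < uα := prod_pos fun i _ => hα0' _
  have qβ : 0 < uβ := prod_pos fun i _ => hβ0' _
  have qγ : 0 < uγ := prod_pos fun i _ => hγ0' _
  have le1 : ∀ (δ : V → ℝ), (∀ x, 0 < δ x) → ∑ x, δ x ≤ 1 → ∀ u : Fin N → V, ∏ i, δ (u i) ≤ 1 :=
    fun δ h0 h1 u => prod_le_one (fun i _ => (h0 _).le) (fun i _ =>
      (single_le_sum (f := δ) (fun x _ => (h0 x).le) (mem_univ _)).trans h1)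
  have le2 : ∀ (δ : V → ℝ), (∀ x, 0 < δ x) → (∀ x, ∑ ω, δ (x + ι ω) ≤ 1) →
      ∀ u : Fin N → V, ∏ i, δ (u i) ≤ 1 :=
    fun δ h0 h1 u => prod_le_one (fun i _ => (h0 _).le) (fun i _ => by
      have := (single_le_sum (f := fun ω => δ (u i + ι ω)) (fun x _ => (h0 _).le)
        (mem_univ (0 : Ω))).trans (h1 (u i))
      simpa using this)
  set X : Finset (Fin N → V) := {x | ∏ i, α (x i) = tα ∧ ∏ i, α' (x i) = uα} with hX
  set Y : Finset (Fin N → V) := {x | ∏ i, β (x i) = tβ ∧ ∏ i, β' (x i) = uβ} with hY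
  set W : Finset (Fin N → V) := {x | ∏ i, γ (x i) = tγ ∧ ∏ i, γ' (x i) = uγ} with hW
  have cl : ∀ (δ δ' : V → ℝ) (t u : ℝ), (∀ x, 0 < δ x) → ∑ x, δ x ≤ 1 → 0 < t →
      (#{x : Fin N → V | ∏ i, δ (x i) = t ∧ ∏ i, δ' (x i) = u} : ℝ) * t ≤ 1 := by
    intro δ δ' t u h0 h1 ht
    refine le_trans (mul_le_mul_of_nonneg_right ?_ ht.le)
      (card_level δ (fun x => (h0 x).le) h1 N t)
    refine Nat.cast_le.2 (card_le_card fun x hx => ?_)
    simp only [mem_filter, mem_univ, true_and] at hx ⊢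
    exact hx.1
  have cX : (#X : ℝ) * tα ≤ 1 := cl α α' _ _ hα0 hα pα
  have cY : (#Y : ℝ) * tβ ≤ 1 := cl β β' _ _ hβ0 hβ pβ
  have cW : (#W : ℝ) * tγ ≤ 1 := cl γ γ' _ _ hγ0 hγ pγ
  have fX : ∀ x, (#{ω : Fin N → Ω | x + ι1 ω ∈ X} : ℝ) * uα ≤ 1 :=
    card_level2 ι α' (fun x => (hα0' x).le) hα' N uα X (fun x hx => (mem_filter.1 hx).2.2)
  have fY : ∀ x, (#{ω : Fin N → Ω | x + ι1 ω ∈ Y} : ℝ) * uβ ≤ 1 :=
    card_level2 ι β' (fun x => (hβ0' x).le) hβ' N uβ Y (fun x hx => (mem_filter.1 hx).2.2)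
  have fW : ∀ x, (#{ω : Fin N → Ω | x + ι1 ω ∈ W} : ℝ) * uγ ≤ 1 :=
    card_level2 ι γ' (fun x => (hγ0' x).le) hγ' N uγ W (fun x hx => (mem_filter.1 hx).2.2)
  have hXYW : ∀ e ∈ T, e.2.1 ∈ X ∧ e.2.2 ∈ Y ∧ e.2.1 + e.2.2 + ι1 e.1 ∈ W := fun e he =>
    ⟨mem_filter.2 ⟨mem_univ _, hsame e he (fun p => α p.2.1), hsame e he (fun p => α' p.2.1)⟩,
     mem_filter.2 ⟨mem_univ _, hsame e he (fun p => β p.2.2), hsame e he (fun p => β' p.2.2)⟩,
     mem_filter.2 ⟨mem_univ _, hsame e he (fun p => γ (p.2.1 + p.2.2 + ι p.1)),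
      hsame e he (fun p => γ' (p.2.1 + p.2.2 + ι p.1))⟩⟩
  set t := tα * tβ * tγ with ht
  set u := uα * uβ * uγ with hu
  have pt : 0 < t := by positivity
  have pu : 0 < u := by positivity
  have t1 : t ≤ 1 :=
    mul_le_one₀ (mul_le_one₀ (le1 α hα0 hα (fun i => (p0 i).2.1)) pβ.le
      (le1 β hβ0 hβ (fun i => (p0 i).2.2))) pγ.le
      (le1 γ hγ0 hγ (fun i => (p0 i).2.1 + (p0 i).2.2 + ι (p0 i).1))
  have u1 : u ≤ 1 :=
    mul_le_one₀ (mul_le_one₀ (le2 α' hα0' hα' (fun i => (p0 i).2.1)) qβ.le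
      (le2 β' hβ0' hβ' (fun i => (p0 i).2.2))) qγ.le
      (le2 γ' hγ0' hγ' (fun i => (p0 i).2.1 + (p0 i).2.2 + ι (p0 i).1))
  have cP : (#X : ℝ) * #Y * #W * t ≤ 1 := by
    have : (#X : ℝ) * #Y * #W * t = (#X * tα) * (#Y * tβ) * (#W * tγ) := by rw [ht]; ring
    rw [this]
    exact mul_le_one₀ (mul_le_one₀ cX (by positivity) cY) (by positivity) cW
  set O : ℝ := o ^ (3 * N) with hO
  have hOc : (Fintype.card ((Fin N → Ω) × (Fin N → Ω) × (Fin N → Ω)) : ℝ) = O := by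
    simp only [Fintype.card_prod, Fintype.card_fun, Fintype.card_fin, hO, ho]
    push_cast
    ring
  have O1 : (1 : ℝ) ≤ O := one_le_pow₀ o1
  set l := ⌊O * u / 18⌋₊ with hl
  have hl1 : (l : ℝ) ≤ O * u / 18 := Nat.floor_le (by positivity)
  have hl2 : O * u / 18 < l + 1 := Nat.lt_floor_add_one _
  obtain ⟨B, hB, hBc, hB3⟩ := rothNumberNat_spec (l + 1)
  obtain ⟨A1, E1, E2, E3, hA1, hE, cE1, cE2, cE3, cA1⟩ := label h3 ι3 I hI
    (X ×ˢ Y ×ˢ W) (Y ×ˢ W ×ˢ X) (W ×ˢ X ×ˢ Y)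
    (fun e he => by
      obtain ⟨e1, e2, e3⟩ := hmem3 e he
      have g1 := hXYW _ e1
      have g2 := hXYW _ e2
      have g3 := hXYW _ e3
      simp only at g1 g2 g3
      have k2 : e.2.1.2.1 + e.2.2.2.1 + ι1 e.1.2.1 + e.2.1.2.1 + ι1 e.1.2.1
          = e.2.2.2.1 + e.2.1.2.1 + e.2.1.2.1 + ι1 e.1.2.1 + ι1 e.1.2.1 := by abel
      have k3 : e.2.2.2.2 + (e.2.1.2.2 + e.2.2.2.2 + ι1 e.1.2.2) + ι1 e.1.2.2
          = e.2.1.2.2 + e.2.2.2.2 + e.2.2.2.2 + ι1 e.1.2.2 + ι1 e.1.2.2 := by abel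
      rw [k2, c2, c2] at g2
      rw [k3, c2, c2] at g3
      simp only [mem_product, Prod.fst_add, Prod.snd_add]
      exact ⟨⟨g1.1, g2.2.1, g3.2.2⟩, ⟨g1.2.1, g2.2.2, g3.1⟩, g1.2.2, g2.1, g3.2.1⟩)
    u pu (card_fib_prod ι1 X Y W _ _ _ qβ.le qγ.le fX fY fW)
    (fun x => by
      have := card_fib_prod ι1 Y W X _ _ _ qγ.le qα.le fY fW fX x
      rwa [show uβ * uγ * uα = u by rw [hu]; ring] at this)
    (fun x => by
      have := card_fib_prod ι1 W X Y _ _ _ qα.le qβ.le fW fX fY x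
      rwa [show uγ * uα * uβ = u by rw [hu]; ring] at this)
    l (by rw [hOc]; linarith) B hB hB3
  set L : ℝ := l + 1 with hL
  have L1 : (1 : ℝ) ≤ L := by rw [hL]; linarith [Nat.cast_nonneg (α := ℝ) l]
  obtain ⟨n, hn1, hn2⟩ := exists_nat_pow_near (x := 18 * L / t) (y := (2 : ℝ))
    (by rw [le_div_iff₀ pt]; linarith) (by norm_num)
  have hsz : 6 * ((3 * l + 1) * (#X * #Y * #W)) ≤ 2 ^ (n + 1) := by
    have : (6 : ℝ) * ((3 * l + 1) * (#X * #Y * #W)) ≤ 2 ^ (n + 1) := by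
      refine le_trans ?_ hn2.le
      rw [le_div_iff₀ pt]
      have e : (6 : ℝ) * ((3 * l + 1) * (#X * #Y * #W)) * t
          = 6 * (3 * l + 1) * (#X * #Y * #W * t) := by ring
      rw [e]
      refine (mul_le_of_le_one_right (by positivity) cP).trans ?_
      rw [hL]; linarith
    exact_mod_cast this
  rw [card_product, card_product] at cE1 cE2 cE3
  obtain ⟨A, hA, hAc⟩ := hash (n + 1) A1 hA1 E1 E2 E3 hE
    (le_trans (Nat.mul_le_mul_left 6 (cE1.trans (le_of_eq (by ring)))) hsz)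
    (le_trans (Nat.mul_le_mul_left 6 (cE2.trans (le_of_eq (by ring)))) hsz)
    (le_trans (Nat.mul_le_mul_left 6 (cE3.trans (le_of_eq (by ring)))) hsz)
  refine ⟨n + 1, Nat.succ_pos n, A, hA, ?_⟩
  have w00 : 0 ≤ w0 := prod_nonneg fun i _ => mul_nonneg (mul_nonneg (ha0 _) (hb0 _)) (hc0 _)
  have hw : w0 ^ (3 * q) ≤ t ^ r * u ^ s := by
    rw [hw0, ht, hu, htα, htβ, htγ, huα, huβ, huγ]
    simp only [← prod_mul_distrib, ← prod_pow]
    refine prod_le_prod (fun i _ =>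
      pow_nonneg (mul_nonneg (mul_nonneg (ha0 _) (hb0 _)) (hc0 _)) _) (fun i _ => ?_)
    have e : ∀ x y z x' y' z' : ℝ, (x * y * z) ^ r * (x' * y' * z') ^ s
        = (x ^ r * x' ^ s) * (y ^ r * y' ^ s) * (z ^ r * z' ^ s) := by
      intro x y z x' y' z'; simp only [mul_pow]; ring
    rw [e, mul_pow, mul_pow]
    have n1 := mul_nonneg (pow_nonneg (hα0 (p0 i).2.1).le r) (pow_nonneg (hα0' (p0 i).2.1).le s)
    have n2 := mul_nonneg (pow_nonneg (hβ0 (p0 i).2.2).le r) (pow_nonneg (hβ0' (p0 i).2.2).le s)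
    exact mul_le_mul (mul_le_mul (ha _) (hb _) (pow_nonneg (hb0 _) _) n1) (hc _)
      (pow_nonneg (hc0 _) _) (mul_nonneg n1 n2)
  set E : ℝ := Real.exp (4 * √(3 * o * N + 1)) with hE'
  set P : ℝ := ((N : ℝ) + 1) ^ Fintype.card (Ω × V × V) with hP
  have E0 : 0 < E := Real.exp_pos _
  have P0 : 0 < P := by positivity
  have hLE : L ≤ #B * E := by
    have hb := Behrend.roth_lower_bound (N := l + 1)
    rw [← hBc] at hb
    push_cast at hb
    rw [← hL] at hb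
    have hlog : Real.log L ≤ 3 * o * N + 1 := by
      have e1 : L ≤ O * 2 := by
        rw [hL]
        have : O * u ≤ O := mul_le_of_le_one_right (by linarith) u1
        linarith
      have e2 : Real.log L ≤ Real.log (O * 2) := Real.log_le_log (by linarith) e1
      rw [Real.log_mul (by linarith) (by norm_num), hO, Real.log_pow] at e2
      have e3 : Real.log o ≤ o := (Real.log_le_sub_one_of_pos o0).trans (by linarith)
      have e4 : Real.log 2 ≤ 1 := (Real.log_le_sub_one_of_pos (by norm_num)).trans (by norm_num)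
      have e5 := mul_le_mul_of_nonneg_left e3 (Nat.cast_nonneg (α := ℝ) (3 * N))
      push_cast at e2 e5
      linarith
    have h4 : 1 ≤ Real.exp (-4 * √(Real.log L)) * E := by
      rw [hE', ← Real.exp_add]
      refine Real.one_le_exp ?_
      have := Real.sqrt_le_sqrt hlog
      linarith
    calc L ≤ L * (Real.exp (-4 * √(Real.log L)) * E) := le_mul_of_one_le_right (by linarith) h4
      _ = L * Real.exp (-4 * √(Real.log L)) * E := by ring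
      _ ≤ _ := mul_le_mul_of_nonneg_right hb E0.le
  have F1 : L ^ 2 * (#T : ℝ) ^ 3 ≤ 4 * O * E * #A := by
    have a1 : L * #B * #I ≤ 2 * O * #A1 := by
      rw [← hOc, hL]; exact_mod_cast cA1
    have a2 : (#A1 : ℝ) ≤ 2 * #A := by exact_mod_cast hAc
    have a3 : (#T : ℝ) ^ 3 ≤ #I := by exact_mod_cast hcard3
    calc L ^ 2 * (#T : ℝ) ^ 3 = L * L * (#T : ℝ) ^ 3 := by ring
      _ ≤ L * (#B * E) * #I := by gcongr
      _ = L * #B * #I * E := by ring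
      _ ≤ 2 * O * #A1 * E := by gcongr
      _ ≤ 2 * O * (2 * #A) * E := by gcongr
      _ = _ := by ring
  have F2 : Z ^ (N * (3 * q)) ≤ P ^ (3 * q) * (((#T : ℝ) ^ 3) ^ q * (t ^ r * u ^ s)) := by
    calc Z ^ (N * (3 * q)) = (Z ^ N) ^ (3 * q) := pow_mul _ _ _
      _ ≤ (P * (#T * w0)) ^ (3 * q) := pow_le_pow_left₀ (by positivity) hbig _
      _ = P ^ (3 * q) * (((#T : ℝ) ^ 3) ^ q * w0 ^ (3 * q)) := by
          rw [mul_pow, mul_pow, pow_mul (#T : ℝ)]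
      _ ≤ _ := by gcongr
  have F3 : (2 : ℝ) ^ ((n + 1) * r) * t ^ r ≤ 36 ^ r * L ^ r := by
    rw [pow_mul, ← mul_pow, ← mul_pow]
    refine pow_le_pow_left₀ (by positivity) ?_ _
    rw [le_div_iff₀ pt] at hn1
    rw [pow_succ]; linarith
  have F4 : O ^ s * u ^ s ≤ 18 ^ s * L ^ s := by
    rw [← mul_pow, ← mul_pow]
    refine pow_le_pow_left₀ (by positivity) ?_ _
    rw [div_lt_iff₀ (by norm_num)] at hl2
    linarith
  have F5 : 4 ^ q * 36 ^ r * 18 ^ s * P ^ (3 * q) * E ^ q * O ^ q ≤ Z ^ (N * (3 * q)) * O ^ s := by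
    have e : (Z ^ q * o ^ s / o ^ q) ^ (3 * N) = Z ^ (N * (3 * q)) * O ^ s / O ^ q := by
      rw [div_pow, mul_pow, hO]
      simp only [← pow_mul]
      rw [show q * (3 * N) = N * (3 * q) by ring, show s * (3 * N) = 3 * N * s by ring,
        show 3 * N * q = N * (3 * q) by ring]
    rw [e, le_div_iff₀ (by positivity), pow_mul] at hN
    exact hN
  have F6 : L ^ r * L ^ s * ((#T : ℝ) ^ 3) ^ q ≤ 4 ^ q * O ^ q * E ^ q * (#A : ℝ) ^ q := by
    rw [← pow_add, hrs, pow_mul, ← mul_pow, ← mul_pow, ← mul_pow, ← mul_pow]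
    exact pow_le_pow_left₀ (by positivity) F1 _
  exact final_alg _ _ _ _ _ _ _ _ _ _ _ _ _ _ _ (by positivity) (by positivity) (by positivity)
    (by positivity) (by positivity) (by positivity) (by positivity) (by positivity)
    (by positivity) (by positivity) (by positivity) (by positivity) F2 F3 F4 F5 F6

theorem cu_main {V : Type} [AddCommGroup V] [Module (ZMod 2) V] [Fintype V] [DecidableEq V]
    (S : Finset (V × V)) (f0 f1 f2 : V × V → ℤ) (hsum : ∀ p, f0 p + f1 p + f2 p = 0)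
    (htri : ∀ x y z, z ≠ 0 → (x, y) ∈ S → (x, y + z) ∈ S → (x + z, y) ∈ S →
      0 < f0 (x, y) + f1 (x, y + z) + f2 (x + z, y))
    (a b α β : V → ℝ) (c : ℝ) (ha0 : ∀ x, 0 ≤ a x) (hb0 : ∀ x, 0 ≤ b x) (hc0 : 0 ≤ c)
    (hα0 : ∀ x, 0 < α x) (hβ0 : ∀ x, 0 < β x) (hα : ∑ x, α x ≤ 1) (hβ : ∑ x, β x ≤ 1)
    (ha : ∀ x, a x ^ 3 ≤ α x ^ 2) (hb : ∀ x, b x ^ 3 ≤ β x ^ 2)
    (hc : c ^ 3 ≤ (1 / Fintype.card V) ^ 2) (q r : ℕ) (hq : 0 < q) (hr : r ≤ 2 * q)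
    (hZ : (Fintype.card V : ℝ) ^ r < (c * (∑ p ∈ S, a p.1 * b p.2) * Fintype.card V ^ 2) ^ q) :
    ∃ m : ℕ, 0 < m ∧ ∃ A : Finset ((Fin m → ZMod 2) × (Fin m → ZMod 2)),
      CFree A ∧ (2 : ℝ) ^ (m * r) ≤ (#A : ℝ) ^ q := by
  classical
  obtain ⟨s, hs⟩ := Nat.exists_eq_add_of_le hr
  have o0 : (0 : ℝ) < Fintype.card V := by exact_mod_cast Fintype.card_pos
  have sh : ∀ (δ : V → ℝ) (x : V), ∑ ω, δ (x + (AddMonoidHom.id V) ω) = ∑ x, δ x :=
    fun δ x => Equiv.sum_comp (Equiv.addLeft x) δ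
  have pw : ∀ u v : ℝ, 0 ≤ u → u ^ 3 ≤ v ^ 2 → u ^ (3 * q) ≤ v ^ r * v ^ s := by
    intro u v h0 h
    rw [← pow_add, ← hs, pow_mul, pow_mul]
    exact pow_le_pow_left₀ (by positivity) h _
  have hγ : ∑ _x : V, (1 / Fintype.card V : ℝ) ≤ 1 := by
    rw [sum_const, card_univ, nsmul_eq_mul, mul_one_div_cancel o0.ne']
  refine label_main (AddMonoidHom.id V) (univ ×ˢ S) (fun p => f0 p.2) (fun p => f1 p.2)
    (fun p => f2 p.2) (fun p => hsum _)
    (fun t x y z hz h1 h2 h3 => htri x y z hz (mem_product.1 h1).2 (mem_product.1 h2).2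
      (mem_product.1 h3).2)
    a b (fun _ => c) α β (fun _ => 1 / Fintype.card V) α β (fun _ => 1 / Fintype.card V)
    ha0 hb0 (fun _ => hc0) hα0 hβ0 (fun _ => by positivity) hα0 hβ0 (fun _ => by positivity)
    hα hβ hγ (fun x => (sh α x).le.trans hα) (fun x => (sh β x).le.trans hβ) (fun _ => hγ)
    q r s hq hs.symm (fun x => pw _ _ (ha0 x) (ha x)) (fun x => pw _ _ (hb0 x) (hb x))
    (fun _ => pw _ _ hc0 hc) ?_
  rw [sum_product]
  simp only [sum_const, card_univ, nsmul_eq_mul, ← sum_mul]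
  refine lt_of_mul_lt_mul_right ?_ (pow_nonneg o0.le r)
  calc (Fintype.card V : ℝ) ^ q * Fintype.card V ^ r
      < (Fintype.card V : ℝ) ^ q *
        (c * (∑ p ∈ S, a p.1 * b p.2) * Fintype.card V ^ 2) ^ q := by gcongr
    _ = _ := by
      rw [mul_assoc _ _ ((Fintype.card V : ℝ) ^ r), ← pow_add, add_comm s r, ← hs, pow_mul]
      simp only [mul_pow]
      ring

end Pool.Agent.P.MP_db4732_co.Peel
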