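import Pool.Agent.P.MP_db4732_co.Hash

namespace Pool.Agent.P.MP_db4732_co

open Finset

/-- number of points of a given norm in a residue class -/
theorem card_fiber_le {ι : Type*} [Fintype ι] [DecidableEq ι] (m B : ℕ) (l K : ℝ) (ρ : ℤ)
    (hK : ∀ e : ZMod m, ∑ x ∈ (Icc (-(B : ℤ)) B).filter (fun x : ℤ => (x : ZMod m) = e),
      Real.exp (-l * (x : ℝ) ^ 2) ≤ K)
    (e : ι → ZMod m) :
    (#{a' ∈ ({a ∈ Fintype.piFinset (fun _ : ι => Icc (-(B : ℤ)) B) | nsq a = ρ} : Finset _) |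
      red m a' = e} : ℝ) ≤ K ^ Fintype.card ι * Real.exp (l * ρ) := by
  set S := ({a' ∈ ({a ∈ Fintype.piFinset (fun _ : ι => Icc (-(B : ℤ)) B) | nsq a = ρ} : Finset _) |
      red m a' = e} : Finset _) with hS
  have h1 : (#S : ℝ) * Real.exp (-l * ρ) = ∑ a ∈ S, ∏ i, Real.exp (-l * (a i : ℝ) ^ 2) := by
    rw [← nsmul_eq_mul, ← sum_const]
    refine sum_congr rfl fun a ha => ?_
    simp only [hS, mem_filter] at ha
    rw [← Real.exp_sum, ← mul_sum, ← ha.1.2, nsq]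
    push_cast; rfl
  have h2 : S ⊆ Fintype.piFinset
      (fun i : ι => ({x ∈ Icc (-(B : ℤ)) B | (x : ZMod m) = e i} : Finset ℤ)) := by
    intro a ha
    simp only [hS, mem_filter, Fintype.mem_piFinset] at ha ⊢
    exact fun i => ⟨ha.1.1 i, congrFun ha.2 i⟩
  have h3 : ∑ a ∈ S, ∏ i, Real.exp (-l * (a i : ℝ) ^ 2) ≤ K ^ Fintype.card ι := by
    refine (sum_le_sum_of_subset_of_nonneg h2 fun a _ _ => by positivity).trans ?_
    rw [← prod_univ_sum (fun i : ι => ({x ∈ Icc (-(B : ℤ)) B | (x : ZMod m) = e i} : Finset ℤ))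
      (fun _ x => Real.exp (-l * (x : ℝ) ^ 2))]
    calc _ ≤ ∏ _i : ι, K := prod_le_prod (fun i _ => by positivity) (fun i _ => hK (e i))
      _ = K ^ Fintype.card ι := by simp
  have h4 : (#S : ℝ) = (#S : ℝ) * Real.exp (-l * ρ) * Real.exp (l * ρ) := by
    rw [mul_assoc, ← Real.exp_add]; simp
  rw [h4, h1]
  exact mul_le_mul_of_nonneg_right h3 (Real.exp_pos _).le

theorem abs_le_of_sq_le {x : ℤ} {B : ℕ} (h : x ^ 2 ≤ B) : x ∈ Icc (-(B : ℤ)) B := by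
  rw [mem_Icc]
  constructor <;> nlinarith [sq_nonneg (x - 1), sq_nonneg (x + 1), sq_nonneg x]

theorem final_ineq (Y K l ρ T p A : ℝ) (B k : ℕ) (hY0 : 0 ≤ Y) (hK1 : 1 ≤ K) (_hT : 0 ≤ T)
    (hp : 0 ≤ p) (hA : 0 ≤ A) (hX1 : 1 ≤ K ^ (3 * k) * Real.exp (l * ρ))
    (hT0c : Y ^ k / (k * B + 1) ^ 3 ≤ T * Real.exp (-(2 * l / 3) * ρ))
    (hA3 : T ^ 3 ≤ 2 * p ^ 2 * A)
    (h1 : p ≤ 2 * (6 * (⌊K ^ (3 * k) * Real.exp (l * ρ)⌋₊ : ℝ) + 2 * B + 1)) :
    (Y / K ^ 2) ^ (3 * k) ≤ 8 * (2 * B + 7) ^ 2 * (k * B + 1) ^ 9 * A := by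
  have hM : (0 : ℝ) < (k * B + 1) ^ 3 := by positivity
  have hK0 : 0 < K := by linarith
  have e3 : (K ^ (3 * k) * Real.exp (l * ρ)) ^ 2 * Real.exp (-(2 * l) * ρ)
      = (K ^ 2) ^ (3 * k) := by
    rw [mul_pow, mul_assoc, ← Real.exp_nat_mul, ← Real.exp_add]
    have : ((2 : ℕ) : ℝ) * (l * ρ) + -(2 * l) * ρ = 0 := by push_cast; ring
    rw [this, Real.exp_zero, mul_one, ← pow_mul, ← pow_mul, mul_comm]
  generalize K ^ (3 * k) * Real.exp (l * ρ) = X at hX1 h1 e3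
  have hpX : p ≤ 2 * (2 * B + 7) * X := by
    have h2 : (⌊X⌋₊ : ℝ) ≤ X := Nat.floor_le (by linarith)
    have h3 : (0 : ℝ) ≤ B := Nat.cast_nonneg B
    nlinarith
  have e1 : Y ^ k ≤ (k * B + 1) ^ 3 * (T * Real.exp (-(2 * l / 3) * ρ)) := by
    rwa [div_le_iff₀' hM] at hT0c
  have e0 : Real.exp (-(2 * l / 3) * ρ) ^ 3 = Real.exp (-(2 * l) * ρ) := by
    rw [← Real.exp_nat_mul]
    congr 1
    push_cast; ring
  have hE : 0 < Real.exp (-(2 * l / 3) * ρ) := Real.exp_pos _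
  have hE' : 0 < Real.exp (-(2 * l) * ρ) := Real.exp_pos _
  generalize Real.exp (-(2 * l / 3) * ρ) = E at e1 e0 hE
  generalize Real.exp (-(2 * l) * ρ) = E' at e3 e0 hE'
  have hQ : (0 : ℝ) < k * B + 1 := by positivity
  generalize (k * B + 1 : ℝ) = Q at e1 hQ ⊢
  have e2 : Y ^ (3 * k) ≤ Q ^ 9 * T ^ 3 * E' := by
    calc Y ^ (3 * k) = (Y ^ k) ^ 3 := by rw [← pow_mul, mul_comm]
      _ ≤ (Q ^ 3 * (T * E)) ^ 3 := pow_le_pow_left₀ (by positivity) e1 3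
      _ = Q ^ 9 * T ^ 3 * E' := by rw [← e0]; ring
  rw [div_pow, div_le_iff₀ (by positivity), ← e3]
  have e4 : T ^ 3 ≤ 2 * (2 * (2 * B + 7) * X) ^ 2 * A := by
    refine hA3.trans ?_
    gcongr
  calc Y ^ (3 * k) ≤ Q ^ 9 * T ^ 3 * E' := e2
    _ ≤ Q ^ 9 * (2 * (2 * (2 * B + 7) * X) ^ 2 * A) * E' := by gcongr
    _ = _ := by ring

theorem sym_main {σ : Type*} [Fintype σ] [DecidableEq σ] (α β : σ → ℤ)
    (hinj : ∀ x y, α x = α y → β x = β y → x = y) (m B : ℕ)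
    (hα : ∀ x, α x ^ 2 ≤ B) (hβ : ∀ x, β x ^ 2 ≤ B) (hγ : ∀ x, (α x + β x) ^ 2 ≤ B)
    (l K : ℝ) (hl : 0 ≤ l) (hK1 : 1 ≤ K)
    (hK : ∀ e : ZMod m, ∑ x ∈ (Icc (-(B : ℤ)) B).filter (fun x : ℤ => (x : ZMod m) = e),
      Real.exp (-l * (x : ℝ) ^ 2) ≤ K)
    (k : ℕ) :
    ∃ A : Finset ((Fin 3 × Fin k → ZMod m) × (Fin 3 × Fin k → ZMod m)), CF A ∧
      ((∑ x, Real.exp (-(2 * l / 3) * ((α x : ℝ) ^ 2 + (β x : ℝ) ^ 2 + (α x + β x : ℝ) ^ 2)))
        / K ^ 2) ^ (3 * k) ≤ 8 * (2 * B + 7) ^ 2 * (k * B + 1) ^ 9 * #A := by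
  set Y := ∑ x, Real.exp (-(2 * l / 3) * ((α x : ℝ) ^ 2 + (β x : ℝ) ^ 2 + (α x + β x : ℝ) ^ 2))
    with hY
  let w : σ → ℝ := fun x =>
    Real.exp (-(2 * l / 3) * ((α x : ℝ) ^ 2 + (β x : ℝ) ^ 2 + (α x + β x : ℝ) ^ 2))
  let cls : (Fin k → σ) → ℤ × ℤ × ℤ := fun t =>
    (∑ i, α (t i) ^ 2, ∑ i, β (t i) ^ 2, ∑ i, (α (t i) + β (t i)) ^ 2)
  let I : Finset ℤ := Icc 0 (k * B)
  have hI : ∀ f : σ → ℤ, (∀ x, f x ^ 2 ≤ B) → ∀ t : Fin k → σ, ∑ i, f (t i) ^ 2 ∈ I := by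
    intro f hf t
    simp only [I, mem_Icc]
    refine ⟨sum_nonneg fun i _ => sq_nonneg _, ?_⟩
    calc _ ≤ ∑ _i : Fin k, (B : ℤ) := sum_le_sum fun i _ => hf _
      _ = _ := by simp
  have hcardI : #I = k * B + 1 := by
    simp only [I, Int.card_Icc]
    have : (k : ℤ) * B + 1 - 0 = ((k * B + 1 : ℕ) : ℤ) := by push_cast; ring
    rw [this, Int.toNat_natCast]
  have hM : (0 : ℝ) < (k * B + 1) ^ 3 := by positivity
  obtain ⟨r, hr, hr2⟩ := exists_le_sum_fiber_of_maps_to_of_nsmul_le_sum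
    (s := (univ : Finset (Fin k → σ))) (t := I ×ˢ I ×ˢ I) (f := cls)
    (w := fun t => ∏ i, w (t i)) (b := Y ^ k / (k * B + 1) ^ 3)
    (fun t _ => by
      simp only [cls, mem_product]
      exact ⟨hI α hα t, hI β hβ t, hI (fun x => α x + β x) hγ t⟩)
    (by
      have : I.Nonempty := card_pos.1 (by omega)
      exact this.product (this.product this))
    (by
      rw [← Fintype.sum_pow, card_product, card_product, hcardI, nsmul_eq_mul]
      push_cast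
      apply le_of_eq
      field_simp
      rfl)
  set T0 : Finset (Fin k → σ) := {t | cls t = r} with hT0
  set ρ : ℤ := r.1 + r.2.1 + r.2.2 with hρ
  have hr0 : 0 ≤ ρ := by
    simp only [mem_product, I, mem_Icc] at hr
    omega
  have hT0m : ∀ t ∈ T0, ∑ i, α (t i) ^ 2 = r.1 ∧ ∑ i, β (t i) ^ 2 = r.2.1 ∧
      ∑ i, (α (t i) + β (t i)) ^ 2 = r.2.2 := by
    intro t ht
    have := (mem_filter.1 ht).2
    simp only [cls] at this
    rw [← this]
    exact ⟨rfl, rfl, rfl⟩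
  have hT0c : Y ^ k / (k * B + 1) ^ 3 ≤ #T0 * Real.exp (-(2 * l / 3) * ρ) := by
    refine hr2.trans (le_of_eq ?_)
    rw [← nsmul_eq_mul, ← sum_const]
    refine sum_congr rfl fun t ht => ?_
    obtain ⟨h1, h2, h3⟩ := hT0m t ht
    simp only [w]
    rw [← Real.exp_sum, ← mul_sum, hρ, ← h1, ← h2, ← h3, sum_add_distrib, sum_add_distrib]
    push_cast; rfl
  let Φ : (Fin k → σ) × (Fin k → σ) × (Fin k → σ) → (Fin 3 × Fin k → ℤ) × (Fin 3 × Fin k → ℤ) :=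
    fun t => (fun j => ![α (t.1 j.2), β (t.2.1 j.2), -(α (t.2.2 j.2) + β (t.2.2 j.2))] j.1,
      fun j => ![β (t.1 j.2), -(α (t.2.1 j.2) + β (t.2.1 j.2)), α (t.2.2 j.2)] j.1)
  have hΦ : Function.Injective Φ := by
    intro s t h
    have h1 := congrArg Prod.fst h
    have h2 := congrArg Prod.snd h
    refine Prod.ext (funext fun i => ?_) (Prod.ext (funext fun i => ?_) (funext fun i => ?_))
    · have a := congrFun h1 (0, i)
      have b := congrFun h2 (0, i)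
      simp [Φ] at a b
      exact hinj _ _ a b
    · have a := congrFun h1 (1, i)
      have b := congrFun h2 (1, i)
      simp [Φ] at a b
      exact hinj _ _ (by omega) a
    · have a := congrFun h1 (2, i)
      have b := congrFun h2 (2, i)
      simp [Φ] at a b
      exact hinj _ _ b (by omega)
  set D : Finset (Fin 3 × Fin k → ℤ) :=
    {a ∈ Fintype.piFinset (fun _ : Fin 3 × Fin k => Icc (-(B : ℤ)) B) | nsq a = ρ} with hD
  set X : ℝ := K ^ (3 * k) * Real.exp (l * ρ) with hX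
  have hX1 : 1 ≤ X := by
    have h1 : 1 ≤ K ^ (3 * k) := one_le_pow₀ hK1
    have h2 : 1 ≤ Real.exp (l * ρ) := Real.one_le_exp (by positivity)
    nlinarith
  obtain ⟨p, hp, hp1, hp2⟩ := Nat.exists_prime_lt_and_le_two_mul (6 * ⌊X⌋₊ + 2 * B + 1) (by omega)
  have : Fact p.Prime := ⟨hp⟩
  have hnα : ∀ x, (-(α x + β x)) ^ 2 ≤ (B : ℤ) := fun x => by rw [neg_sq]; exact hγ x
  obtain ⟨A, hA, hA2⟩ := hash_main (p := p) m ⌊X⌋₊ ρ D
    (by
      intro a _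
      apply Nat.le_floor
      have := card_fiber_le (ι := Fin 3 × Fin k) m B l K ρ hK (red m a)
      rw [Fintype.card_prod, Fintype.card_fin, Fintype.card_fin] at this
      convert this)
    (by
      intro a ha a' ha' h
      simp only [hD, mem_filter, Fintype.mem_piFinset, mem_Icc] at ha ha'
      ext i
      have h1 : ((a i : ℤ) : ZMod p) = (a' i : ℤ) := congrFun h i
      rw [ZMod.intCast_eq_intCast_iff_dvd_sub] at h1
      have h2 := ha.1 i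
      have h3 := ha'.1 i
      have := Int.eq_zero_of_abs_lt_dvd h1 (by rw [abs_lt]; constructor <;> omega)
      omega)
    (fun a ha => (mem_filter.1 ha).2) (by omega) ((T0 ×ˢ T0 ×ˢ T0).image Φ)
    (by
      intro t ht
      obtain ⟨s, hs, rfl⟩ := mem_image.1 ht
      simp only [mem_product] at hs
      obtain ⟨a1, a2, a3⟩ := hT0m _ hs.1
      obtain ⟨b1, b2, b3⟩ := hT0m _ hs.2.1
      obtain ⟨c1, c2, c3⟩ := hT0m _ hs.2.2
      simp only [hD, mem_filter, Fintype.mem_piFinset]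
      refine ⟨⟨?_, ?_⟩, ⟨?_, ?_⟩, ⟨?_, ?_⟩⟩
      · rintro ⟨j, i⟩
        apply abs_le_of_sq_le
        fin_cases j
        · exact hα _
        · exact hβ _
        · exact hnα _
      · rw [nsq, Fintype.sum_prod_type, Fin.sum_univ_three, hρ, ← a1, ← b2, ← c3]
        simp [Φ, -neg_add_rev]
      · rintro ⟨j, i⟩
        apply abs_le_of_sq_le
        fin_cases j
        · exact hβ _
        · exact hnα _
        · exact hα _
      · rw [nsq, Fintype.sum_prod_type, Fin.sum_univ_three, hρ, ← c1, ← a2, ← b3]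
        simp [Φ, -neg_add_rev]
        ring
      · rintro ⟨j, i⟩
        apply abs_le_of_sq_le
        fin_cases j
        · exact hnα _
        · simpa [Φ] using hα _
        · simpa [Φ] using hβ _
      · rw [nsq, Fintype.sum_prod_type, Fin.sum_univ_three, hρ, ← b1, ← c2, ← a3]
        simp [Φ, -neg_add_rev]
        ring_nf)
  refine ⟨A, hA, ?_⟩
  rw [card_image_of_injective _ hΦ, card_product, card_product] at hA2
  have hA3 : (#T0 : ℝ) ^ 3 ≤ 2 * (p : ℝ) ^ 2 * #A := by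
    have : ((#T0 * (#T0 * #T0) : ℕ) : ℝ) ≤ ((2 * p ^ 2 * #A : ℕ) : ℝ) := Nat.cast_le.2 hA2
    push_cast at this
    nlinarith
  have hpX : (p : ℝ) ≤ 2 * (6 * (⌊X⌋₊ : ℝ) + 2 * B + 1) := by exact_mod_cast hp2
  have hY0 : 0 ≤ Y := sum_nonneg fun x _ => (Real.exp_pos _).le
  exact final_ineq Y K l ρ (#T0) p (#A) B k hY0 hK1 (Nat.cast_nonneg _) (Nat.cast_nonneg _)
    (Nat.cast_nonneg _) hX1 hT0c hA3 hpX

end Pool.Agent.P.MP_db4732_co
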